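import Pool.Agent.H654R4.MO.Menger

/-!
# The algorithm: unit closure of the two demands

A state is a list of elements with a status: `none` = undirected, `some false` = directed as
listed, `some true` = reversed.
-/

namespace Pool.Agent.H654R4.MO

/-- elements of states -/
abbrev Elt : Type := (ℕ × ℕ) × Option Bool

/-- states -/
abbrev St : Type := List Elt

/-- the arcs provided by an element -/
def el (x : (ℕ × ℕ) × Option Bool) : List (ℕ × ℕ) :=
  x.2.elim [x.1, (x.1.2, x.1.1)] (fun b => if b = true then [(x.1.2, x.1.1)] else [x.1])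

/-- one step of a graph search -/
def grow (D : List (ℕ × ℕ)) (R : List ℕ) : List ℕ :=
  ((D.filter (fun a => decide (a.1 ∈ R) && !decide (a.2 ∈ R))).head?).elim R (fun a => a.2 :: R)

/-- reachability -/
def reachB (D : List (ℕ × ℕ)) (s t : ℕ) : Bool := decide (t ∈ (grow D)^[D.length] [s])

/-- the arcs of the elements different from the `j`-th -/
def arx (L : St) (j : ℕ) : List (ℕ × ℕ) :=
  L.zipIdx.flatMap (fun p => if p.2 = j then [] else el p.1)

/-- each demand is satisfiable by itself -/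
def ok (T : (ℕ × ℕ) × (ℕ × ℕ)) (L : St) : Bool :=
  reachB (arx L L.length) T.1.1 T.1.2 &&
    (List.range (L.length + 1)).all (fun j => reachB (arx L j) T.2.1 T.2.2)

/-- orient the `i`-th element, if it is undirected -/
def upd (L : St) (i : ℕ) (b : Bool) : St :=
  L.zipIdx.map (fun p => if p.2 = i ∧ p.1.2 = none then (p.1.1, some b) else p.1)

/-- the status forced for an undirected element -/
def fs (T : (ℕ × ℕ) × (ℕ × ℕ)) (L : St) (i : ℕ) : Option Bool :=
  if ok T (upd L i true) = true then (if ok T (upd L i false) = true then none else some true)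
  else some false

/-- one round of forcing -/
def step (T : (ℕ × ℕ) × (ℕ × ℕ)) (L : St) : St :=
  L.zipIdx.map (fun p => if p.1.2 = none then (p.1.1, fs T L p.2) else p.1)

/-- the decision procedure -/
def Dec (T : (ℕ × ℕ) × (ℕ × ℕ)) (L : St) : Bool := ok T ((step T)^[L.length] L)

/-! ### Reachability -/

section reach

variable {D : List (ℕ × ℕ)}

theorem iter_stab {σ : Type*} (f : σ → σ) (m : σ → ℕ) (h : ∀ x, f x = x ∨ m (f x) < m x) :
    ∀ n x, m x ≤ n → f (f^[n] x) = f^[n] x
  | 0, x, hx => by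
    rcases h x with h | h
    · simpa using h
    · omega
  | n + 1, x, hx => by
    rw [Function.iterate_succ_apply]
    rcases h x with h' | h'
    · rw [h', Function.iterate_fixed h']; exact h'
    · exact iter_stab f m h n (f x) (by omega)

theorem grow_cases (R : List ℕ) :
    (grow D R = R ∧ ∀ a ∈ D, a.1 ∈ R → a.2 ∈ R) ∨
      ∃ a ∈ D, a.1 ∈ R ∧ a.2 ∉ R ∧ grow D R = a.2 :: R := by
  unfold grow
  rcases h : (D.filter (fun a => decide (a.1 ∈ R) && !decide (a.2 ∈ R))) with _ | ⟨a, l⟩
  · left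
    refine ⟨by rw [h]; rfl, fun a ha h1 => ?_⟩
    by_contra h2
    have : a ∈ D.filter (fun a => decide (a.1 ∈ R) && !decide (a.2 ∈ R)) := by
      simp [ha, h1, h2]
    rw [h] at this
    simp at this
  · right
    have : a ∈ D.filter (fun a => decide (a.1 ∈ R) && !decide (a.2 ∈ R)) := by
      rw [h]; simp
    simp only [List.mem_filter, Bool.and_eq_true, decide_eq_true_eq, Bool.not_eq_true',
      decide_eq_false_iff_not] at this
    exact ⟨a, this.1, this.2.1, this.2.2, by rw [h]; rfl⟩

theorem grow_measure (R : List ℕ) : grow D R = R ∨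
    (D.countP (fun a => !decide (a.2 ∈ grow D R))) < D.countP (fun a => !decide (a.2 ∈ R)) := by
  rcases grow_cases (D := D) R with h | ⟨a, ha, h1, h2, h3⟩
  · exact Or.inl h.1
  · right
    rw [h3]
    obtain ⟨l1, l2, rfl⟩ := List.append_of_mem ha
    simp only [List.countP_append, List.countP_cons]
    have e1 : ∀ l : List (ℕ × ℕ), l.countP (fun b => !decide (b.2 ∈ a.2 :: R)) ≤
        l.countP (fun b => !decide (b.2 ∈ R)) := by
      intro l
      refine List.countP_mono_left fun b _ hb => ?_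
      simp only [List.mem_cons, not_or, Bool.not_eq_true', decide_eq_false_iff_not] at hb ⊢
      exact hb.2
    have e2 := e1 l1
    have e3 := e1 l2
    simp only [List.mem_cons, true_or, decide_true, Bool.not_true, h2, decide_false,
      Bool.not_false, if_true] at *
    simp only [Bool.false_eq_true, if_false]
    omega

theorem mem_grow_sub {R : List ℕ} {v : ℕ} (h : v ∈ R) : v ∈ grow D R := by
  rcases grow_cases (D := D) R with h' | ⟨a, ha, h1, h2, h3⟩
  · rw [h'.1]; exact h
  · rw [h3]; exact List.mem_cons_of_mem _ h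

theorem mem_iter_grow {s : ℕ} (n : ℕ) : s ∈ (grow D)^[n] [s] := by
  induction n with
  | zero => simp
  | succ n ih => rw [Function.iterate_succ_apply']; exact mem_grow_sub ih

theorem iter_grow_sub {S : Set ℕ} (hS : ∀ a ∈ D, a.1 ∈ S → a.2 ∈ S) {s : ℕ} (hs : s ∈ S)
    (n : ℕ) : ∀ v ∈ (grow D)^[n] [s], v ∈ S := by
  induction n with
  | zero => simpa using hs
  | succ n ih =>
    rw [Function.iterate_succ_apply']
    rcases grow_cases (D := D) ((grow D)^[n] [s]) with h' | ⟨a, ha, h1, h2, h3⟩
    · rw [h'.1]; exact ih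
    · rw [h3]
      intro v hv
      rcases List.mem_cons.1 hv with rfl | hv
      · exact hS a ha (ih _ h1)
      · exact ih v hv

/-- Reachability and cuts. -/
theorem reachB_iff {s t : ℕ} : reachB D s t = true ↔
    ∀ S : Set ℕ, s ∈ S → t ∉ S → ∃ a ∈ D, a.1 ∈ S ∧ a.2 ∉ S := by
  unfold reachB
  rw [decide_eq_true_eq]
  constructor
  · intro h S hs ht
    by_contra hc
    push Not at hc
    exact ht (iter_grow_sub hc hs _ t h)
  · intro h
    by_contra ht
    obtain ⟨a, ha, h1, h2⟩ := h {v | v ∈ (grow D)^[D.length] [s]} (mem_iter_grow _) ht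
    have hst := iter_stab (grow D) (fun R => D.countP (fun a => !decide (a.2 ∈ R)))
      grow_measure D.length [s] List.countP_le_length
    rcases grow_cases (D := D) ((grow D)^[D.length] [s]) with h' | ⟨b, hb, b1, b2, b3⟩
    · exact h2 (h'.2 a ha h1)
    · rw [hst] at b3
      have := congrArg List.length b3
      simp at this

end reach

/-! ### Cuts of a state -/

/-- the element `i` can be used to leave `S` -/
def Lx (L : St) (S : Set ℕ) (i : ℕ) : Prop := ∃ x, L[i]? = some x ∧ ∃ a ∈ el x, a.1 ∈ S ∧ a.2 ∉ S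

/-- the cut conditions -/
def CC (T : (ℕ × ℕ) × (ℕ × ℕ)) (L : St) : Prop :=
  (∀ S : Set ℕ, T.1.1 ∈ S → T.1.2 ∉ S → ∃ i, Lx L S i) ∧
    ∀ S : Set ℕ, T.2.1 ∈ S → T.2.2 ∉ S → ∃ i j, i ≠ j ∧ Lx L S i ∧ Lx L S j

theorem mem_arx {L : St} {j : ℕ} {a : ℕ × ℕ} : a ∈ arx L j ↔
    ∃ i x, L[i]? = some x ∧ i ≠ j ∧ a ∈ el x := by
  unfold arx
  simp only [List.mem_flatMap, Prod.exists, List.mk_mem_zipIdx_iff_getElem?]
  constructor
  · rintro ⟨e1, e2, o, i, h1, h2⟩
    by_cases hij : i = j
    · rw [if_pos hij] at h2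
      simp at h2
    · rw [if_neg hij] at h2
      exact ⟨i, e1, e2, o, h1, hij, h2⟩
  · rintro ⟨i, e1, e2, o, h1, h2, h3⟩
    exact ⟨e1, e2, o, i, h1, by rw [if_neg h2]; exact h3⟩

theorem reach_arx {L : St} {j s t : ℕ} : reachB (arx L j) s t = true ↔
    ∀ S : Set ℕ, s ∈ S → t ∉ S → ∃ i, i ≠ j ∧ Lx L S i := by
  rw [reachB_iff]
  refine forall_congr' fun S => forall_congr' fun _ => forall_congr' fun _ => ?_
  constructor
  · rintro ⟨a, ha, h1, h2⟩
    obtain ⟨i, x, hx, hij, hax⟩ := mem_arx.1 ha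
    exact ⟨i, hij, x, hx, a, hax, h1, h2⟩
  · rintro ⟨i, hij, x, hx, a, hax, h1, h2⟩
    exact ⟨a, mem_arx.2 ⟨i, x, hx, hij, hax⟩, h1, h2⟩

theorem Lx.lt {L : St} {S : Set ℕ} {i : ℕ} (h : Lx L S i) : i < L.length := by
  obtain ⟨x, hx, -⟩ := h
  by_contra hc
  rw [List.getElem?_eq_none (by omega)] at hx
  cases hx

theorem ok_iff {T : (ℕ × ℕ) × (ℕ × ℕ)} {L : St} : ok T L = true ↔ CC T L := by
  unfold ok CC
  rw [Bool.and_eq_true, List.all_eq_true, reach_arx]
  refine and_congr ?_ ?_
  · refine forall_congr' fun S => forall_congr' fun _ => forall_congr' fun _ => ?_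
    constructor
    · rintro ⟨i, -, h⟩; exact ⟨i, h⟩
    · rintro ⟨i, h⟩; exact ⟨i, (by have := h.lt; omega), h⟩
  · constructor
    · intro h S hs ht
      have h0 := h L.length (by simp)
      rw [reach_arx] at h0
      obtain ⟨i, -, hi⟩ := h0 S hs ht
      have h1 := h i (by have := hi.lt; simp; omega)
      rw [reach_arx] at h1
      obtain ⟨j, hji, hj⟩ := h1 S hs ht
      exact ⟨i, j, hji.symm, hi, hj⟩
    · intro h j _
      rw [reach_arx]
      intro S hs ht
      obtain ⟨a, b, hab, ha, hb⟩ := h S hs ht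
      by_cases haj : a = j
      · exact ⟨b, fun hb' => hab (haj.trans hb'.symm), hb⟩
      · exact ⟨a, haj, ha⟩

/-! ### Extensions of states -/

/-- `F` is obtained from `L` by orienting some undirected elements. -/
def Ext (L F : St) : Prop := List.Forall₂ (fun x y => x.1 = y.1 ∧ (x.2 = none ∨ x.2 = y.2)) L F

theorem Ext.length {L F : St} (h : Ext L F) : L.length = F.length := List.Forall₂.length_eq h

theorem ext_iff {L F : St} : Ext L F ↔ L.length = F.length ∧
    ∀ (i : ℕ) (x y : Elt), L[i]? = some x → F[i]? = some y →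
      x.1 = y.1 ∧ (x.2 = none ∨ x.2 = y.2) := by
  unfold Ext
  rw [List.forall₂_iff_get]
  refine and_congr_right fun h => ?_
  constructor
  · intro H i x y hx hy
    obtain ⟨h1, rfl⟩ := List.getElem?_eq_some_iff.1 hx
    obtain ⟨h2, rfl⟩ := List.getElem?_eq_some_iff.1 hy
    exact H i h1 h2
  · intro H i h1 h2
    exact H i _ _ (List.getElem?_eq_getElem h1) (List.getElem?_eq_getElem h2)

theorem Ext.get {L F : St} (h : Ext L F) {i : ℕ} {y : (ℕ × ℕ) × Option Bool}
    (hy : F[i]? = some y) : ∃ x, L[i]? = some x ∧ x.1 = y.1 ∧ (x.2 = none ∨ x.2 = y.2) := by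
  obtain ⟨h2, -⟩ := List.getElem?_eq_some_iff.1 hy
  have h1 : i < L.length := by rw [h.length]; exact h2
  exact ⟨_, List.getElem?_eq_getElem h1, (ext_iff.1 h).2 i _ _ (List.getElem?_eq_getElem h1) hy⟩

theorem Ext.get' {L F : St} (h : Ext L F) {i : ℕ} {x : (ℕ × ℕ) × Option Bool}
    (hx : L[i]? = some x) : ∃ y, F[i]? = some y ∧ x.1 = y.1 ∧ (x.2 = none ∨ x.2 = y.2) := by
  obtain ⟨h1, -⟩ := List.getElem?_eq_some_iff.1 hx
  have h2 : i < F.length := by rw [← h.length]; exact h1
  exact ⟨_, List.getElem?_eq_getElem h2, (ext_iff.1 h).2 i _ _ hx (List.getElem?_eq_getElem h2)⟩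

theorem Ext.refl (L : St) : Ext L L := ext_iff.2 ⟨rfl, fun i x y hx hy => by
  rw [hx] at hy
  obtain rfl := Option.some.inj hy
  exact ⟨rfl, Or.inr rfl⟩⟩

theorem Ext.trans {L M F : St} (h : Ext L M) (h' : Ext M F) : Ext L F := by
  refine ext_iff.2 ⟨h.length.trans h'.length, fun i x y hx hy => ?_⟩
  obtain ⟨z, hz, e1, e2⟩ := h'.get hy
  obtain ⟨x', hx', d1, d2⟩ := h.get hz
  rw [hx] at hx'
  obtain rfl := Option.some.inj hx'
  refine ⟨d1.trans e1, ?_⟩
  rcases d2 with d2 | d2
  · exact Or.inl d2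
  · rw [d2]; exact e2

theorem Lx.mono {L F : St} (h : Ext L F) {S : Set ℕ} {i : ℕ} (hi : Lx F S i) : Lx L S i := by
  obtain ⟨y, hy, a, ha, h1, h2⟩ := hi
  obtain ⟨⟨e, o⟩, hx, e1, e2⟩ := h.get hy
  obtain ⟨e', o'⟩ := y
  simp only at e1 e2
  subst e1
  refine ⟨(e, o), hx, a, ?_, h1, h2⟩
  rcases e2 with rfl | rfl
  · unfold el at ha ⊢
    simp only [Option.elim_none]
    cases o' with
    | none => simpa using ha
    | some b => cases b <;> simp_all
  · exact ha

theorem CC.mono {T : (ℕ × ℕ) × (ℕ × ℕ)} {L F : St} (h : Ext L F) (hF : CC T F) : CC T L := by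
  refine ⟨fun S hs ht => ?_, fun S hs ht => ?_⟩
  · obtain ⟨i, hi⟩ := hF.1 S hs ht
    exact ⟨i, hi.mono h⟩
  · obtain ⟨i, j, hij, hi, hj⟩ := hF.2 S hs ht
    exact ⟨i, j, hij, hi.mono h, hj.mono h⟩

theorem getElem?_upd {L : St} {i j : ℕ} {b : Bool} : (upd L i b)[j]? =
    (L[j]?).map (fun x => if j = i ∧ x.2 = none then (x.1, some b) else x) := by
  unfold upd
  rw [List.getElem?_map, List.getElem?_zipIdx]
  cases L[j]? <;> simp

theorem getElem?_step {T : (ℕ × ℕ) × (ℕ × ℕ)} {L : St} {j : ℕ} : (step T L)[j]? =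
    (L[j]?).map (fun x => if x.2 = none then (x.1, fs T L j) else x) := by
  unfold step
  rw [List.getElem?_map, List.getElem?_zipIdx]
  cases L[j]? <;> simp

theorem length_upd {L : St} {i : ℕ} {b : Bool} : (upd L i b).length = L.length := by
  simp [upd]

theorem length_step {T : (ℕ × ℕ) × (ℕ × ℕ)} {L : St} : (step T L).length = L.length := by
  simp [step]

theorem ext_upd (L : St) (i : ℕ) (b : Bool) : Ext L (upd L i b) := by
  refine ext_iff.2 ⟨length_upd.symm, fun j x y hx hy => ?_⟩
  rw [getElem?_upd, hx, Option.map_some] at hy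
  obtain rfl := Option.some.inj hy
  split_ifs with h
  · exact ⟨rfl, Or.inl h.2⟩
  · exact ⟨rfl, Or.inr rfl⟩

theorem ext_step (T : (ℕ × ℕ) × (ℕ × ℕ)) (L : St) : Ext L (step T L) := by
  refine ext_iff.2 ⟨length_step.symm, fun j x y hx hy => ?_⟩
  rw [getElem?_step, hx, Option.map_some] at hy
  obtain rfl := Option.some.inj hy
  split_ifs with h
  · exact ⟨rfl, Or.inl h⟩
  · exact ⟨rfl, Or.inr rfl⟩

/-- all elements are directed -/
def Full (F : St) : Prop := ∀ (i : ℕ) (x : Elt), F[i]? = some x → x.2 ≠ none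

theorem Ext.upd {L F : St} (h : Ext L F) {i : ℕ} {e : ℕ × ℕ} {b : Bool}
    (hi : F[i]? = some (e, some b)) : Ext (upd L i b) F := by
  refine ext_iff.2 ⟨length_upd.trans h.length, fun j x y hx hy => ?_⟩
  obtain ⟨z, hz, e1, e2⟩ := h.get hy
  rw [getElem?_upd, hz, Option.map_some] at hx
  obtain rfl := Option.some.inj hx
  split_ifs with hh
  · obtain ⟨rfl, hn⟩ := hh
    rw [hi] at hy
    obtain rfl := Option.some.inj hy
    exact ⟨e1, Or.inr rfl⟩
  · exact ⟨e1, e2⟩

theorem Ext.step {T : (ℕ × ℕ) × (ℕ × ℕ)} {L F : St} (h : Ext L F) (hF : Full F)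
    (hc : CC T F) : Ext (step T L) F := by
  refine ext_iff.2 ⟨length_step.trans h.length, fun j x y hx hy => ?_⟩
  obtain ⟨z, hz, e1, e2⟩ := h.get hy
  rw [getElem?_step, hz, Option.map_some] at hx
  obtain rfl := Option.some.inj hx
  split_ifs with hh
  · refine ⟨e1, ?_⟩
    obtain ⟨e, o⟩ := y
    cases o with
    | none => exact absurd rfl (hF j _ hy)
    | some b =>
      have h1 : ok T (MO.upd L j b) = true := ok_iff.2 (hc.mono (h.upd hy))
      unfold fs
      cases b with
      | true =>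
        rw [if_pos h1]
        split_ifs
        · exact Or.inl rfl
        · exact Or.inr rfl
      | false =>
        rw [if_pos h1]
        split_ifs
        · exact Or.inl rfl
        · exact Or.inr rfl
  · exact ⟨e1, e2⟩

theorem Ext.iter {T : (ℕ × ℕ) × (ℕ × ℕ)} {L F : St} (h : Ext L F) (hF : Full F)
    (hc : CC T F) (n : ℕ) : Ext ((MO.step T)^[n] L) F := by
  induction n with
  | zero => exact h
  | succ n ih => rw [Function.iterate_succ_apply']; exact ih.step hF hc

theorem ext_iter (T : (ℕ × ℕ) × (ℕ × ℕ)) (L : St) (n : ℕ) : Ext L ((step T)^[n] L) := by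
  induction n with
  | zero => exact Ext.refl L
  | succ n ih => rw [Function.iterate_succ_apply']; exact ih.trans (ext_step T _)

/-- Completeness of the decision procedure. -/
theorem dec_of_ext {T : (ℕ × ℕ) × (ℕ × ℕ)} {L F : St} (h : Ext L F) (hF : Full F)
    (hc : CC T F) : Dec T L = true := ok_iff.2 (hc.mono (h.iter hF hc _))

/-! ### Stability -/

theorem count_zipIdx (g : ℕ → Option Bool) : ∀ (L : St) (k : ℕ),
    (((L.zipIdx k).map (fun p => if p.1.2 = none then (p.1.1, g p.2) else p.1)) = L ∨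
      ((L.zipIdx k).map (fun p => if p.1.2 = none then (p.1.1, g p.2) else p.1)).countP
        (fun x => decide (x.2 = none)) < L.countP (fun x => decide (x.2 = none))) ∧
      ((L.zipIdx k).map (fun p => if p.1.2 = none then (p.1.1, g p.2) else p.1)).countP
        (fun x => decide (x.2 = none)) ≤ L.countP (fun x => decide (x.2 = none))
  | [], k => by simp
  | (e, none) :: L, k => by
    have ih := count_zipIdx g L (k + 1)
    rw [List.zipIdx_cons, List.map_cons, List.countP_cons, List.countP_cons]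
    simp only [if_true, decide_true]
    cases hg : g k with
    | none =>
      simp only [decide_true, if_true]
      refine ⟨?_, by omega⟩
      rcases ih.1 with h | h
      · left; rw [h]
      · right; omega
    | some b =>
      simp only [reduceCtorEq, decide_false, Bool.false_eq_true, if_false]
      exact ⟨Or.inr (by omega), by omega⟩
  | (e, some b) :: L, k => by
    have ih := count_zipIdx g L (k + 1)
    rw [List.zipIdx_cons, List.map_cons, List.countP_cons, List.countP_cons]
    simp only [reduceCtorEq, if_false, decide_false, Bool.false_eq_true, Nat.add_zero]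
    refine ⟨?_, ih.2⟩
    rcases ih.1 with h | h
    · left; rw [h]
    · right; exact h

theorem step_stable (T : (ℕ × ℕ) × (ℕ × ℕ)) (L : St) :
    step T ((step T)^[L.length] L) = (step T)^[L.length] L :=
  iter_stab (step T) (fun L : St => L.countP (fun x : Elt => decide (x.2 = none)))
    (fun M => (count_zipIdx (fs T M) M 0).1) L.length L List.countP_le_length

end Pool.Agent.H654R4.MO
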