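import Pool.Agent.H654R4.MO.Sound

/-!
# From states to orientations; the search
-/

namespace Pool.Agent.H654R4.MO

open Finset

/-- the list of the arcs of a fully oriented state -/
def dirs (F : St) : List (ℕ × ℕ) := F.map (fun x => (src x, tgt x))

theorem lv_iff {F : St} (hF : Full F) {S : Set ℕ} {i : ℕ} : Lv (dirs F) S i ↔ Lx F S i := by
  unfold Lv Lx dirs
  rw [List.getElem?_map]
  constructor
  · rintro ⟨a, ha, h1, h2⟩
    cases hx : F[i]? with
    | none => rw [hx] at ha; simp at ha
    | some x =>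
      rw [hx, Option.map_some] at ha
      obtain rfl := Option.some.inj ha
      exact ⟨x, rfl, (el_iff _ _).2 (Or.inl ⟨h1, h2⟩)⟩
  · rintro ⟨x, hx, h⟩
    rw [el_iff] at h
    rcases h with h | ⟨h, -⟩
    · exact ⟨(src x, tgt x), by rw [hx, Option.map_some], h.1, h.2⟩
    · exact absurd h (hF i x hx)

/-- The cut conditions of a fully oriented state, in terms of paths. -/
theorem cc_full {T : (ℕ × ℕ) × (ℕ × ℕ)} {F : St} (hF : Full F) : CC T F ↔
    (∃ w, IsPath (dirs F) T.1.1 T.1.2 w) ∧ ∃ w w', IsPath (dirs F) T.2.1 T.2.2 w ∧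
      IsPath (dirs F) T.2.1 T.2.2 w' ∧ w.Disjoint w' := by
  classical
  constructor
  · rintro ⟨h1, h2⟩
    refine ⟨path_of_cuts _ fun S hs ht => ?_, menger_two _ fun S hs ht => ?_⟩
    · obtain ⟨i, hi⟩ := h1 S hs ht
      have hi' := (lv_iff hF).2 hi
      exact card_pos.2 ⟨i, mem_filter.2 ⟨hi'.mem, hi'⟩⟩
    · obtain ⟨i, j, hij, hi, hj⟩ := h2 S hs ht
      have hi' := (lv_iff hF).2 hi
      have hj' := (lv_iff hF).2 hj
      exact one_lt_card.2 ⟨i, mem_filter.2 ⟨hi'.mem, hi'⟩, j, mem_filter.2 ⟨hj'.mem, hj'⟩, hij⟩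
  · rintro ⟨⟨w, hw⟩, v, v', hv, hv', hd⟩
    refine ⟨fun S hs ht => ?_, fun S hs ht => ?_⟩
    · obtain ⟨i, hi⟩ := card_pos.1 (show 0 < ((range (dirs F).length).filter
        (Lv (dirs F) S)).card from cuts_of_path _ hw hs ht)
      exact ⟨i, (lv_iff hF).1 (mem_filter.1 hi).2⟩
    · obtain ⟨i, hi, j, hj, hij⟩ := one_lt_card.1 (show 1 < ((range (dirs F).length).filter
        (Lv (dirs F) S)).card from cuts_of_paths _ hv hv' hd hs ht)
      exact ⟨i, j, hij, (lv_iff hF).1 (mem_filter.1 hi).2, (lv_iff hF).1 (mem_filter.1 hj).2⟩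

/-- the initial state -/
def init (I : Inst) : St :=
  I.1.2.map (fun e => (e, none)) ++ I.1.1.map (fun e => (e, some false))

/-- reading off the orientation -/
def outp (I : Inst) (F : St) : List Bool := (F.zip I.1.2).map (fun p => decide (p.1.2 = some true))

theorem full_iff {F : St} : Full F ↔ ∀ x ∈ F, x.2 ≠ none := by
  unfold Full
  constructor
  · intro h x hx
    obtain ⟨i, hi⟩ := List.mem_iff_getElem?.1 hx
    exact h i x hi
  · intro h i x hx
    exact h x (List.mem_of_getElem? hx)

theorem dirs_arcs : ∀ (A : List (ℕ × ℕ)) (F : St), Ext (A.map (fun e => (e, some false))) F →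
    dirs F = A
  | [], F, h => by
    unfold Ext at h
    simp only [List.map_nil, List.forall₂_nil_left_iff] at h
    subst h
    rfl
  | a :: A, F, h => by
    unfold Ext at h
    rw [List.map_cons, List.forall₂_cons_left_iff] at h
    obtain ⟨y, F', ⟨h1, h2⟩, h3, rfl⟩ := h
    have ih := dirs_arcs A F' h3
    obtain ⟨e, o⟩ := y
    simp only [reduceCtorEq, false_or] at h1 h2
    subst h1
    subst h2
    simp only [dirs, List.map_cons] at ih ⊢
    rw [ih]
    simp [src, tgt]

theorem dirs_init (A : List (ℕ × ℕ)) : ∀ (E : List (ℕ × ℕ)) (F : St),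
    Ext (E.map (fun e => (e, none)) ++ A.map (fun e => (e, some false))) F → Full F →
    dirs F = oriented A E ((F.zip E).map (fun p => decide (p.1.2 = some true))) ∧
      ((F.zip E).map (fun p => decide (p.1.2 = some true))).length = E.length
  | [], F, h, _ => by
    refine ⟨?_, by simp⟩
    rw [dirs_arcs A F (by simpa using h)]
    simp [oriented]
  | e :: E, F, h, hF => by
    unfold Ext at h
    rw [List.map_cons, List.cons_append, List.forall₂_cons_left_iff] at h
    obtain ⟨y, F', ⟨h1, h2⟩, h3, rfl⟩ := h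
    have hF' : Full F' := full_iff.2 fun x hx => full_iff.1 hF x (List.mem_cons_of_mem _ hx)
    have hy := full_iff.1 hF y List.mem_cons_self
    obtain ⟨ih1, ih2⟩ := dirs_init A E F' h3 hF'
    obtain ⟨e', o⟩ := y
    simp only at h1 hy
    subst h1
    refine ⟨?_, ?_⟩
    · have e1 : dirs ((e, o) :: F') = (src (e, o), tgt (e, o)) :: dirs F' := rfl
      rw [e1, ih1]
      unfold oriented
      rw [List.zip_cons_cons, List.map_cons, List.zipWith_cons_cons, List.cons_append]
      congr 1
      rcases o with _ | _ | _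
      · exact absurd rfl hy
      · simp [src, tgt]
      · simp [src, tgt]
    · rw [List.zip_cons_cons, List.map_cons, List.length_cons, List.length_cons, ih2]

/-- A fully oriented state extending the initial one gives an orientation. -/
theorem good_of_full {I : Inst} {F : St} (h : Ext (init I) F) (hF : Full F) (hc : CC I.2 F) :
    Good I (outp I F) := by
  obtain ⟨h1, h2⟩ := dirs_init I.1.1 I.1.2 F h hF
  obtain ⟨c1, c2⟩ := (cc_full hF).1 hc
  rw [h1] at c1 c2
  exact ⟨h2, c1, c2⟩

theorem exists_state (A : List (ℕ × ℕ)) : ∀ (E : List (ℕ × ℕ)) (o : List Bool),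
    o.length = E.length → ∃ F, Ext (E.map (fun e => (e, none)) ++ A.map (fun e => (e, some false))) F ∧
      Full F ∧ dirs F = oriented A E o
  | [], [], _ => by
    refine ⟨A.map (fun e => (e, some false)), Ext.refl _, full_iff.2 ?_, ?_⟩
    · intro x hx
      obtain ⟨e, -, rfl⟩ := List.mem_map.1 hx
      simp
    · rw [dirs_arcs A _ (Ext.refl _)]
      simp [oriented]
  | [], _ :: _, h => by simp at h
  | _ :: _, [], h => by simp at h
  | e :: E, b :: o, h => by
    obtain ⟨F, h1, h2, h3⟩ := exists_state A E o (by simpa using h)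
    refine ⟨(e, some b) :: F, List.Forall₂.cons ⟨rfl, Or.inl rfl⟩ h1, full_iff.2 ?_, ?_⟩
    · intro x hx
      rcases List.mem_cons.1 hx with rfl | hx
      · simp
      · exact full_iff.1 h2 x hx
    · have e1 : dirs ((e, some b) :: F) = (src (e, some b), tgt (e, some b)) :: dirs F := rfl
      rw [e1, h3]
      unfold oriented
      rw [List.zipWith_cons_cons, List.cons_append]
      congr 1
      cases b <;> simp [src, tgt]

theorem full_of_good {I : Inst} {o : List Bool} (h : Good I o) :
    ∃ F, Ext (init I) F ∧ Full F ∧ CC I.2 F := by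
  obtain ⟨h1, h2, h3⟩ := h
  obtain ⟨F, a, b, c⟩ := exists_state I.1.1 I.1.2 o h1
  refine ⟨F, a, b, (cc_full b).2 ?_⟩
  rw [c]
  exact ⟨h2, h3⟩

/-- **Correctness of the decision procedure.** -/
theorem dec_good (I : Inst) : Dec I.2 (init I) = true ↔ ∃ o, Good I o := by
  rw [dec_iff]
  constructor
  · rintro ⟨F, h1, h2, h3⟩
    exact ⟨_, good_of_full h1 h2 h3⟩
  · rintro ⟨o, h⟩
    exact full_of_good h

/-! ### The search -/

/-- orient one more edge -/
def srch (T : (ℕ × ℕ) × (ℕ × ℕ)) (L : St) (i : ℕ) : St :=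
  if Dec T (upd L i false) = true then upd L i false else upd L i true

/-- orient the edges one after the other -/
def sr (T : (ℕ × ℕ) × (ℕ × ℕ)) (L : St) : St := (List.range L.length).foldl (srch T) L

theorem srch_eq (T : (ℕ × ℕ) × (ℕ × ℕ)) (L : St) (i : ℕ) : ∃ b, srch T L i = upd L i b := by
  unfold srch
  split_ifs
  · exact ⟨_, rfl⟩
  · exact ⟨_, rfl⟩

theorem ext_srch (T : (ℕ × ℕ) × (ℕ × ℕ)) (L : St) (i : ℕ) : Ext L (srch T L i) := by
  obtain ⟨b, hb⟩ := srch_eq T L i
  rw [hb]
  exact ext_upd L i b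

theorem dec_srch {T : (ℕ × ℕ) × (ℕ × ℕ)} {L : St} {i : ℕ} (hi : i < L.length)
    (h : Dec T L = true) : Dec T (srch T L i) = true := by
  obtain ⟨F, h1, h2, h3⟩ := dec_iff.1 h
  unfold srch
  by_cases hc : Dec T (upd L i false) = true
  · rw [if_pos hc]; exact hc
  · rw [if_neg hc]
    have hi' : i < F.length := by rw [← h1.length]; exact hi
    have e := List.getElem?_eq_getElem hi'
    generalize F[i] = y at e
    obtain ⟨a, o⟩ := y
    cases o with
    | none => exact absurd rfl (h2 i _ e)
    | some b =>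
      have := dec_iff.2 ⟨F, h1.upd e, h2, h3⟩
      cases b with
      | false => exact absurd this hc
      | true => exact this

theorem foldl_srch {T : (ℕ × ℕ) × (ℕ × ℕ)} {L : St} (k : ℕ) :
    Ext L ((List.range k).foldl (srch T) L) ∧ ∀ (i : ℕ) (x : Elt), i < k →
      ((List.range k).foldl (srch T) L)[i]? = some x → x.2 ≠ none := by
  induction k with
  | zero => exact ⟨Ext.refl _, fun i x h => absurd h (by omega)⟩
  | succ k ih =>
    obtain ⟨i1, i2⟩ := ih
    rw [List.range_succ, List.foldl_append, List.foldl_cons, List.foldl_nil]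
    refine ⟨i1.trans (ext_srch T _ _), fun i x hi hx => ?_⟩
    obtain ⟨b, hb⟩ := srch_eq T ((List.range k).foldl (srch T) L) k
    rw [hb, getElem?_upd] at hx
    cases hy : ((List.range k).foldl (srch T) L)[i]? with
    | none => rw [hy] at hx; simp at hx
    | some y =>
      rw [hy, Option.map_some] at hx
      obtain rfl := Option.some.inj hx
      split_ifs with h
      · simp
      · intro hn
        by_cases hik : i = k
        · exact h ⟨hik, hn⟩
        · exact i2 i y (by omega) hy hn

theorem dec_foldl_srch {T : (ℕ × ℕ) × (ℕ × ℕ)} {L : St} (h : Dec T L = true) (k : ℕ)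
    (hk : k ≤ L.length) : Dec T ((List.range k).foldl (srch T) L) = true := by
  induction k with
  | zero => exact h
  | succ k ih =>
    rw [List.range_succ, List.foldl_append, List.foldl_cons, List.foldl_nil]
    exact dec_srch (by rw [← (foldl_srch (T := T) (L := L) k).1.length]; omega) (ih (by omega))

theorem sr_spec {T : (ℕ × ℕ) × (ℕ × ℕ)} {L : St} (h : Dec T L = true) :
    Ext L (sr T L) ∧ Full (sr T L) ∧ CC T (sr T L) := by
  have h1 := foldl_srch (T := T) (L := L) L.length
  have h2 := dec_foldl_srch h L.length le_rfl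
  obtain ⟨F, a, b, c⟩ := dec_iff.1 h2
  refine ⟨h1.1, fun i x hx => h1.2 i x ?_ hx, c.mono a⟩
  rw [h1.1.length]
  exact (List.getElem?_eq_some_iff.1 hx).1

/-- the algorithm -/
def solve (I : Inst) : Option (List Bool) :=
  if Dec I.2 (init I) = true then some (outp I (sr I.2 (init I))) else none

theorem solve_spec (I : Inst) :
    (∃ o, solve I = some o ∧ Good I o) ∨ (solve I = none ∧ ∀ o, ¬ Good I o) := by
  unfold solve
  by_cases h : Dec I.2 (init I) = true
  · left
    rw [if_pos h]
    obtain ⟨h1, h2, h3⟩ := sr_spec h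
    exact ⟨_, rfl, good_of_full h1 h2 h3⟩
  · right
    rw [if_neg h]
    exact ⟨rfl, fun o ho => h ((dec_good I).2 ⟨o, ho⟩)⟩

end Pool.Agent.H654R4.MO
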