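import Pool.Agent.H654R4.MO.Net

/-!
# The uncrossing lemmas
-/

namespace Pool.Agent.H654R4.MO

open Finset

set_option linter.unusedSectionVars false

namespace Net

variable {V ι : Type*} [Fintype V] [DecidableEq V] [Fintype ι] [DecidableEq ι] {N : Net V ι}

/-- Closed under the downward use of free elements. -/
def nice (N : Net V ι) (S : Finset V) : Prop := ∀ i, N.fr i → N.tl i ∈ S → N.hd i ∈ S

theorem nice.inter {S T : Finset V} (h : N.nice S) (h' : N.nice T) : N.nice (S ∩ T) :=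
  fun i fi hi => mem_inter.2 ⟨h i fi (mem_inter.1 hi).1, h' i fi (mem_inter.1 hi).2⟩

theorem nice.union {S T : Finset V} (h : N.nice S) (h' : N.nice T) : N.nice (S ∪ T) :=
  fun i fi hi => mem_union.2 ((mem_union.1 hi).imp (h i fi) (h' i fi))

theorem nice.out_iff {S : Finset V} (h : N.nice S) {i : ι} (fi : N.fr i) :
    N.out S i ↔ N.hd i ∈ S ∧ N.tl i ∉ S := by
  have := h i fi
  unfold out; tauto

theorem X3.other {S : Finset V} (h : N.X3 S) (x : ι) : ∃ x', x' ≠ x ∧ N.fr x' ∧ N.out S x' := by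
  obtain ⟨-, -, -, i, j, hij, fi, fj, oi, oj⟩ := h
  by_cases hi : i = x
  · exact ⟨j, fun hj => hij (hi.trans hj.symm), fj, oj⟩
  · exact ⟨i, hi, fi, oi⟩

theorem Z2.other {S : Finset V} (h : N.Z2 S) (x : ι) : ∃ x', x' ≠ x ∧ N.fr x' ∧ N.out S x' := by
  obtain ⟨-, -, -, i, j, hij, fi, fj, oi, oj⟩ := h
  by_cases hi : i = x
  · exact ⟨j, fun hj => hij (hi.trans hj.symm), fj, oj⟩
  · exact ⟨i, hi, fi, oi⟩

theorem out_union_or {S T : Finset V} {i : ι} (fi : N.fr i) (h : N.out S i) :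
    N.out (T ∪ S) i ∨ N.out (T ∩ S) i ∨ N.out T i := by
  simp only [out, mem_union, mem_inter] at *; tauto

theorem Irr.dead_out (H : N.Irr) {W : Finset V} {x : ι} (h1 : N.t1 ∉ W) (h2 : N.t2 ∉ W)
    (fx : N.fr x) (oW : N.out W x) (hp : N.p W ≤ 1) : False := by
  have one : ∀ x', x' ≠ x → ¬ N.out W x' := fun x' hne h => by
    have := N.p_ge2 h oW hne; omega
  rcases oW with ⟨ht, hh⟩ | ⟨-, hh, ht⟩
  · obtain ⟨S, hS, sh, st⟩ := H.IX x fx
    have hc := N.unc1 (S := W) (T := S) (i := x) ⟨fx, Or.inr ⟨ht, st, sh, hh⟩⟩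
    have hpS := hS.2.2.1
    obtain ⟨x', hne, fx', ox'⟩ := hS.other x
    have m1 : N.s2 ∈ W ∪ S := mem_union_right _ hS.1
    have m2 : N.t2 ∉ W ∪ S := by simp [h2, hS.2.1]
    rcases out_union_or (T := W) fx' ox' with h | h | h
    · have := H.C1f _ m1 m2 _ fx' h; omega
    · have := N.p_ge1 h
      have := H.C1 _ m1 m2; omega
    · exact one _ hne h
  · obtain ⟨S, hS, st, sh⟩ := H.IZ x fx
    have hc := N.unc1 (S := W) (T := S) (i := x) ⟨fx, Or.inl ⟨hh, sh, st, ht⟩⟩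
    have hpS := hS.2.2.1
    obtain ⟨x', hne, fx', ox'⟩ := hS.other x
    have m1 : N.s1 ∈ W ∪ S := mem_union_right _ hS.1
    have m2 : N.t1 ∉ W ∪ S := by simp [h1, hS.2.1]
    rcases out_union_or (T := W) fx' ox' with h | h | h
    · have := H.C2f _ m1 m2 _ fx' h; omega
    · have := N.p_ge1 h
      have := H.C2 _ m1 m2; omega
    · exact one _ hne h

theorem Irr.dead_in (H : N.Irr) {U : Finset V} {x : ι} (h1 : N.s1 ∈ U) (h2 : N.s2 ∈ U)
    (fx : N.fr x) (oU : N.out U x) (hp : N.p U ≤ 1) : False := by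
  refine H.rev.dead_out (W := Uᶜ) (x := x) (by simpa using h1) (by simpa using h2) fx ?_ ?_
  · rw [rev_out]; simpa using oU
  · rw [rev_p]; simpa using hp

/-- The basic lemma on a tight set of each of the two kinds. -/
theorem Irr.core (H : N.Irr) {S Z : Finset V} {x y : ι} (hS : N.X3 S) (hZ : N.Z2 Z)
    (fx : N.fr x) (fy : N.fr y) (hxy : x ≠ y) (x1 : N.hd x ∈ S) (x2 : N.tl x ∉ S)
    (x3 : N.tl x ∈ Z) (x4 : N.hd x ∉ Z) (y3 : N.tl y ∈ Z) (y4 : N.hd y ∉ Z)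
    (hp : 2 ≤ N.p (S ∩ Z)) : N.tl y ∈ S := by
  by_contra hy
  have e1 := hS.2.2.1
  have e2 := hZ.2.2.1
  have cx : N.crs S Z x := ⟨fx, Or.inl ⟨x1, x4, x3, x2⟩⟩
  by_cases ha : N.hd y ∈ S
  · have cy : N.crs S Z y := ⟨fy, Or.inl ⟨ha, y4, y3, hy⟩⟩
    have := N.unc2 cx cy hxy
    omega
  · have := N.unc1 cx
    refine H.dead_in (U := S ∪ Z) (x := y) (mem_union_right _ hZ.1) (mem_union_left _ hS.1) fy ?_
      (by omega)
    exact Or.inl ⟨mem_union_right _ y3, by simp [ha, y4]⟩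

/-- If the partner of `y` is outside, we get a contradiction. -/
theorem Irr.core' (H : N.Irr) {S Z : Finset V} {x y : ι} (hS : N.X3 S) (hZ : N.Z2 Z)
    (fx : N.fr x) (fy : N.fr y) (y1 : N.hd y ∈ S) (y2 : N.tl y ∉ S)
    (x3 : N.tl x ∈ Z) (x4 : N.hd x ∉ Z) (x1 : N.hd x ∉ S) (y3 : N.tl y ∈ Z) (y4 : N.hd y ∉ Z)
    (hp : 2 ≤ N.p (S ∩ Z)) : False := by
  have e1 := hS.2.2.1
  have e2 := hZ.2.2.1
  have cy : N.crs S Z y := ⟨fy, Or.inl ⟨y1, y4, y3, y2⟩⟩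
  have := N.unc1 cy
  refine H.dead_in (U := S ∪ Z) (x := x) (mem_union_right _ hZ.1) (mem_union_left _ hS.1) fx ?_
    (by omega)
  exact Or.inl ⟨mem_union_right _ x3, by simp [x1, x4]⟩

/-- The situation of an element `x` between the two elements `h`, `e` of a bad pair. -/
structure Sit (N : Net V ι) (h x e y : ι) (X Z : Finset V) : Prop where
  fh : N.fr h
  fx : N.fr x
  fe : N.fr e
  fy : N.fr y
  hX : N.X3 X
  h1 : N.hd h ∈ X
  h2 : N.tl h ∉ X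
  e1 : N.hd e ∈ X
  e2 : N.tl e ∉ X
  hmin : ∀ X', N.X3 X' → N.out X' h → N.out X' e → X' ⊆ X → X' = X
  ns1 : ∀ X', N.X3 X' → N.out X' h → N.out X' x → False
  ns2 : ∀ X', N.X3 X' → N.out X' x → N.out X' e → False
  LPx : ∀ T, N.nice T → N.hd h ∈ T → N.tl x ∉ T →
    ∃ g, ¬ N.fr g ∧ N.tl g ∈ T ∧ N.hd g ∉ T ∧ N.tl g ∈ Z
  LPe : ∀ T, N.nice T → N.hd h ∈ T → N.tl e ∉ T → ∃ g, ¬ N.fr g ∧ N.tl g ∈ T ∧ N.hd g ∉ T
  hZ : N.Z2 Z
  x3 : N.tl x ∈ Z
  x4 : N.hd x ∉ Z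
  y3 : N.tl y ∈ Z
  y4 : N.hd y ∉ Z
  hxy : x ≠ y
  h3 : N.hd h ∈ Z
  e3 : N.tl e ∉ Z
  e4 : N.hd e ∉ Z
  x1 : N.hd x ∉ X
  x2 : N.tl x ∉ X

namespace Sit

variable {h x e y : ι} {X Z : Finset V}

theorem hx (K : N.Sit h x e y X Z) : h ≠ x := by rintro rfl; exact K.x4 K.h3
theorem xe (K : N.Sit h x e y X Z) : x ≠ e := by rintro rfl; exact K.e3 K.x3
theorem he (K : N.Sit h x e y X Z) : h ≠ e := by rintro rfl; exact K.e4 K.h3
theorem hy (K : N.Sit h x e y X Z) : h ≠ y := by rintro rfl; exact K.y4 K.h3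
theorem ye (K : N.Sit h x e y X Z) : y ≠ e := by rintro rfl; exact K.e3 K.y3

theorem lemC (K : N.Sit h x e y X Z) (H : N.Irr) {S : Finset V} (hS : N.X3 S)
    (xS : N.hd x ∈ S) (xS' : N.tl x ∉ S) : X ⊆ S := by
  have nX : N.nice X := H.NX X K.hX
  have nS : N.nice S := H.NX S hS
  have hsum := N.unc0 X S
  rw [K.hX.2.2.1, hS.2.2.1] at hsum
  have oSx : N.out S x := Or.inr ⟨K.fx, xS, xS'⟩
  have oUx : N.out (X ∪ S) x := Or.inr ⟨K.fx, mem_union_right _ xS, by simp [K.x2, xS']⟩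
  have mU1 : N.s2 ∈ X ∪ S := mem_union_left _ K.hX.1
  have mU2 : N.t2 ∉ X ∪ S := by simp [K.hX.2.1, hS.2.1]
  have mI1 : N.s2 ∈ X ∩ S := mem_inter.2 ⟨K.hX.1, hS.1⟩
  have mI2 : N.t2 ∉ X ∩ S := by simp [K.hX.2.1]
  have pU3 := H.C1f _ mU1 mU2 x K.fx oUx
  have pI2 := H.C1 _ mI1 mI2
  obtain ⟨x', hne, fx', ox'⟩ := hS.other x
  have x'h : x' ≠ h := by rintro rfl; exact K.ns1 S hS ox' oSx
  have x'e : x' ≠ e := by rintro rfl; exact K.ns2 S hS oSx ox'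
  obtain ⟨x'1, x'2⟩ := (nS.out_iff fx').1 ox'
  by_cases hI : N.p (X ∩ S) = 2
  · exfalso
    have noI : ∀ i, N.fr i → ¬ N.out (X ∩ S) i := fun i fi oi => by
      have := H.C1f _ mI1 mI2 i fi oi; omega
    have key : ∀ i, N.fr i → N.hd i ∈ X → N.tl i ∉ X → N.out (X ∪ S) i := by
      intro i fi a b
      have c : N.hd i ∉ S := fun c => noI i fi (Or.inr ⟨fi, mem_inter.2 ⟨a, c⟩, by simp [b]⟩)
      have d : N.tl i ∉ S := fun d => c (nS i fi d)
      exact Or.inr ⟨fi, mem_union_left _ a, by simp [b, d]⟩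
    have oh := key h K.fh K.h1 K.h2
    have oe := key e K.fe K.e1 K.e2
    have ox : N.out (X ∪ S) x' := by
      have c : N.hd x' ∉ X := fun c => noI x' fx' (Or.inr ⟨fx', mem_inter.2 ⟨c, x'1⟩, by simp [x'2]⟩)
      have d : N.tl x' ∉ X := fun d => c (nX x' fx' d)
      exact Or.inr ⟨fx', mem_union_right _ x'1, by simp [x'2, d]⟩
    obtain ⟨g, fg, g1, g2, -⟩ := K.LPx _ (nX.union nS) (mem_union_left _ K.h1)
      (by simp [K.x2, xS'])
    have ng : ∀ i, N.fr i → i ≠ g := fun i fi hi => fg (hi ▸ fi)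
    have := N.p_ge5 oh oe oUx ox (Or.inl ⟨g1, g2⟩) K.he K.hx x'h.symm (ng _ K.fh) K.xe.symm
      x'e.symm (ng _ K.fe) hne.symm (ng _ K.fx) (ng _ fx')
    omega
  · have pU : N.p (X ∪ S) = 3 := by omega
    have pI : N.p (X ∩ S) = 3 := by omega
    have key : ∀ i, N.fr i → i ≠ x → (∀ X', N.X3 X' → N.out X' i → N.out X' x → False) →
        N.hd i ∈ X → N.tl i ∉ X → N.out (X ∩ S) i := by
      intro i fi hix ns a b
      have c : ¬ N.out (X ∪ S) i := fun c =>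
        ns _ ⟨mU1, mU2, pU, i, x, hix, fi, K.fx, c, oUx⟩ c oUx
      have d : N.tl i ∈ S := by
        by_contra d
        exact c (Or.inr ⟨fi, mem_union_left _ a, by simp [b, d]⟩)
      exact Or.inr ⟨fi, mem_inter.2 ⟨a, nS i fi d⟩, by simp [b]⟩
    have oh := key h K.fh K.hx K.ns1 K.h1 K.h2
    have oe := key e K.fe K.xe.symm (fun X' a b c => K.ns2 X' a c b) K.e1 K.e2
    have := K.hmin (X ∩ S) ⟨mI1, mI2, pI, h, e, K.he, K.fh, K.fe, oh, oe⟩ oh oe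
      inter_subset_left
    exact inter_eq_left.1 this

theorem claim1 (K : N.Sit h x e y X Z) (H : N.Irr) {S : Finset V} (hS : N.t2 ∉ S)
    (hXS : X ⊆ S) : 2 ≤ N.p (S ∩ Z) := by
  by_contra hc
  have nX : N.nice X := H.NX X K.hX
  obtain ⟨g, fg, g1, g2, g3⟩ := K.LPx X nX K.h1 K.x2
  have hu := N.unc0 X (S ∩ Z)
  have o1 : N.out (X ∩ (S ∩ Z)) h :=
    Or.inr ⟨K.fh, by simp [K.h1, K.h3, hXS K.h1], by simp [K.h2]⟩
  have o2 : N.out (X ∩ (S ∩ Z)) g := Or.inl ⟨by simp [g1, g3, hXS g1], by simp [g2]⟩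
  have := N.p_ge2 o1 o2 (by rintro rfl; exact fg K.fh)
  have o3 : N.out (X ∪ (S ∩ Z)) e := Or.inr ⟨K.fe, mem_union_left _ K.e1, by
    simp [K.e2, K.e3]⟩
  have := H.C1f _ (mem_union_left _ K.hX.1) (by simp [K.hX.2.1, hS]) e K.fe o3
  have := K.hX.2.2.1
  omega

theorem lemC' (K : N.Sit h x e y X Z) (H : N.Irr) {S : Finset V} (hS : N.X3 S)
    (xS : N.hd x ∈ S) (xS' : N.tl x ∉ S) : N.tl y ∈ S :=
  H.core hS K.hZ K.fx K.fy K.hxy xS xS' K.x3 K.x4 K.y3 K.y4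
    (K.claim1 H hS.2.1 (K.lemC H hS xS xS'))

theorem lemD (K : N.Sit h x e y X Z) (H : N.Irr) : N.tl y ∈ X := by
  by_contra yX
  have nX : N.nice X := H.NX X K.hX
  have pX := K.hX.2.2.1
  have ng : ∀ i g, ¬ N.fr g → N.fr i → i ≠ g := fun i g fg fi hi => fg (hi ▸ fi)
  have yX' : N.hd y ∉ X := by
    intro hc
    obtain ⟨g, fg, g1, g2, g3⟩ := K.LPx X nX K.h1 K.x2
    have := N.p_ge4 (S := X) (i := h) (j := e) (k := y) (l := g) (Or.inr ⟨K.fh, K.h1, K.h2⟩)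
      (Or.inr ⟨K.fe, K.e1, K.e2⟩) (Or.inr ⟨K.fy, hc, yX⟩) (Or.inl ⟨g1, g2⟩)
      K.he K.hy (ng _ _ fg K.fh) K.ye.symm (ng _ _ fg K.fe) (ng _ _ fg K.fy)
    omega
  obtain ⟨S, hS, yS, yS'⟩ := H.IX y K.fy
  have nS : N.nice S := H.NX S hS
  have hsum := N.unc0 X S
  rw [K.hX.2.2.1, hS.2.2.1] at hsum
  have oUy : N.out (X ∪ S) y := Or.inr ⟨K.fy, mem_union_right _ yS, by simp [yX, yS']⟩
  have mU1 : N.s2 ∈ X ∪ S := mem_union_left _ K.hX.1
  have mU2 : N.t2 ∉ X ∪ S := by simp [K.hX.2.1, hS.2.1]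
  have mI1 : N.s2 ∈ X ∩ S := mem_inter.2 ⟨K.hX.1, hS.1⟩
  have mI2 : N.t2 ∉ X ∩ S := by simp [K.hX.2.1]
  have pU3 := H.C1f _ mU1 mU2 y K.fy oUy
  have pI2 := H.C1 _ mI1 mI2
  obtain ⟨y', hne, fy', oy'⟩ := hS.other y
  obtain ⟨y'1, y'2⟩ := (nS.out_iff fy').1 oy'
  have nU := nX.union nS
  by_cases hI : N.p (X ∩ S) = 2
  · have noI : ∀ i, N.fr i → ¬ N.out (X ∩ S) i := fun i fi oi => by
      have := H.C1f _ mI1 mI2 i fi oi; omega
    have key0 : ∀ i, N.fr i → N.hd i ∈ X → N.tl i ∉ X → N.hd i ∉ S := fun i fi a b c =>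
      noI i fi (Or.inr ⟨fi, mem_inter.2 ⟨a, c⟩, by simp [b]⟩)
    have key : ∀ i, N.fr i → N.hd i ∈ X → N.tl i ∉ X → N.out (X ∪ S) i := by
      intro i fi a b
      have c := key0 i fi a b
      have d : N.tl i ∉ S := fun d => c (nS i fi d)
      exact Or.inr ⟨fi, mem_union_left _ a, by simp [b, d]⟩
    have oh := key h K.fh K.h1 K.h2
    have oe := key e K.fe K.e1 K.e2
    have y'h : h ≠ y' := by rintro rfl; exact key0 h K.fh K.h1 K.h2 y'1
    have y'e : e ≠ y' := by rintro rfl; exact key0 e K.fe K.e1 K.e2 y'1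
    have oy : N.out (X ∪ S) y' := by
      have c : N.hd y' ∉ X := fun c => noI y' fy' (Or.inr ⟨fy', mem_inter.2 ⟨c, y'1⟩, by simp [y'2]⟩)
      have d : N.tl y' ∉ X := fun d => c (nX y' fy' d)
      exact Or.inr ⟨fy', mem_union_right _ y'1, by simp [y'2, d]⟩
    obtain ⟨g, fg, g1, g2⟩ := K.LPe _ nU (mem_union_left _ K.h1) ((nU.out_iff K.fe).1 oe).2
    have := N.p_ge5 oh oe oUy oy (Or.inl ⟨g1, g2⟩) K.he K.hy y'h (ng _ _ fg K.fh) K.ye.symm
      y'e (ng _ _ fg K.fe) hne.symm (ng _ _ fg K.fy) (ng _ _ fg fy')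
    omega
  have pU : N.p (X ∪ S) = 3 := by omega
  have pI : N.p (X ∩ S) = 3 := by omega
  have tyU : N.tl y ∉ X ∪ S := by simp [yX, yS']
  have hyU : N.hd y ∈ X ∪ S := mem_union_right _ yS
  -- the set of tight sets of `x`
  obtain ⟨R, hR, xR, xR'⟩ := H.IX x K.fx
  have nR : N.nice R := H.NX R hR
  have tyR := K.lemC' H hR xR xR'
  have hyR := nR y K.fy tyR
  have XR := K.lemC H hR xR xR'
  have oRx : N.out R x := Or.inr ⟨K.fx, xR, xR'⟩
  obtain ⟨x', hnex, fx', ox'⟩ := hR.other x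
  obtain ⟨x'1, x'2⟩ := (nR.out_iff fx').1 ox'
  by_cases hUh : N.out (X ∪ S) h
  · by_cases hUe : N.out (X ∪ S) e
    · obtain ⟨g, fg, g1, g2⟩ := K.LPe _ nU (mem_union_left _ K.h1) ((nU.out_iff K.fe).1 hUe).2
      have := N.p_ge4 hUh hUe oUy (Or.inl ⟨g1, g2⟩) K.he K.hy (ng _ _ fg K.fh) K.ye.symm
        (ng _ _ fg K.fe) (ng _ _ fg K.fy)
      omega
    · have X3U : N.X3 (X ∪ S) := ⟨mU1, mU2, pU, h, y, K.hy, K.fh, K.fy, hUh, oUy⟩
      have nUx : ¬ N.out (X ∪ S) x := fun hc => K.ns1 _ X3U hUh hc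
      have hhU := (nU.out_iff K.fh).1 hUh
      by_cases hxU : N.hd x ∈ X ∪ S
      · have txU : N.tl x ∈ X ∪ S := by
          by_contra hc; exact nUx (Or.inr ⟨K.fx, hxU, hc⟩)
        have hs := N.unc0 R (X ∪ S)
        rw [hR.2.2.1, pU] at hs
        have nI' := nR.inter nU
        have o1 : N.out (R ∩ (X ∪ S)) x := Or.inr ⟨K.fx, mem_inter.2 ⟨xR, hxU⟩, fun hc =>
          xR' (mem_inter.1 hc).1⟩
        have o2 : N.out (R ∩ (X ∪ S)) y := Or.inr ⟨K.fy, mem_inter.2 ⟨hyR, hyU⟩, fun hc =>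
          tyU (mem_inter.1 hc).2⟩
        have o3 : N.out (R ∩ (X ∪ S)) h := Or.inr ⟨K.fh, mem_inter.2 ⟨XR K.h1, hhU.1⟩, fun hc =>
          hhU.2 (mem_inter.1 hc).2⟩
        obtain ⟨g, fg, g1, g2, -⟩ := K.LPx _ nI' (mem_inter.2 ⟨XR K.h1, hhU.1⟩)
          (fun hc => xR' (mem_inter.1 hc).1)
        have h4 := N.p_ge4 o1 o2 o3 (Or.inl ⟨g1, g2⟩) K.hxy K.hx.symm (ng _ _ fg K.fx)
          K.hy.symm (ng _ _ fg K.fy) (ng _ _ fg K.fh)
        have mU'1 : N.s2 ∈ R ∪ (X ∪ S) := mem_union_left _ hR.1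
        have mU'2 : N.t2 ∉ R ∪ (X ∪ S) := by
          rw [mem_union]; exact fun hc => hc.elim hR.2.1 mU2
        have h2 := H.C1 _ mU'1 mU'2
        have hnU' : ¬ N.out (R ∪ (X ∪ S)) x' := fun hc => by
          have := H.C1f _ mU'1 mU'2 x' fx' hc; omega
        have tx' : N.tl x' ∈ X ∪ S := by
          by_contra hc
          exact hnU' (Or.inr ⟨fx', mem_union_left _ x'1, fun hd =>
            (mem_union.1 hd).elim x'2 hc⟩)
        have o4 : N.out (R ∩ (X ∪ S)) x' := Or.inr ⟨fx', mem_inter.2 ⟨x'1, nU x' fx' tx'⟩,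
          fun hc => x'2 (mem_inter.1 hc).1⟩
        have n1 : x' ≠ h := by rintro rfl; exact K.ns1 R hR ox' oRx
        have n2 : x' ≠ y := by rintro rfl; exact x'2 tyR
        have := N.p_ge5 o1 o2 o3 o4 (Or.inl ⟨g1, g2⟩) K.hxy K.hx.symm hnex.symm (ng _ _ fg K.fx)
          K.hy.symm n2.symm (ng _ _ fg K.fy) n1.symm (ng _ _ fg K.fh) (ng _ _ fg fx')
        omega
      · have txU : N.tl x ∉ X ∪ S := fun hc => hxU (nU x K.fx hc)
        obtain ⟨g, fg, g1, g2, g3⟩ := K.LPx _ nU (mem_union_left _ K.h1) txU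
        refine H.core' X3U K.hZ K.fx K.fy hyU tyU K.x3 K.x4 hxU K.y3 K.y4 ?_
        exact N.p_ge2 (i := h) (j := g) (Or.inr ⟨K.fh, mem_inter.2 ⟨hhU.1, K.h3⟩, fun hc =>
          hhU.2 (mem_inter.1 hc).1⟩) (Or.inl ⟨mem_inter.2 ⟨g1, g3⟩, fun hc =>
          g2 (mem_inter.1 hc).1⟩) (ng _ _ fg K.fh)
  · by_cases hUe : N.out (X ∪ S) e
    · have X3U : N.X3 (X ∪ S) := ⟨mU1, mU2, pU, y, e, K.ye, K.fy, K.fe, oUy, hUe⟩
      have nUx : ¬ N.out (X ∪ S) x := fun hc => K.ns2 _ X3U hc hUe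
      have heU := (nU.out_iff K.fe).1 hUe
      by_cases hxU : N.hd x ∈ X ∪ S
      · have txU : N.tl x ∈ X ∪ S := by
          by_contra hc; exact nUx (Or.inr ⟨K.fx, hxU, hc⟩)
        have hs := N.unc1 (S := X ∪ S) (T := Z) (i := y) ⟨K.fy, Or.inl ⟨hyU, K.y4, K.y3, tyU⟩⟩
        rw [K.hZ.2.2.1, pU] at hs
        by_cases hw : N.p ((X ∪ S) ∩ Z) ≤ 1
        · refine H.dead_out (W := (X ∪ S) ∩ Z) (x := x) (fun hc => K.hZ.2.1 (mem_inter.1 hc).2)
            (fun hc => mU2 (mem_inter.1 hc).1) K.fx ?_ hw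
          exact Or.inl ⟨mem_inter.2 ⟨txU, K.x3⟩, fun hc => K.x4 (mem_inter.1 hc).2⟩
        · refine H.dead_in (U := (X ∪ S) ∪ Z) (x := e) (mem_union_right _ K.hZ.1)
            (mem_union_left _ mU1) K.fe ?_ (by omega)
          exact Or.inr ⟨K.fe, mem_union_left _ heU.1, fun hc =>
            (mem_union.1 hc).elim heU.2 K.e3⟩
      · exact H.core' X3U K.hZ K.fx K.fy hyU tyU K.x3 K.x4 hxU K.y3 K.y4
          (K.claim1 H mU2 subset_union_left)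
    · have key : ∀ i, N.fr i → ¬ N.out (X ∪ S) i → N.hd i ∈ X → N.tl i ∉ X →
          N.out (X ∩ S) i := by
        intro i fi c a b
        have d : N.tl i ∈ S := by
          by_contra d
          exact c (Or.inr ⟨fi, mem_union_left _ a, by simp [b, d]⟩)
        exact Or.inr ⟨fi, mem_inter.2 ⟨a, nS i fi d⟩, by simp [b]⟩
      have oh := key h K.fh hUh K.h1 K.h2
      have oe := key e K.fe hUe K.e1 K.e2
      have hIX := K.hmin (X ∩ S) ⟨mI1, mI2, pI, h, e, K.he, K.fh, K.fe, oh, oe⟩ oh oe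
        inter_subset_left
      have XS : X ⊆ S := inter_eq_left.1 hIX
      have nSx : ¬ (N.hd x ∈ S ∧ N.tl x ∉ S) := fun hc => yS' (K.lemC' H hS hc.1 hc.2)
      by_cases hxS : N.hd x ∈ S
      · have txS : N.tl x ∈ S := by by_contra hc; exact nSx ⟨hxS, hc⟩
        have hs := N.unc0 R S
        rw [hR.2.2.1, hS.2.2.1] at hs
        have nI' := nR.inter nS
        have o1 : N.out (R ∩ S) x := Or.inr ⟨K.fx, mem_inter.2 ⟨xR, hxS⟩, fun hc =>
          xR' (mem_inter.1 hc).1⟩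
        have o2 : N.out (R ∩ S) y := Or.inr ⟨K.fy, mem_inter.2 ⟨hyR, yS⟩, fun hc =>
          yS' (mem_inter.1 hc).2⟩
        have mU'1 : N.s2 ∈ R ∪ S := mem_union_left _ hR.1
        have mU'2 : N.t2 ∉ R ∪ S := by
          rw [mem_union]; exact fun hc => hc.elim hR.2.1 hS.2.1
        have mI'1 : N.s2 ∈ R ∩ S := mem_inter.2 ⟨hR.1, hS.1⟩
        have mI'2 : N.t2 ∉ R ∩ S := fun hc => hR.2.1 (mem_inter.1 hc).1
        have h2 := H.C1 _ mU'1 mU'2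
        have h3 := H.C1f _ mI'1 mI'2 x K.fx o1
        by_cases hp : N.p (R ∩ S) = 3
        · have := K.lemC' H (S := R ∩ S) ⟨mI'1, mI'2, hp, x, y, K.hxy, K.fx, K.fy, o1, o2⟩
            (mem_inter.2 ⟨xR, hxS⟩) (fun hc => xR' (mem_inter.1 hc).1)
          exact yS' (mem_inter.1 this).2
        · have noU' : ∀ i, N.fr i → ¬ N.out (R ∪ S) i := fun i fi hc => by
            have := H.C1f _ mU'1 mU'2 i fi hc; omega
          have tx' : N.tl x' ∈ S := by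
            by_contra hc
            exact noU' x' fx' (Or.inr ⟨fx', mem_union_left _ x'1, fun hd =>
              (mem_union.1 hd).elim x'2 hc⟩)
          have ty' : N.tl y' ∈ R := by
            by_contra hc
            exact noU' y' fy' (Or.inr ⟨fy', mem_union_right _ y'1, fun hd =>
              (mem_union.1 hd).elim hc y'2⟩)
          have o3 : N.out (R ∩ S) x' := Or.inr ⟨fx', mem_inter.2 ⟨x'1, nS x' fx' tx'⟩,
            fun hc => x'2 (mem_inter.1 hc).1⟩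
          have o4 : N.out (R ∩ S) y' := Or.inr ⟨fy', mem_inter.2 ⟨nR y' fy' ty', y'1⟩,
            fun hc => y'2 (mem_inter.1 hc).2⟩
          have n1 : x' ≠ y' := by rintro rfl; exact x'2 ty'
          have n2 : x' ≠ y := by rintro rfl; exact x'2 tyR
          have n3 : y' ≠ x := by rintro rfl; exact y'2 txS
          obtain ⟨g, fg, g1, g2, -⟩ := K.LPx _ nI' (mem_inter.2 ⟨XR K.h1, XS K.h1⟩)
            (fun hc => xR' (mem_inter.1 hc).1)
          have := N.p_ge5 o1 o2 o3 o4 (Or.inl ⟨g1, g2⟩) K.hxy hnex.symm n3.symm (ng _ _ fg K.fx)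
            n2.symm hne.symm (ng _ _ fg K.fy) n1 (ng _ _ fg fx') (ng _ _ fg fy')
          omega
      · exact H.core' hS K.hZ K.fx K.fy yS yS' K.x3 K.x4 hxS K.y3 K.y4
          (K.claim1 H hS.2.1 XS)

end Sit

end Net

end Pool.Agent.H654R4.MO
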