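import Pool.Agent.NPC.Classes

/-!
# Mixed graphs, their orientations, and directed paths

The objects of the problem MP_5d9c5f_lc.
-/

namespace Pool.Agent.H654R4.MO

/-- `IsWalk D u v w`: following the arcs of `D` with the indices listed in `w` leads from `u`
to `v`. -/
def IsWalk (D : List (ℕ × ℕ)) : ℕ → ℕ → List ℕ → Prop
  | u, v, [] => u = v
  | u, v, i :: w => ∃ x, D[i]? = some (u, x) ∧ IsWalk D x v w

/-- The vertices visited after the first one, along a list of (indices of) arcs. -/
def heads (D : List (ℕ × ℕ)) (w : List ℕ) : List ℕ := w.map (fun i => (D.getD i (0, 0)).2)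

/-- `IsPath D u v w`: the list `w` of indices of arcs of `D` is a directed path from `u` to `v`
(no vertex is visited twice). -/
def IsPath (D : List (ℕ × ℕ)) (u v : ℕ) (w : List ℕ) : Prop :=
  IsWalk D u v w ∧ (u :: heads D w).Nodup

/-- An instance `((A, E), (s1, t1), (s2, t2))`: a mixed graph, given by the list `A` of its arcs
and the list `E` of its undirected edges (repetitions are allowed; the vertices are named by
natural numbers), and the four terminals. -/
abbrev Inst : Type := (List (ℕ × ℕ) × List (ℕ × ℕ)) × (ℕ × ℕ) × (ℕ × ℕ)

/-- The list of the arcs of an orientation: the `i`-th undirected edge `(u, v)` becomes the arc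
`(u, v)` if the `i`-th entry of `o` is `false`, and the arc `(v, u)` if it is `true`; the arcs of
`A` are kept. -/
def oriented (A E : List (ℕ × ℕ)) (o : List Bool) : List (ℕ × ℕ) :=
  List.zipWith (fun e b => if b = true then (e.2, e.1) else (e.1, e.2)) E o ++ A

/-- The orientation `o` of the mixed graph contains a directed path from `s1` to `t1`, and two
directed paths from `s2` to `t2` which have no arc in common. -/
def Good (I : Inst) (o : List Bool) : Prop :=
  o.length = I.1.2.length ∧
    (∃ w, IsPath (oriented I.1.1 I.1.2 o) I.2.1.1 I.2.1.2 w) ∧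
    ∃ w w', IsPath (oriented I.1.1 I.1.2 o) I.2.2.1 I.2.2.2 w ∧
      IsPath (oriented I.1.1 I.1.2 o) I.2.2.1 I.2.2.2 w' ∧ w.Disjoint w'

end Pool.Agent.H654R4.MO
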