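import Pool.Agent.H654R4.MO.Loc

/-!
# Existence of a good track
-/

namespace Pool.Agent.H654R4.MO

open Finset

set_option linter.unusedSectionVars false

namespace Net

variable {V ι : Type*} [Fintype V] [DecidableEq V] [Fintype ι] [DecidableEq ι] {N : Net V ι}
  {l : V → ℕ} {m : ℕ} {f : ℕ → ι}

/-- a bad pair of a track -/
def Bd (N : Net V ι) (l : V → ℕ) (m : ℕ) (f : ℕ → ι) (h e : ι) : Prop :=
  On m f h ∧ On m f e ∧ l (N.tl e) ≤ l (N.hd h) ∧ N.XP h e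

theorem Track.pick (F : N.Track l m f) (L : N.Lev l m) (H : N.Irr) {n : ℕ}
    (hex : ∃ h e, N.Bd l m f h e ∧ l (N.tl e) = n)
    (hmx : ∀ h e, N.Bd l m f h e → l (N.tl e) ≤ n) :
    ∃ h e X j, N.Bd l m f h e ∧ l (N.tl e) = n ∧ N.Loc l m f h e X j := by
  classical
  obtain ⟨h0, e, hb0, hn⟩ := hex
  let A : Finset ι := univ.filter (fun h => N.Bd l m f h e)
  have hA : A.Nonempty := ⟨h0, by simp [A, hb0]⟩
  obtain ⟨h, hhA, hmin⟩ := exists_min_image A (fun h => l (N.hd h)) hA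
  have hb : N.Bd l m f h e := by simpa [A] using hhA
  obtain ⟨X, j, hL⟩ := F.exists_loc L H hb.1 hb.2.1 hb.2.2.1 hb.2.2.2
    (fun x hx a b hc => by
      have := hmx h x ⟨hb.1, hx, a, hc⟩
      have := L.lt H (F.on_fr hx)
      omega)
    (fun x hx a b hc => by
      have := hmin x (by simp only [A, mem_filter, mem_univ, true_and]; exact ⟨hx, hb.2.1, b, hc⟩)
      have := L.lt H (F.on_fr hx)
      omega)
  exact ⟨h, e, X, j, hb, hn, hL⟩

/-- The final uncrossing. -/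
theorem Irr.finish (H : N.Irr) {a h e c : ι} {X Y : Finset V} (hX : N.X3 X) (hY : N.X3 Y)
    (fa : N.fr a) (fh : N.fr h) (fe : N.fr e) (fc : N.fr c)
    (a0 : N.hd a ∈ X ∪ Y) (a1 : N.tl a ∉ X) (a2 : N.tl a ∉ Y)
    (h0 : N.hd h ∈ X ∩ Y) (h1 : N.tl h ∉ X ∩ Y)
    (e0 : N.hd e ∈ X ∩ Y) (e1 : N.tl e ∉ X ∩ Y)
    (c0 : N.hd c ∈ X ∩ Y) (c1 : N.tl c ∉ X ∩ Y)
    (he : h ≠ e) (hc : h ≠ c) (ec : e ≠ c)
    (LP : ∀ T, N.nice T → N.hd h ∈ T → N.tl e ∉ T → ∃ g, ¬ N.fr g ∧ N.tl g ∈ T ∧ N.hd g ∉ T) :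
    False := by
  have nX : N.nice X := H.NX X hX
  have nY : N.nice Y := H.NX Y hY
  have hu := N.unc0 X Y
  have p1 := hX.2.2.1
  have p2 := hY.2.2.1
  have b1 : N.s2 ∈ X ∪ Y := mem_union_left _ hX.1
  have b2 : N.t2 ∉ X ∪ Y := fun hc => (mem_union.1 hc).elim hX.2.1 hY.2.1
  have p3 := H.C1f _ b1 b2 a fa (Or.inr ⟨fa, a0, fun hc => (mem_union.1 hc).elim a1 a2⟩)
  obtain ⟨g, fg, g1, g2⟩ := LP (X ∩ Y) (nX.inter nY) h0 e1
  have := N.p_ge4 (S := X ∩ Y) (Or.inr ⟨fh, h0, h1⟩) (Or.inr ⟨fe, e0, e1⟩) (Or.inr ⟨fc, c0, c1⟩)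
    (Or.inl ⟨g1, g2⟩) he hc (fun h => fg (h ▸ fh)) ec (fun h => fg (h ▸ fe))
    (fun h => fg (h ▸ fc))
  omega

/-- In an irreducible net there is a track without bad pairs. -/
theorem Lev.exists_good (L : N.Lev l m) (H : N.Irr) :
    ∃ f, N.Track l m f ∧ ∀ h e, On m f h → On m f e → l (N.tl e) ≤ l (N.hd h) → ¬ N.XP h e := by
  classical
  by_contra hno
  have hbad : ∀ f, N.Track l m f → ∃ h e, N.Bd l m f h e := by
    intro f F
    by_contra hc
    push Not at hc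
    exact hno ⟨f, F, fun h e a b c d => hc h e ⟨a, b, c, d⟩⟩
  have hmax : ∀ f, N.Track l m f → ∃ n, (∃ h e, N.Bd l m f h e ∧ l (N.tl e) = n) ∧
      ∀ h e, N.Bd l m f h e → l (N.tl e) ≤ n := by
    intro f F
    let A : Finset (ι × ι) := univ.filter (fun x => N.Bd l m f x.1 x.2)
    obtain ⟨h0, e0, hb0⟩ := hbad f F
    have hA : A.Nonempty := ⟨(h0, e0), by simp [A, hb0]⟩
    obtain ⟨x, hxA, hx⟩ := exists_max_image A (fun x => l (N.tl x.2)) hA
    refine ⟨l (N.tl x.2), ⟨x.1, x.2, by simpa [A] using hxA, rfl⟩, fun h e hb => ?_⟩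
    exact hx (h, e) (by simp [A, hb])
  let P : ℕ → Prop := fun n => ∃ f, N.Track l m f ∧ (∃ h e, N.Bd l m f h e ∧ l (N.tl e) = n) ∧
      ∀ h e, N.Bd l m f h e → l (N.tl e) ≤ n
  have hP : ∃ n, P n := by
    obtain ⟨f, F⟩ := L.exists_track H
    obtain ⟨n, hn⟩ := hmax f F
    exact ⟨n, f, F, hn⟩
  set n := Nat.find hP with hn
  obtain ⟨f, F, hex, hmx⟩ := Nat.find_spec hP
  rw [← hn] at hex hmx
  obtain ⟨h, e, X, j, hb, hne, hL⟩ := F.pick L H hex hmx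
  obtain ⟨f', F', hf'⟩ := F.compl L H
  have fh := F.on_fr hb.1
  have fe := F.on_fr hb.2.1
  have lh := L.lt H fh
  have lle := L.lt H fe
  obtain ⟨te1, te2, te3⟩ := F.on_top L hb.2.1
  obtain ⟨bh1, bh2⟩ := F.on_bot L hb.1
  have hj1 := hL.j1
  have hj2 := hL.j2
  have jm : j < m := by omega
  -- the switched track
  set q : ℕ → ι := fun i => if j < i then f i else f' i with hq
  have qhi : ∀ i, j < i → q i = f i := fun i hi => by simp [hq, hi]
  have qlo : ∀ i, i ≤ j → q i = f' i := fun i hi => by simp [hq, Nat.not_lt.2 hi]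
  have Q : N.Track l m q := by
    refine ⟨fun i h1 h2 => ?_, fun i h1 h2 h3 => ?_, fun i h1 h2 h3 => ?_⟩
    · rcases Nat.lt_or_ge j i with hi | hi
      · rw [qhi i hi]; exact F.cr i h1 h2
      · rw [qlo i hi]; exact F'.cr i h1 h2
    · rcases Nat.lt_trichotomy j i with hi | hi | hi
      · rw [qhi i hi, qhi (i + 1) (by omega)] at *; exact F.dn i h1 h2 h3
      · subst hi
        rw [qhi (j + 1) (by omega)] at h3
        exact absurd ⟨h3, F.cr (j + 1) (by omega) (by omega)⟩ (hL.full _)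
      · rw [qlo i hi.le, qlo (i + 1) (by omega)] at *; exact F'.dn i h1 h2 h3
    · rcases Nat.lt_trichotomy j i with hi | hi | hi
      · rw [qhi i hi, qhi (i + 1) (by omega)] at *; exact F.up i h1 h2 h3
      · subst hi
        rw [qlo j le_rfl] at h3
        exact absurd ⟨F'.cr j (by omega) (by omega), h3⟩ (hL.full _)
      · rw [qlo i hi.le, qlo (i + 1) (by omega)] at *; exact F'.up i h1 h2 h3
  obtain ⟨n1, hex1, hmx1⟩ := hmax q Q
  have hn1 : n ≤ n1 := Nat.find_min' hP ⟨q, Q, hex1, hmx1⟩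
  obtain ⟨h1, e1, Y, j', hb1, hne1, hL1⟩ := Q.pick L H hex1 hmx1
  have fh1 := Q.on_fr hb1.1
  have fe1 := Q.on_fr hb1.2.1
  have lh1 := L.lt H fh1
  have lle1 := L.lt H fe1
  obtain ⟨te11, te12, te13⟩ := Q.on_top L hb1.2.1
  obtain ⟨bh11, bh12⟩ := Q.on_bot L hb1.1
  have hj11 := hL1.j1
  have hj12 := hL1.j2
  -- the new bad pair ends below the level `j`
  have hn1j : n1 ≤ j := by
    by_contra hc
    have e11 : On m f e1 := ⟨l (N.tl e1), te11, te12, by rw [← te13, te13, ← qhi _ (by omega), te13]⟩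
    have h11 : On m f h1 := ⟨l (N.hd h1) + 1, by omega, bh11, by
      rw [← qhi _ (by omega), bh12]⟩
    have := hmx h1 e1 ⟨h11, e11, hb1.2.2.1, hb1.2.2.2⟩
    omega
  have hjj : j' = j := by
    rcases Nat.lt_trichotomy j' j with hlt | heq | hgt
    · obtain ⟨x, hx⟩ := hL.nofull j' (by omega) hlt
      exact absurd hx (hL1.full x)
    · exact heq
    · obtain ⟨x, hx⟩ := hL1.nofull j (by omega) hgt
      exact absurd hx (hL.full x)
  subst hjj
  have hX := hL.hX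
  have hY := hL1.hX
  have nX : N.nice X := H.NX X hX
  have nY : N.nice Y := H.NX Y hY
  have Xh := (nX.out_iff fh).1 hL.oh
  have Xe := (nX.out_iff fe).1 hL.oe
  have Yh := (nY.out_iff fh1).1 hL1.oh
  have Ye := (nY.out_iff fe1).1 hL1.oe
  have qne : ∀ i, 1 ≤ i → i ≤ j' → q i ≠ f i := fun i a b => by
    rw [qlo i b]; exact hf' i a (by omega)
  have ce1 : N.cr l e1 (l (N.tl e1)) := ⟨fe1, lle1, le_rfl⟩
  have ce : N.cr l e (l (N.tl e)) := ⟨fe, lle, le_rfl⟩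
  -- `e1` is inside `X`
  have Xe1 : N.tl e1 ∈ X := hL.part (l (N.tl e1)) e1 (by omega) (by omega) ce1 (by
    have := qne (l (N.tl e1)) te11 (by omega)
    rwa [te13] at this)
  have Xe1' := nX e1 fe1 Xe1
  -- `e` is inside `Y`
  have Ye' : N.tl e ∈ Y := by
    rcases Nat.lt_or_ge (l (N.tl e)) (l (N.tl e1)) with hlt | hge
    · by_contra hc
      have cx := F.cr (l (N.tl e1)) te11 te12
      have hxY := hL1.part (l (N.tl e1)) (f (l (N.tl e1))) le_rfl (by omega) cx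
        (qne _ te11 (by omega)).symm
      have ho := F.order L H (i := l (N.tl e1)) (j := l (N.tl e)) te1 hlt te12 (by
        rw [te3]; intro hc'; rw [hc'] at cx; have := cx.2.2; omega)
      rw [te3] at ho
      obtain ⟨g, g1, g2, g3, g4, g5, g6⟩ := F.LPo L H nY (x := f (l (N.tl e1))) (y := e)
        ⟨_, te11, te12, rfl⟩ hb.2.1 ho (nY _ cx.1 hxY) hc
      have := hL1.uniq g g1 g2 g3
      have := cx.2.1
      omega
    · have heq : l (N.tl e) = l (N.tl e1) := by omega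
      refine hL1.part (l (N.tl e)) e (by omega) (by omega) ce ?_
      have := qne (l (N.tl e)) te1 (by omega)
      rw [te3] at this
      exact this.symm
  have Ye'' := nY e fe Ye'
  have hee1 : e ≠ e1 := by
    rintro rfl
    exact qne (l (N.tl e)) te1 (by omega) (te13.trans te3.symm)
  have h1f : On m f h1 := ⟨l (N.hd h1) + 1, by omega, bh11, by rw [← qhi _ (by omega), bh12]⟩
  have hqh : On m q h := ⟨l (N.hd h) + 1, by omega, bh1, by rw [qhi _ (by omega), bh2]⟩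
  have he1 : h ≠ e1 := by rintro rfl; omega
  have hhe : h ≠ e := by rintro rfl; omega
  have h1e : h1 ≠ e := by rintro rfl; omega
  have h1e1 : h1 ≠ e1 := by rintro rfl; omega
  have LPhe : ∀ T, N.nice T → N.hd h ∈ T → N.tl e ∉ T →
      ∃ g, ¬ N.fr g ∧ N.tl g ∈ T ∧ N.hd g ∉ T := fun T nT a b => by
    obtain ⟨g, g1, g2, g3, -⟩ := F.LPo L H nT hb.1 hb.2.1 hb.2.2.1 a b
    exact ⟨g, g1, g2, g3⟩
  have LPhe1 : ∀ T, N.nice T → N.hd h1 ∈ T → N.tl e1 ∉ T →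
      ∃ g, ¬ N.fr g ∧ N.tl g ∈ T ∧ N.hd g ∉ T := fun T nT a b => by
    obtain ⟨g, g1, g2, g3, -⟩ := Q.LPo L H nT hb1.1 hb1.2.1 hb1.2.2.1 a b
    exact ⟨g, g1, g2, g3⟩
  rcases Nat.lt_trichotomy (l (N.hd h)) (l (N.hd h1)) with hlt | heq | hgt
  · -- `h1` above `h`
    have ho : l (N.tl h) ≤ l (N.hd h1) := by
      have := F.order L H (i := l (N.hd h1) + 1) (j := l (N.hd h) + 1) (by omega) (by omega) bh11
        (by rw [bh2, ← qhi _ (by omega), bh12]; rintro rfl; omega)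
      rwa [bh2, ← qhi _ (by omega), bh12] at this
    have Yh' : N.tl h ∈ Y := by
      by_contra hc
      obtain ⟨g, g1, g2, g3, g4, g5, g6⟩ := Q.LPo L H nY hb1.1 hqh ho Yh.1 hc
      have := hL1.uniq g g1 g2 g3
      omega
    have Xh1 : N.tl h1 ∉ X := by
      intro hc
      obtain ⟨g, g1, g2, g3, g4, g5, g6⟩ := F.LPo L H nX h1f hb.1 ho (nX _ fh1 hc) Xh.2
      have := hL.uniq g g1 g2 g3
      omega
    exact H.finish hX hY fh1 fh fe fe1 (mem_union_right _ Yh.1) Xh1 Yh.2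
      (mem_inter.2 ⟨Xh.1, nY _ fh Yh'⟩) (fun hc => Xh.2 (mem_inter.1 hc).1)
      (mem_inter.2 ⟨Xe.1, Ye''⟩) (fun hc => Xe.2 (mem_inter.1 hc).1)
      (mem_inter.2 ⟨Xe1', Ye.1⟩) (fun hc => Ye.2 (mem_inter.1 hc).2)
      hhe he1 hee1 LPhe
  · have hhh : h = h1 := by
      rw [← bh2, heq, ← qhi _ (by omega), bh12]
    subst hhh
    exact H.finish hX hY fh fh fe fe1 (mem_union_right _ Yh.1) Xh.2 Yh.2
      (mem_inter.2 ⟨Xh.1, Yh.1⟩) (fun hc => Xh.2 (mem_inter.1 hc).1)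
      (mem_inter.2 ⟨Xe.1, Ye''⟩) (fun hc => Xe.2 (mem_inter.1 hc).1)
      (mem_inter.2 ⟨Xe1', Ye.1⟩) (fun hc => Ye.2 (mem_inter.1 hc).2)
      hhe he1 hee1 LPhe
  · -- `h` above `h1`
    have ho : l (N.tl h1) ≤ l (N.hd h) := by
      have := F.order L H (i := l (N.hd h) + 1) (j := l (N.hd h1) + 1) (by omega) (by omega) bh1
        (by rw [bh2, ← qhi _ (by omega), bh12]; rintro rfl; omega)
      rwa [bh2, ← qhi _ (by omega), bh12] at this
    have Xh1 : N.tl h1 ∈ X := by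
      by_contra hc
      obtain ⟨g, g1, g2, g3, g4, g5, g6⟩ := F.LPo L H nX hb.1 h1f ho Xh.1 hc
      have := hL.uniq g g1 g2 g3
      omega
    have Yh' : N.tl h ∉ Y := by
      intro hc
      obtain ⟨g, g1, g2, g3, g4, g5, g6⟩ := Q.LPo L H nY hqh hb1.1 ho (nY _ fh hc) Yh.2
      have := hL1.uniq g g1 g2 g3
      omega
    exact H.finish hX hY fh fh1 fe1 fe (mem_union_left _ Xh.1) Xh.2 Yh'
      (mem_inter.2 ⟨nX _ fh1 Xh1, Yh.1⟩) (fun hc => Yh.2 (mem_inter.1 hc).2)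
      (mem_inter.2 ⟨Xe1', Ye.1⟩) (fun hc => Ye.2 (mem_inter.1 hc).2)
      (mem_inter.2 ⟨Xe.1, Ye''⟩) (fun hc => Xe.2 (mem_inter.1 hc).1)
      h1e1 h1e hee1.symm LPhe1

end Net

end Pool.Agent.H654R4.MO
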