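import Pool.Agent.H654R4.MO.Cut

/-!
# Levels
-/

namespace Pool.Agent.H654R4.MO

open Finset

set_option linter.unusedSectionVars false

namespace Net

variable {V ι : Type*} [Fintype V] [DecidableEq V] [Fintype ι] [DecidableEq ι] {N : Net V ι}

/-- vertices of level at least `i` -/
def up (l : V → ℕ) (i : ℕ) : Finset V := univ.filter (fun v => i ≤ l v)

@[simp] theorem mem_up {l : V → ℕ} {i : ℕ} {v : V} : v ∈ up l i ↔ i ≤ l v := by simp [up]

theorem Z2.free {Z : Finset V} (h : N.Z2 Z) {g : ι} (hg : N.out Z g) : N.fr g := by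
  by_contra fg
  obtain ⟨-, -, hp, i, j, hij, fi, fj, oi, oj⟩ := h
  have := N.p_ge3 oi oj hg hij (fun h => fg (h ▸ fi)) (fun h => fg (h ▸ fj))
  omega

theorem exists_out {S : Finset V} (h : 1 ≤ N.p S) : ∃ i, N.out S i := by
  classical
  obtain ⟨i, hi⟩ := card_pos.1 (show 0 < (univ.filter (N.out S)).card from h)
  exact ⟨i, by simpa using hi⟩

theorem exists_out2 {S : Finset V} (h : 2 ≤ N.p S) : ∃ i j, i ≠ j ∧ N.out S i ∧ N.out S j := by
  classical
  obtain ⟨i, hi, j, hj, hij⟩ := one_lt_card.1 (show 1 < (univ.filter (N.out S)).card from h)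
  exact ⟨i, j, hij, by simpa using hi, by simpa using hj⟩

theorem exists_out3 {S : Finset V} (h : 3 ≤ N.p S) :
    ∃ i j k, i ≠ j ∧ i ≠ k ∧ j ≠ k ∧ N.out S i ∧ N.out S j ∧ N.out S k := by
  classical
  obtain ⟨i, j, k, hi, hj, hk, h1, h2, h3⟩ :=
    two_lt_card_iff.1 (show 2 < (univ.filter (N.out S)).card from h)
  exact ⟨i, j, k, h1, h2, h3, by simpa using hi, by simpa using hj, by simpa using hk⟩

/-- A set all of whose boundary is free and small is tight. -/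
theorem Irr.mkZ2 (H : N.Irr) {Z : Finset V} (h1 : N.s1 ∈ Z) (h2 : N.t1 ∉ Z)
    (hf : ∀ g, N.out Z g → N.fr g) (hp : N.p Z ≤ 2) : N.Z2 Z := by
  obtain ⟨i, hi⟩ := exists_out (H.C2 Z h1 h2)
  have h3 := H.C2f Z h1 h2 i (hf i hi) hi
  obtain ⟨i, j, hij, oi, oj⟩ := exists_out2 h3
  exact ⟨h1, h2, by omega, i, j, hij, hf i oi, hf j oj, oi, oj⟩

theorem out_inter {S T : Finset V} {g : ι} (h : N.out (S ∩ T) g) : N.out S g ∨ N.out T g := by
  simp only [out, mem_inter] at *; tauto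

theorem out_union {S T : Finset V} {g : ι} (h : N.out (S ∪ T) g) : N.out S g ∨ N.out T g := by
  simp only [out, mem_union] at *; tauto

theorem Irr.ring (H : N.Irr) {S T : Finset V} (hS : N.Z2 S) (hT : N.Z2 T) :
    N.Z2 (S ∩ T) ∧ N.Z2 (S ∪ T) := by
  have hu := N.unc0 S T
  have e1 := hS.2.2.1
  have e2 := hT.2.2.1
  have f1 : ∀ g, N.out (S ∩ T) g → N.fr g := fun g hg => (out_inter hg).elim hS.free hT.free
  have f2 : ∀ g, N.out (S ∪ T) g → N.fr g := fun g hg => (out_union hg).elim hS.free hT.free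
  have a1 : N.s1 ∈ S ∩ T := mem_inter.2 ⟨hS.1, hT.1⟩
  have a2 : N.t1 ∉ S ∩ T := fun h => hS.2.1 (mem_inter.1 h).1
  have b1 : N.s1 ∈ S ∪ T := mem_union_left _ hS.1
  have b2 : N.t1 ∉ S ∪ T := fun h => (mem_union.1 h).elim hS.2.1 hT.2.1
  obtain ⟨i, hi⟩ := exists_out (H.C2 _ a1 a2)
  have h3 := H.C2f _ a1 a2 i (f1 i hi) hi
  obtain ⟨j, hj⟩ := exists_out (H.C2 _ b1 b2)
  have h4 := H.C2f _ b1 b2 j (f2 j hj) hj
  exact ⟨H.mkZ2 a1 a2 f1 (by omega), H.mkZ2 b1 b2 f2 (by omega)⟩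

/-- A level function: all proper superlevel sets are tight, tight sets are unions of levels. -/
structure Lev (N : Net V ι) (l : V → ℕ) (m : ℕ) : Prop where
  pos : 1 ≤ m
  le : ∀ v, l v ≤ m
  z2 : ∀ i, 1 ≤ i → i ≤ m → N.Z2 (up l i)
  atom : ∀ Z, N.Z2 Z → ∀ v w, l v = l w → v ∈ Z → w ∈ Z

/-- A strict chain of tight sets. -/
def Ch (N : Net V ι) (l : V → ℕ) (m : ℕ) : Prop :=
  (∀ v, l v ≤ m) ∧ (∀ i, 1 ≤ i → i ≤ m → N.Z2 (up l i)) ∧ ∀ i, i ≤ m → ∃ v, l v = i

theorem Ch.bound {l : V → ℕ} {m : ℕ} (h : N.Ch l m) : m ≤ Fintype.card V := by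
  choose g hg using h.2.2
  have : (range (m + 1)).card ≤ (univ : Finset V).card := by
    refine card_le_card_of_injOn (fun i => if hi : i ≤ m then g i hi else g 0 (Nat.zero_le m))
      (fun _ _ => mem_univ _) ?_
    intro a ha b hb hab
    have ha' : a ≤ m := by simpa [Nat.lt_succ_iff] using ha
    have hb' : b ≤ m := by simpa [Nat.lt_succ_iff] using hb
    simp only [ha', hb', dif_pos] at hab
    rw [← hg a ha', ← hg b hb', hab]
  rw [card_range, card_univ] at this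
  omega

theorem Irr.refine (H : N.Irr) {l : V → ℕ} {m : ℕ} (h : N.Ch l m) {Z : Finset V} (hZ : N.Z2 Z)
    {v w : V} (hvw : l v = l w) (hv : v ∈ Z) (hw : w ∉ Z) : ∃ l', N.Ch l' (m + 1) := by
  obtain ⟨h1, h2, h3⟩ := h
  set i := l v with hi
  have him : i ≤ m := h1 v
  -- the new set
  have key : ∃ Z', N.Z2 Z' ∧ ∀ u, u ∈ Z' ↔ (i < l u ∨ (l u = i ∧ u ∈ Z)) := by
    have s1 : ∃ Z1, N.Z2 Z1 ∧ ∀ u, u ∈ Z1 ↔ (i ≤ l u ∧ u ∈ Z) := by
      by_cases h0 : i = 0
      · exact ⟨Z, hZ, fun u => by simp [h0]⟩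
      · exact ⟨up l i ∩ Z, (H.ring (h2 i (by omega) him) hZ).1, fun u => by simp⟩
    obtain ⟨Z1, hZ1, hm⟩ := s1
    by_cases hlt : i < m
    · refine ⟨Z1 ∪ up l (i + 1), (H.ring hZ1 (h2 (i + 1) (by omega) (by omega))).2, fun u => ?_⟩
      rw [mem_union, hm, mem_up]
      constructor
      · rintro (⟨a, b⟩ | a)
        · rcases Nat.lt_or_ge i (l u) with c | c
          · exact Or.inl c
          · exact Or.inr ⟨by omega, b⟩
        · exact Or.inl a
      · rintro (a | ⟨a, b⟩)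
        · exact Or.inr a
        · exact Or.inl ⟨by omega, b⟩
    · refine ⟨Z1, hZ1, fun u => ?_⟩
      rw [hm]
      have := h1 u
      constructor
      · rintro ⟨a, b⟩; exact Or.inr ⟨by omega, b⟩
      · rintro (a | ⟨a, b⟩)
        · omega
        · exact ⟨by omega, b⟩
  obtain ⟨Z', hZ', hm⟩ := key
  have vZ' : v ∈ Z' := (hm v).2 (Or.inr ⟨rfl, hv⟩)
  have wZ' : w ∉ Z' := fun hc => by
    rcases (hm w).1 hc with a | a
    · omega
    · exact hw a.2
  set l' : V → ℕ := fun u => l u + if u ∈ Z' then 1 else 0 with hl'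
  have low : ∀ u, l u < i → l' u = l u := fun u hu => by
    have : u ∉ Z' := fun hc => by rcases (hm u).1 hc with a | a <;> omega
    simp [hl', this]
  have high : ∀ u, i < l u → l' u = l u + 1 := fun u hu => by
    have : u ∈ Z' := (hm u).2 (Or.inl hu)
    simp [hl', this]
  have mid : ∀ u, l u = i → u ∈ Z' → l' u = i + 1 := fun u hu hc => by simp [hl', hu, hc]
  have mid' : ∀ u, l u = i → u ∉ Z' → l' u = i := fun u hu hc => by simp [hl', hu, hc]
  refine ⟨l', ?_, ?_, ?_⟩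
  · intro u
    have := h1 u
    by_cases hc : u ∈ Z' <;> simp [hl', hc] <;> omega
  · intro k hk1 hk2
    rcases Nat.lt_trichotomy k (i + 1) with hk | hk | hk
    · have : up l' k = up l k := by
        ext u
        rw [mem_up, mem_up]
        rcases Nat.lt_trichotomy (l u) i with hu | hu | hu
        · rw [low u hu]
        · by_cases hc : u ∈ Z'
          · rw [mid u hu hc]; omega
          · rw [mid' u hu hc]; omega
        · rw [high u hu]; omega
      rw [this]; exact h2 k hk1 (by omega)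
    · have : up l' k = Z' := by
        ext u
        rw [mem_up, hk]
        rcases Nat.lt_trichotomy (l u) i with hu | hu | hu
        · rw [low u hu, hm]; constructor
          · intro; omega
          · rintro (a | a) <;> omega
        · by_cases hc : u ∈ Z'
          · rw [mid u hu hc]; simp [hc]
          · rw [mid' u hu hc]; simp [hc]
        · rw [high u hu, hm]; constructor
          · intro; exact Or.inl hu
          · intro; omega
      rw [this]; exact hZ'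
    · have : up l' k = up l (k - 1) := by
        ext u
        rw [mem_up, mem_up]
        rcases Nat.lt_trichotomy (l u) i with hu | hu | hu
        · rw [low u hu]; omega
        · by_cases hc : u ∈ Z'
          · rw [mid u hu hc]; omega
          · rw [mid' u hu hc]; omega
        · rw [high u hu]; omega
      rw [this]; exact h2 (k - 1) (by omega) (by omega)
  · intro k hk
    rcases Nat.lt_trichotomy k i with hki | hki | hki
    · obtain ⟨u, hu⟩ := h3 k (by omega)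
      exact ⟨u, by rw [low u (by omega), hu]⟩
    · exact ⟨w, by rw [mid' w hvw.symm wZ', hki]⟩
    · by_cases hk' : k = i + 1
      · exact ⟨v, by rw [mid v rfl vZ', hk']⟩
      · obtain ⟨u, hu⟩ := h3 (k - 1) (by omega)
        exact ⟨u, by rw [high u (by omega)]; omega⟩

/-- Existence of a level function. -/
theorem Irr.exists_lev (H : N.Irr) {x : ι} (fx : N.fr x) : ∃ l m, N.Lev l m := by
  classical
  have h0 : ∃ l, N.Ch l 0 := ⟨fun _ => 0, fun _ => le_rfl, fun i h1 h2 => by omega,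
    fun i hi => ⟨N.s1, (Nat.le_zero.1 hi).symm⟩⟩
  let P : ℕ → Prop := fun m => ∃ l, N.Ch l m
  let m := Nat.findGreatest P (Fintype.card V)
  have hPm : P m := Nat.findGreatest_spec (P := P) (Nat.zero_le _) h0
  obtain ⟨l, hl⟩ := hPm
  have atom : ∀ Z, N.Z2 Z → ∀ v w, l v = l w → v ∈ Z → w ∈ Z := by
    intro Z hZ v w hvw hv
    by_contra hw
    obtain ⟨l', hl'⟩ := H.refine hl hZ hvw hv hw
    have := Nat.le_findGreatest (P := P) hl'.bound ⟨l', hl'⟩
    omega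
  refine ⟨l, m, ?_, hl.1, hl.2.1, atom⟩
  by_contra hm
  obtain ⟨Z, hZ, -⟩ := H.IZ x fx
  have e : ∀ v, l v = 0 := fun v => by have := hl.1 v; omega
  exact hZ.2.1 (atom Z hZ N.s1 N.t1 (by rw [e, e]) hZ.1)

/-- `x` crosses the cut below level `i` -/
def cr (N : Net V ι) (l : V → ℕ) (x : ι) (i : ℕ) : Prop :=
  N.fr x ∧ l (N.hd x) < i ∧ i ≤ l (N.tl x)

namespace Lev

variable {l : V → ℕ} {m : ℕ}

theorem s1 (L : N.Lev l m) : l N.s1 = m := by
  have := (L.z2 m L.pos le_rfl).1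
  rw [mem_up] at this
  exact le_antisymm (L.le _) this

theorem t1 (L : N.Lev l m) : l N.t1 = 0 := by
  have := (L.z2 1 le_rfl L.pos).2.1
  rw [mem_up] at this
  omega

theorem arc (L : N.Lev l m) {g : ι} (fg : ¬ N.fr g) : l (N.tl g) ≤ l (N.hd g) := by
  by_contra hc
  push Not at hc
  exact fg ((L.z2 (l (N.tl g)) (by omega) (L.le _)).free
    (Or.inl ⟨by simp, by simpa using hc⟩))

theorem lt (L : N.Lev l m) (H : N.Irr) {x : ι} (fx : N.fr x) : l (N.hd x) < l (N.tl x) := by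
  by_contra hc
  push Not at hc
  obtain ⟨Z, hZ, h1, h2⟩ := H.IZ x fx
  rcases Nat.lt_or_ge (l (N.tl x)) (l (N.hd x)) with h | h
  · have := H.NZ _ (L.z2 (l (N.hd x)) (by omega) (L.le _)) x fx (by simp)
    rw [mem_up] at this
    omega
  · exact h2 (L.atom Z hZ _ _ (by omega) h1)

theorem out_cr (_L : N.Lev l m) {x : ι} {i : ℕ} (h : N.cr l x i) : N.out (up l i) x :=
  Or.inl ⟨by simpa using h.2.2, by simpa using h.2.1⟩

theorem cr_pos {x : ι} {i : ℕ} (h : N.cr l x i) : 1 ≤ i := by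
  have := h.2.1; omega

theorem cr_le (L : N.Lev l m) {x : ι} {i : ℕ} (h : N.cr l x i) : i ≤ m :=
  h.2.2.trans (L.le _)

theorem cr_of_out (L : N.Lev l m) (H : N.Irr) {x : ι} {i : ℕ} (h1 : 1 ≤ i) (hi : i ≤ m)
    (h : N.out (up l i) x) : N.cr l x i := by
  have fx := (L.z2 i h1 hi).free h
  rcases h with ⟨a, b⟩ | ⟨-, a, b⟩
  · exact ⟨fx, by simpa using b, by simpa using a⟩
  · have := L.lt H fx
    rw [mem_up] at a b
    omega

theorem third (L : N.Lev l m) {x y z : ι} {i : ℕ} (hx : N.cr l x i) (hy : N.cr l y i)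
    (hz : N.cr l z i) (hxy : x ≠ y) : z = x ∨ z = y := by
  by_contra hc
  push Not at hc
  have := N.p_ge3 (L.out_cr hx) (L.out_cr hy) (L.out_cr hz) hxy hc.1.symm hc.2.symm
  have := (L.z2 i (cr_pos hx) (L.cr_le hx)).2.2.1
  omega

theorem exists_cr (L : N.Lev l m) (H : N.Irr) {i : ℕ} (h1 : 1 ≤ i) (hi : i ≤ m) (x : ι) :
    ∃ y, y ≠ x ∧ N.cr l y i := by
  obtain ⟨y, hne, fy, oy⟩ := (L.z2 i h1 hi).other x
  exact ⟨y, hne, L.cr_of_out H h1 hi oy⟩

/-- The connection lemma inside one level. -/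
theorem T (L : N.Lev l m) (H : N.Irr) {i : ℕ} {S : Finset V}
    (ha : (i = m ∧ N.s1 ∈ S) ∨ ∃ u, N.fr u ∧ l (N.hd u) = i ∧ N.hd u ∈ S)
    (hb : (i = 0 ∧ N.t1 ∉ S) ∨ ∃ w, N.fr w ∧ l (N.tl w) = i ∧ N.tl w ∉ S) :
    ∃ g, ¬ N.fr g ∧ N.tl g ∈ S ∧ N.hd g ∉ S ∧ l (N.tl g) = i ∧ l (N.hd g) = i := by
  by_contra hno
  push Not at hno
  let Z : Finset V := univ.filter (fun v => i < l v ∨ (l v = i ∧ v ∈ S))
  have mZ : ∀ v, v ∈ Z ↔ (i < l v ∨ (l v = i ∧ v ∈ S)) := fun v => by simp [Z]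
  have s1Z : N.s1 ∈ Z := by
    rw [mZ, L.s1]
    rcases ha with ⟨a, b⟩ | ⟨u, fu, hu, -⟩
    · exact Or.inr ⟨a.symm, b⟩
    · have := L.lt H fu; have := L.le (N.tl u); exact Or.inl (by omega)
  have t1Z : N.t1 ∉ Z := by
    rw [mZ, L.t1]
    rcases hb with ⟨a, b⟩ | ⟨w, fw, hw, -⟩
    · rintro (c | c)
      · omega
      · exact b c.2
    · have := L.lt H fw
      rintro (c | c) <;> omega
  have fZ : ∀ g, N.out Z g → N.fr g := by
    intro g hg
    by_contra fg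
    rcases hg with ⟨a, b⟩ | ⟨a, -⟩
    · have := L.arc fg
      rw [mZ] at a b
      push Not at b
      have e1 : l (N.tl g) = i := by omega
      have e2 : l (N.hd g) = i := by omega
      refine hno g fg ?_ ?_ e1 e2
      · rcases a with a | a
        · omega
        · exact a.2
      · exact b.2 e2
    · exact fg a
  have oZ : ∀ x, N.out Z x → N.cr l x (i + 1) ∧ N.hd x ∉ Z ∨ N.cr l x i ∧ N.tl x ∈ S := by
    intro x hx
    have fx := fZ x hx
    have hlt := L.lt H fx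
    rcases hx with ⟨a, b⟩ | ⟨-, a, b⟩
    · have b' := b
      rw [mZ] at a b
      push Not at b
      rcases a with a | a
      · exact Or.inl ⟨⟨fx, by omega, by omega⟩, b'⟩
      · exact Or.inr ⟨⟨fx, by omega, by omega⟩, a.2⟩
    · rw [mZ] at a b; push Not at b; omega
  have A2 : ∀ x y, x ≠ y → N.cr l x (i + 1) → N.cr l y (i + 1) → N.hd x ∉ Z → N.hd y ∉ Z →
      False := by
    intro x y hxy cx cy hx hy
    rcases ha with ⟨a, -⟩ | ⟨u, fu, hu, huS⟩
    · have := L.cr_le cx; omega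
    · have cu : N.cr l u (i + 1) := ⟨fu, by omega, by have := L.lt H fu; omega⟩
      have huZ : N.hd u ∈ Z := (mZ _).2 (Or.inr ⟨hu, huS⟩)
      rcases L.third cx cy cu hxy with rfl | rfl
      · exact hx huZ
      · exact hy huZ
  have B2 : ∀ x y, x ≠ y → N.cr l x i → N.cr l y i → N.tl x ∈ S → N.tl y ∈ S → False := by
    intro x y hxy cx cy hx hy
    rcases hb with ⟨a, -⟩ | ⟨w, fw, hw, hwS⟩
    · have := cr_pos cx; omega
    · have cw : N.cr l w i := ⟨fw, by have := L.lt H fw; omega, by omega⟩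
      rcases L.third cx cy cw hxy with rfl | rfl
      · exact hwS hx
      · exact hwS hy
  have hp : N.p Z ≤ 2 := by
    by_contra hc
    obtain ⟨x, y, z, hxy, hxz, hyz, ox, oy, oz⟩ := exists_out3 (N := N) (S := Z) (by omega)
    rcases oZ x ox with ⟨a1, a2⟩ | ⟨a1, a2⟩ <;> rcases oZ y oy with ⟨b1, b2⟩ | ⟨b1, b2⟩ <;>
      rcases oZ z oz with ⟨c1, c2⟩ | ⟨c1, c2⟩
    · exact A2 x y hxy a1 b1 a2 b2
    · exact A2 x y hxy a1 b1 a2 b2
    · exact A2 x z hxz a1 c1 a2 c2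
    · exact B2 y z hyz b1 c1 b2 c2
    · exact A2 y z hyz b1 c1 b2 c2
    · exact B2 x z hxz a1 c1 a2 c2
    · exact B2 x y hxy a1 b1 a2 b2
    · exact B2 x y hxy a1 b1 a2 b2
  have hZ := H.mkZ2 s1Z t1Z fZ hp
  obtain ⟨-, -, -, x, y, hxy, -, -, ox, oy⟩ := id hZ
  have hex : (∃ x, N.cr l x (i + 1)) ∧ ∃ x, N.cr l x i := by
    rcases oZ x ox with ⟨a1, a2⟩ | ⟨a1, a2⟩ <;> rcases oZ y oy with ⟨b1, b2⟩ | ⟨b1, b2⟩
    · exact (A2 x y hxy a1 b1 a2 b2).elim
    · exact ⟨⟨x, a1⟩, ⟨y, b1⟩⟩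
    · exact ⟨⟨y, b1⟩, ⟨x, a1⟩⟩
    · exact (B2 x y hxy a1 b1 a2 b2).elim
  obtain ⟨⟨a, ca⟩, ⟨b, cb⟩⟩ := hex
  have := L.cr_le ca
  have := cr_pos cb
  rcases ha with ⟨a, -⟩ | ⟨u, fu, hu, huS⟩
  · omega
  rcases hb with ⟨a, -⟩ | ⟨w, fw, hw, hwS⟩
  · omega
  have huZ : N.hd u ∈ Z := (mZ _).2 (Or.inr ⟨hu, huS⟩)
  have hwZ := L.atom Z hZ _ _ (hu.trans hw.symm) huZ
  rcases (mZ _).1 hwZ with a | a
  · omega
  · exact hwS a.2

end Lev

end Net

end Pool.Agent.H654R4.MO
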