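import Pool.Agent.H654R4.MO.Track

/-!
# Localisation of bad pairs
-/

namespace Pool.Agent.H654R4.MO

open Finset

set_option linter.unusedSectionVars false

namespace Net

variable {V ι : Type*} [Fintype V] [DecidableEq V] [Fintype ι] [DecidableEq ι] {N : Net V ι}
  {l : V → ℕ} {m : ℕ} {f : ℕ → ι}

theorem rev_nice {T : Finset V} : N.rev.nice T ↔ N.nice Tᶜ := by
  unfold nice
  simp only [rev_fr, rev_tl, rev_hd, mem_compl]
  constructor
  · intro h i fi a b; exact a (h i fi b)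
  · intro h i fi a; by_contra b; exact h i fi b a

/-- The reversed form of `Sit.lemD`. -/
theorem Irr.lemD' (H : N.Irr) {h x e y : ι} {X Z : Finset V}
    (fh : N.fr h) (fx : N.fr x) (fe : N.fr e) (fy : N.fr y) (hX : N.X3 X)
    (h1 : N.hd h ∈ X) (h2 : N.tl h ∉ X) (e1 : N.hd e ∈ X) (e2 : N.tl e ∉ X)
    (hmax : ∀ X', N.X3 X' → N.out X' h → N.out X' e → X ⊆ X' → X' = X)
    (ns1 : ∀ X', N.X3 X' → N.out X' h → N.out X' x → False)
    (ns2 : ∀ X', N.X3 X' → N.out X' x → N.out X' e → False)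
    (LPx : ∀ T, N.nice T → N.hd x ∈ T → N.tl e ∉ T →
      ∃ g, ¬ N.fr g ∧ N.tl g ∈ T ∧ N.hd g ∉ T ∧ N.hd g ∉ Z)
    (LPe : ∀ T, N.nice T → N.hd h ∈ T → N.tl e ∉ T → ∃ g, ¬ N.fr g ∧ N.tl g ∈ T ∧ N.hd g ∉ T)
    (hZ : N.Z2 Z) (x3 : N.tl x ∈ Z) (x4 : N.hd x ∉ Z) (y3 : N.tl y ∈ Z) (y4 : N.hd y ∉ Z)
    (hxy : x ≠ y) (h3 : N.hd h ∈ Z) (h4 : N.tl h ∈ Z) (e3 : N.tl e ∉ Z)
    (x1 : N.hd x ∈ X) (x2 : N.tl x ∈ X) : N.hd y ∉ X := by
  have K : N.rev.Sit e x h y Xᶜ Zᶜ :=
    { fh := fe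
      fx := fx
      fe := fh
      fy := fy
      hX := rev_X3.2 (by simpa using hX)
      h1 := by simpa using e2
      h2 := by simpa using e1
      e1 := by simpa using h2
      e2 := by simpa using h1
      hmin := fun X' a b c d => by
        rw [rev_out] at b c
        have := hmax X'ᶜ (rev_X3.1 a) c b (by
          intro v hv; rw [mem_compl]; intro hv'
          have := d hv'
          rw [mem_compl] at this
          exact this hv)
        rw [← this, compl_compl]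
      ns1 := fun X' a b c => ns2 X'ᶜ (rev_X3.1 a) (rev_out N X' x |>.1 c) (rev_out N X' e |>.1 b)
      ns2 := fun X' a b c => ns1 X'ᶜ (rev_X3.1 a) (rev_out N X' h |>.1 c) (rev_out N X' x |>.1 b)
      LPx := fun T nT a b => by
        simp only [rev_hd, rev_tl] at a b
        obtain ⟨g, g1, g2, g3, g4⟩ := LPx Tᶜ (rev_nice.1 nT) (by simpa using b) (by simpa using a)
        exact ⟨g, g1, by simpa using g3, by simpa using g2, by simpa using g4⟩
      LPe := fun T nT a b => by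
        simp only [rev_hd, rev_tl] at a b
        obtain ⟨g, g1, g2, g3⟩ := LPe Tᶜ (rev_nice.1 nT) (by simpa using b) (by simpa using a)
        exact ⟨g, g1, by simpa using g3, by simpa using g2⟩
      hZ := rev_Z2.2 (by simpa using hZ)
      x3 := by simpa using x4
      x4 := by simpa using x3
      y3 := by simpa using y4
      y4 := by simpa using y3
      hxy := hxy
      h3 := by simpa using e3
      e3 := by simpa using h3
      e4 := by simpa using h4
      x1 := by simpa using x2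
      x2 := by simpa using x1 }
  simpa using K.lemD H.rev

/-- The partner of the upper element of a bad pair is outside. -/
theorem Irr.coreB' (H : N.Irr) {h e k g : ι} {X Z : Finset V}
    (fh : N.fr h) (fe : N.fr e) (fk : N.fr k) (fg : ¬ N.fr g) (hX : N.X3 X)
    (h1 : N.hd h ∈ X) (h2 : N.tl h ∉ X) (e1 : N.hd e ∈ X) (e2 : N.tl e ∉ X) (hZ : N.Z2 Z)
    (h3 : N.tl h ∈ Z) (h4 : N.hd h ∉ Z) (k3 : N.tl k ∈ Z) (k4 : N.hd k ∉ Z) (hk : h ≠ k)
    (e3 : N.tl e ∉ Z) (g1 : N.tl g ∈ X) (g2 : N.hd g ∉ X) (g3 : N.hd g ∉ Z) : N.hd k ∉ X := by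
  have hp : 2 ≤ N.p (X ∪ Z) := N.p_ge2 (i := e) (j := g)
    (Or.inr ⟨fe, mem_union_left _ e1, by simp [e2, e3]⟩)
    (Or.inl ⟨mem_union_left _ g1, by simp [g2, g3]⟩) (by rintro rfl; exact fg fe)
  have := H.rev.core (S := Xᶜ) (Z := Zᶜ) (x := h) (y := k) (rev_X3.2 (by simpa using hX))
    (rev_Z2.2 (by simpa using hZ)) fh fk hk (by simpa using h2) (by simpa using h1)
    (by simpa using h4) (by simpa using h3) (by simpa using k4) (by simpa using k3)
    (by rw [rev_p, compl_inter, compl_compl, compl_compl]; exact hp)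
  simpa using this

/-- The partner of the lower element of a bad pair is inside. -/
theorem Irr.coreB (H : N.Irr) {h e k g : ι} {X Z : Finset V}
    (fh : N.fr h) (fe : N.fr e) (fk : N.fr k) (fg : ¬ N.fr g) (hX : N.X3 X)
    (h1 : N.hd h ∈ X) (h2 : N.tl h ∉ X) (e1 : N.hd e ∈ X) (e2 : N.tl e ∉ X) (hZ : N.Z2 Z)
    (e3 : N.tl e ∈ Z) (e4 : N.hd e ∉ Z) (k3 : N.tl k ∈ Z) (k4 : N.hd k ∉ Z) (hk : e ≠ k)
    (h3 : N.hd h ∈ Z) (g1 : N.tl g ∈ X) (g2 : N.hd g ∉ X) (g3 : N.tl g ∈ Z) : N.tl k ∈ X := by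
  refine H.core hX hZ fe fk hk e1 e2 e3 e4 k3 k4 ?_
  exact N.p_ge2 (i := h) (j := g)
    (Or.inr ⟨fh, mem_inter.2 ⟨h1, h3⟩, fun hc => h2 (mem_inter.1 hc).1⟩)
    (Or.inl ⟨mem_inter.2 ⟨g1, g3⟩, fun hc => g2 (mem_inter.1 hc).1⟩) (by rintro rfl; exact fg fh)

/-- `x` belongs to the track -/
def On (m : ℕ) (f : ℕ → ι) (x : ι) : Prop := ∃ i, 1 ≤ i ∧ i ≤ m ∧ f i = x

theorem Track.on_fr (F : N.Track l m f) {x : ι} (hx : On m f x) : N.fr x := by
  obtain ⟨i, h1, h2, rfl⟩ := hx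
  exact (F.cr i h1 h2).1

theorem Track.on_top (F : N.Track l m f) (L : N.Lev l m) {x : ι} (hx : On m f x) :
    1 ≤ l (N.tl x) ∧ l (N.tl x) ≤ m ∧ f (l (N.tl x)) = x := by
  obtain ⟨i, h1, h2, rfl⟩ := hx
  have c := F.cr i h1 h2
  exact ⟨by have := c.2.2; omega, L.le _, F.eq L h1 h2 ⟨c.1, by have := c.2.1; have := c.2.2; omega, le_rfl⟩⟩

theorem Track.on_bot (F : N.Track l m f) (L : N.Lev l m) {x : ι} (hx : On m f x) :
    l (N.hd x) + 1 ≤ m ∧ f (l (N.hd x) + 1) = x := by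
  obtain ⟨i, h1, h2, rfl⟩ := hx
  have c := F.cr i h1 h2
  have a := c.2.1
  have b := c.2.2
  exact ⟨by omega, F.eq L h1 h2 ⟨c.1, by omega, by omega⟩⟩

theorem Track.LPo (F : N.Track l m f) (L : N.Lev l m) (H : N.Irr) {S : Finset V} (nS : N.nice S)
    {x y : ι} (hx : On m f x) (hy : On m f y) (hle : l (N.tl y) ≤ l (N.hd x))
    (h1 : N.hd x ∈ S) (h2 : N.tl y ∉ S) :
    ∃ g, ¬ N.fr g ∧ N.tl g ∈ S ∧ N.hd g ∉ S ∧ l (N.tl g) = l (N.hd g) ∧
        l (N.tl y) ≤ l (N.tl g) ∧ l (N.tl g) ≤ l (N.hd x) := by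
  obtain ⟨i, i1, im, rfl⟩ := hx
  obtain ⟨j, j1, jm, rfl⟩ := hy
  exact F.LPn L H nS i1 im j1 jm hle h1 h2

/-- an uncrossing pair -/
def XP (N : Net V ι) (h e : ι) : Prop := ∃ X, N.X3 X ∧ N.out X h ∧ N.out X e

theorem Irr.fam_inter (H : N.Irr) {h e : ι} (fh : N.fr h) (fe : N.fr e) (he : h ≠ e)
    {X Y : Finset V} (hX : N.X3 X) (hY : N.X3 Y) (h1 : N.out X h) (h2 : N.out Y h)
    (h3 : N.out X e) (h4 : N.out Y e) :
    N.X3 (X ∩ Y) ∧ N.out (X ∩ Y) h ∧ N.out (X ∩ Y) e := by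
  have nX : N.nice X := H.NX X hX
  have nY : N.nice Y := H.NX Y hY
  rw [nX.out_iff fh] at h1
  rw [nY.out_iff fh] at h2
  rw [nX.out_iff fe] at h3
  rw [nY.out_iff fe] at h4
  have o1 : N.out (X ∩ Y) h := Or.inr ⟨fh, mem_inter.2 ⟨h1.1, h2.1⟩, fun hc =>
    h1.2 (mem_inter.1 hc).1⟩
  have o2 : N.out (X ∩ Y) e := Or.inr ⟨fe, mem_inter.2 ⟨h3.1, h4.1⟩, fun hc =>
    h3.2 (mem_inter.1 hc).1⟩
  have o3 : N.out (X ∪ Y) h := Or.inr ⟨fh, mem_union_left _ h1.1, fun hc =>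
    (mem_union.1 hc).elim h1.2 h2.2⟩
  have a1 : N.s2 ∈ X ∩ Y := mem_inter.2 ⟨hX.1, hY.1⟩
  have a2 : N.t2 ∉ X ∩ Y := fun hc => hX.2.1 (mem_inter.1 hc).1
  have b1 : N.s2 ∈ X ∪ Y := mem_union_left _ hX.1
  have b2 : N.t2 ∉ X ∪ Y := fun hc => (mem_union.1 hc).elim hX.2.1 hY.2.1
  have c1 := H.C1f _ a1 a2 h fh o1
  have c2 := H.C1f _ b1 b2 h fh o3
  have hu := N.unc0 X Y
  have e1 := hX.2.2.1
  have e2 := hY.2.2.1
  exact ⟨⟨a1, a2, by omega, h, e, he, fh, fe, o1, o2⟩, o1, o2⟩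

/-- The location of a bad pair without shortcuts. -/
structure Loc (N : Net V ι) (l : V → ℕ) (m : ℕ) (f : ℕ → ι) (h e : ι) (X : Finset V) (j : ℕ) :
    Prop where
  hX : N.X3 X
  oh : N.out X h
  oe : N.out X e
  uniq : ∀ g, ¬ N.fr g → N.tl g ∈ X → N.hd g ∉ X → l (N.tl g) = j
  j1 : l (N.tl e) ≤ j
  j2 : j ≤ l (N.hd h)
  full : ∀ x, ¬ (N.cr l x j ∧ N.cr l x (j + 1))
  part : ∀ i y, l (N.tl e) ≤ i → i ≤ j → N.cr l y i → y ≠ f i → N.tl y ∈ X
  nofull : ∀ i, l (N.tl e) ≤ i → i < j → ∃ x, N.cr l x i ∧ N.cr l x (i + 1)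

theorem Track.exists_loc (F : N.Track l m f) (L : N.Lev l m) (H : N.Irr) {h e : ι}
    (hh : On m f h) (he : On m f e) (hle : l (N.tl e) ≤ l (N.hd h)) (hxp : N.XP h e)
    (ns1 : ∀ x, On m f x → l (N.tl x) ≤ l (N.hd h) → l (N.tl e) ≤ l (N.hd x) → ¬ N.XP h x)
    (ns2 : ∀ x, On m f x → l (N.tl x) ≤ l (N.hd h) → l (N.tl e) ≤ l (N.hd x) → ¬ N.XP x e) :
    ∃ X j, N.Loc l m f h e X j := by
  classical
  have fh := F.on_fr hh
  have fe := F.on_fr he
  have lh := L.lt H fh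
  have le' := L.lt H fe
  have hne : h ≠ e := by rintro rfl; omega
  -- minimal and maximal tight sets
  let A : Finset (Finset V) := univ.filter (fun X => N.X3 X ∧ N.out X h ∧ N.out X e)
  have memA : ∀ X, X ∈ A ↔ N.X3 X ∧ N.out X h ∧ N.out X e := fun X => by simp [A]
  have hA : A.Nonempty := by
    obtain ⟨X, hX⟩ := hxp
    exact ⟨X, (memA X).2 hX⟩
  obtain ⟨X, hXA, hXmin⟩ := exists_min_image A card hA
  obtain ⟨Y, hYA, hYmax⟩ := exists_max_image A card hA
  obtain ⟨hX, oXh, oXe⟩ := (memA X).1 hXA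
  obtain ⟨hY, oYh, oYe⟩ := (memA Y).1 hYA
  have nX : N.nice X := H.NX X hX
  have nY : N.nice Y := H.NX Y hY
  have hmin : ∀ X', N.X3 X' → N.out X' h → N.out X' e → X' ⊆ X → X' = X := fun X' a b c d =>
    eq_of_subset_of_card_le d (hXmin X' ((memA X').2 ⟨a, b, c⟩))
  have hmax : ∀ X', N.X3 X' → N.out X' h → N.out X' e → Y ⊆ X' → X' = Y := fun X' a b c d =>
    (eq_of_subset_of_card_le d (hYmax X' ((memA X').2 ⟨a, b, c⟩))).symm
  have XY : X ⊆ Y := by
    obtain ⟨a, b, c⟩ := H.fam_inter fh fe hne hX hY oXh oYh oXe oYe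
    exact inter_eq_left.1 (hmin _ a b c inter_subset_left)
  have hXh := (nX.out_iff fh).1 oXh
  have hXe := (nX.out_iff fe).1 oXe
  have hYh := (nY.out_iff fh).1 oYh
  have hYe := (nY.out_iff fe).1 oYe
  -- the leaving arc
  obtain ⟨g, fg, g1, g2, g3, g4, g5⟩ := F.LPo L H nX hh he hle hXh.1 hXe.2
  set j := l (N.tl g) with hj
  have uniq : ∀ g', ¬ N.fr g' → N.tl g' ∈ X → N.hd g' ∉ X → g' = g := by
    intro g' fg' a b
    by_contra hc
    have := N.p_ge4 oXh oXe (Or.inl ⟨g1, g2⟩) (Or.inl ⟨a, b⟩) hne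
      (fun h => fg (h ▸ fh)) (fun h => fg' (h ▸ fh)) (fun h => fg (h ▸ fe))
      (fun h => fg' (h ▸ fe)) (fun h => hc h.symm)
    have := hX.2.2.1
    omega
  -- elements strictly between
  have btw : ∀ x, On m f x → l (N.tl x) ≤ l (N.hd h) → l (N.tl e) ≤ l (N.hd x) →
      (N.tl x ∈ X ∧ j ≤ l (N.hd x) ∧ ∀ i y, N.cr l x i → N.cr l y i → y ≠ x → N.hd y ∉ Y) ∨
      (N.tl x ∉ X ∧ l (N.tl x) ≤ j ∧ ∀ i y, N.cr l x i → N.cr l y i → y ≠ x → N.tl y ∈ X) := by
    intro x hx b1 b2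
    have fx := F.on_fr hx
    have lx := L.lt H fx
    have n1 := ns1 x hx b1 b2
    have n2 := ns2 x hx b1 b2
    have out1 : N.tl x ∉ X → ∀ i y, N.cr l x i → N.cr l y i → y ≠ x → N.tl y ∈ X := by
      intro hxX i y ci cy hyx
      have hi1 := Lev.cr_pos ci
      have him := L.cr_le ci
      have hxX' : N.hd x ∉ X := fun hc => n1 ⟨X, hX, oXh, Or.inr ⟨fx, hc, hxX⟩⟩
      have K : N.Sit h x e y X (Net.up l i) :=
        { fh := fh, fx := fx, fe := fe, fy := cy.1, hX := hX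
          h1 := hXh.1, h2 := hXh.2, e1 := hXe.1, e2 := hXe.2
          hmin := hmin
          ns1 := fun X' a b c => n1 ⟨X', a, b, c⟩
          ns2 := fun X' a b c => n2 ⟨X', a, b, c⟩
          LPx := fun T nT a b => by
            obtain ⟨q, q1, q2, q3, q4, q5, q6⟩ := F.LPo L H nT hh hx b1 a b
            exact ⟨q, q1, q2, q3, by rw [mem_up]; have := ci.2.2; omega⟩
          LPe := fun T nT a b => by
            obtain ⟨q, q1, q2, q3, -⟩ := F.LPo L H nT hh he hle a b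
            exact ⟨q, q1, q2, q3⟩
          hZ := L.z2 i hi1 him
          x3 := by rw [mem_up]; exact ci.2.2
          x4 := by rw [mem_up]; have := ci.2.1; omega
          y3 := by rw [mem_up]; exact cy.2.2
          y4 := by rw [mem_up]; have := cy.2.1; omega
          hxy := hyx.symm
          h3 := by rw [mem_up]; have := ci.2.2; omega
          e3 := by rw [mem_up]; have := ci.2.1; omega
          e4 := by rw [mem_up]; have := ci.2.1; omega
          x1 := hxX'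
          x2 := hxX }
      exact K.lemD H
    have out2 : N.tl x ∈ Y → ∀ i y, N.cr l x i → N.cr l y i → y ≠ x → N.hd y ∉ Y := by
      intro hxY i y ci cy hyx
      have hi1 := Lev.cr_pos ci
      have him := L.cr_le ci
      exact H.lemD' fh fx fe cy.1 hY hYh.1 hYh.2 hYe.1 hYe.2 hmax
        (fun X' a b c => n1 ⟨X', a, b, c⟩) (fun X' a b c => n2 ⟨X', a, b, c⟩)
        (fun T nT a b => by
          obtain ⟨q, q1, q2, q3, q4, q5, q6⟩ := F.LPo L H nT hx he b2 a b
          exact ⟨q, q1, q2, q3, by rw [mem_up]; have := ci.2.1; omega⟩)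
        (fun T nT a b => by
          obtain ⟨q, q1, q2, q3, -⟩ := F.LPo L H nT hh he hle a b
          exact ⟨q, q1, q2, q3⟩)
        (L.z2 i hi1 him) (by rw [mem_up]; exact ci.2.2) (by rw [mem_up]; have := ci.2.1; omega)
        (by rw [mem_up]; exact cy.2.2) (by rw [mem_up]; have := cy.2.1; omega) hyx.symm
        (by rw [mem_up]; have := ci.2.2; omega) (by rw [mem_up]; have := ci.2.2; omega)
        (by rw [mem_up]; have := ci.2.1; omega) (nY x fx hxY) hxY
    by_cases hxX : N.tl x ∈ X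
    · left
      obtain ⟨q, q1, q2, q3, q4, q5, q6⟩ := F.LPo L H nX hx he b2 (nX x fx hxX) hXe.2
      rw [uniq q q1 q2 q3] at q6
      exact ⟨hxX, q6, out2 (XY hxX)⟩
    · right
      obtain ⟨q, q1, q2, q3, q4, q5, q6⟩ := F.LPo L H nX hh hx b1 hXh.1 hxX
      rw [uniq q q1 q2 q3] at q5
      exact ⟨hxX, q5, out1 hxX⟩
  have jm : j < m := by have := L.le (N.tl h); omega
  have j1 : 1 ≤ j := by have := (F.on_top L he).1; omega
  obtain ⟨hb1, hb2⟩ := F.on_bot L hh
  obtain ⟨ht1, ht2, ht3⟩ := F.on_top L he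
  -- elements of the track below `j`
  have low : ∀ i, l (N.tl e) ≤ i → i ≤ j → f i = e ∨
      (l (N.tl (f i)) ≤ l (N.hd h) ∧ l (N.tl e) ≤ l (N.hd (f i))) := by
    intro i hi1 hi2
    have ci := F.cr i (by omega) (by omega)
    by_cases hc : f i = e
    · exact Or.inl hc
    · right
      constructor
      · have := F.order L H (i := l (N.hd h) + 1) (j := i) (by omega) (by omega) hb1 (by
          rw [hb2]; intro hc'; rw [← hc'] at ci; have := ci.2.1; omega)
        rwa [hb2] at this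
      · have hlt : l (N.tl e) < i := by
          rcases Nat.lt_or_ge (l (N.tl e)) i with h | h
          · exact h
          · have : i = l (N.tl e) := by omega
            rw [this] at hc; exact absurd ht3 hc
        have := F.order L H (i := i) (j := l (N.tl e)) ht1 hlt (by omega) (by rwa [ht3])
        rwa [ht3] at this
  have lowout : ∀ i, l (N.tl e) ≤ i → i ≤ j → N.tl (f i) ∉ X ∧ l (N.tl (f i)) ≤ j ∧
      ∀ y, N.cr l y i → y ≠ f i → N.tl y ∈ X := by
    intro i hi1 hi2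
    have ci := F.cr i (by omega) (by omega)
    rcases low i hi1 hi2 with hc | ⟨a, b⟩
    · rw [hc] at ci ⊢
      refine ⟨hXe.2, by omega, fun y cy hy => ?_⟩
      exact H.coreB fh fe cy.1 fg hX hXh.1 hXh.2 hXe.1 hXe.2 (L.z2 i (by omega) (by omega))
        (by rw [mem_up]; exact ci.2.2) (by rw [mem_up]; have := ci.2.1; omega)
        (by rw [mem_up]; exact cy.2.2) (by rw [mem_up]; have := cy.2.1; omega) hy.symm
        (by rw [mem_up]; omega) g1 g2 (by rw [mem_up]; omega)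
    · rcases btw (f i) ⟨i, by omega, by omega, rfl⟩ a b with ⟨c1, c2, c3⟩ | ⟨c1, c2, c3⟩
      · exfalso
        have := ci.2.1
        omega
      · exact ⟨c1, c2, fun y cy hy => c3 i y ci cy hy⟩
  -- the element above `j`
  have hu : ∀ y, N.cr l y (j + 1) → y ≠ f (j + 1) → N.hd y ∉ Y := by
    intro y cy hy
    have cu := F.cr (j + 1) (by omega) (by omega)
    by_cases hjh : j = l (N.hd h)
    · have e1 : f (j + 1) = h := by rw [hjh, hb2]
      rw [e1] at hy cu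
      obtain ⟨g', fg', g1', g2', g3', g4', g5'⟩ := F.LPo L H nY hh he hle hYh.1 hYe.2
      exact H.coreB' fh fe cy.1 fg' hY hYh.1 hYh.2 hYe.1 hYe.2
        (L.z2 (j + 1) (by omega) (by omega))
        (by rw [mem_up]; exact cu.2.2) (by rw [mem_up]; have := cu.2.1; omega)
        (by rw [mem_up]; exact cy.2.2) (by rw [mem_up]; have := cy.2.1; omega) hy.symm
        (by rw [mem_up]; omega) g1' g2' (by rw [mem_up]; omega)
    · have hjh' : j < l (N.hd h) := by omega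
      have a : l (N.tl (f (j + 1))) ≤ l (N.hd h) := by
        have := F.order L H (i := l (N.hd h) + 1) (j := j + 1) (by omega) (by omega) hb1 (by
          rw [hb2]; intro hc'; rw [← hc'] at cu; have := cu.2.1; omega)
        rwa [hb2] at this
      have b : l (N.tl e) ≤ l (N.hd (f (j + 1))) := by
        have := F.order L H (i := j + 1) (j := l (N.tl e)) ht1 (by omega) (by omega) (by
          rw [ht3]; intro hc'; rw [hc'] at cu; have := cu.2.2; omega)
        rwa [ht3] at this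
      rcases btw (f (j + 1)) ⟨j + 1, by omega, by omega, rfl⟩ a b with ⟨c1, c2, c3⟩ | ⟨c1, c2, c3⟩
      · exact c3 (j + 1) y cu cy hy
      · exfalso
        have := cu.2.2
        omega
  have hud : ¬ N.cr l (f (j + 1)) j := by
    intro hc
    have cu := F.cr (j + 1) (by omega) (by omega)
    have := F.dn j j1 jm hc
    have h1 := (lowout j g4 le_rfl).2.1
    rw [this] at h1
    have := cu.2.2
    omega
  have hwd : ¬ N.cr l (f j) (j + 1) := by
    intro hc
    have := F.up j j1 jm hc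
    rw [← this] at hc
    exact hud (this ▸ F.cr j j1 jm.le)
  have full : ∀ x, ¬ (N.cr l x j ∧ N.cr l x (j + 1)) := by
    rintro x ⟨c1, c2⟩
    have n1 : x ≠ f (j + 1) := fun hc => hud (hc ▸ c1)
    have n2 : x ≠ f j := fun hc => hwd (hc ▸ c2)
    have a := (lowout j g4 le_rfl).2.2 x c1 n2
    exact hu x c2 n1 (XY (nX x c1.1 a))
  refine ⟨X, j, hX, oXh, oXe, ?_, g4, g5, full, ?_, ?_⟩
  · intro g' a b c
    rw [uniq g' a b c]
  · intro i y a b cy hy
    exact (lowout i a b).2.2 y cy hy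
  · intro i a b
    by_contra hno
    push Not at hno
    have i1 : 1 ≤ i := by omega
    have cu := F.cr (i + 1) (by omega) (by omega)
    obtain ⟨y, hy, cy⟩ := L.exists_cr H (i := i + 1) (by omega) (by omega) (f (i + 1))
    have hyX := (lowout (i + 1) (by omega) (by omega)).2.2 y cy hy
    have hyd : ¬ N.cr l y i := fun hc => hno y hc cy
    have ey : l (N.hd y) = i := by
      by_contra hc
      exact hyd ⟨cy.1, by have := cy.2.1; omega, by have := cy.2.2; omega⟩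
    have ci := F.cr i i1 (by omega)
    have ew : l (N.tl (f i)) = i := by
      by_contra hc
      exact hno (f i) ci ⟨ci.1, by have := ci.2.1; omega, by have := ci.2.2; omega⟩
    obtain ⟨g', q1, q2, q3, q4, q5⟩ := L.T H (i := i) (S := X)
      (Or.inr ⟨y, cy.1, ey, nX y cy.1 hyX⟩) (Or.inr ⟨f i, ci.1, ew, (lowout i a (by omega)).1⟩)
    have := uniq g' q1 q2 q3
    rw [this] at q4
    omega

end Net

end Pool.Agent.H654R4.MO
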