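import Mathlib
import Pool.Agent.H654R4.MO.Defs

/-!
# Walks, paths and the arc version of Menger's theorem for two paths
-/

namespace Pool.Agent.H654R4.MO

open Finset

theorem IsWalk.snoc {D : List (ℕ × ℕ)} : ∀ {w : List ℕ} {u v x i : ℕ}, IsWalk D u v w →
    D[i]? = some (v, x) → IsWalk D u x (w ++ [i])
  | [], u, v, x, i, h, hi => ⟨x, by rw [show u = v from h]; exact hi, rfl⟩
  | _ :: w, _, _, _, _, ⟨y, h1, h2⟩, hi => ⟨y, h1, h2.snoc hi⟩

/-- Shortening a walk: the last part of a walk starts at each visited vertex. -/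
theorem IsWalk.tail_of_mem {D : List (ℕ × ℕ)} : ∀ {w : List ℕ} {u v x : ℕ}, IsWalk D u v w →
    x ∈ heads D w → ∃ w', IsWalk D x v w' ∧ w' ⊆ w ∧ w'.length < w.length
  | [], u, v, x, _, hx => by simp [heads] at hx
  | i :: w, u, v, x, ⟨y, h1, h2⟩, hx => by
    have hy : (D.getD i (0, 0)).2 = y := by simp [List.getD, h1]
    simp only [heads, List.map_cons, List.mem_cons] at hx
    rcases hx with hx | hx
    · rw [hy] at hx
      subst hx
      exact ⟨w, h2, fun j hj => List.mem_cons_of_mem _ hj, by simp⟩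
    · obtain ⟨w', a, b, c⟩ := h2.tail_of_mem hx
      exact ⟨w', a, fun j hj => List.mem_cons_of_mem _ (b hj), by simp; omega⟩

theorem IsWalk.exists_path {D : List (ℕ × ℕ)} : ∀ (n : ℕ) {w : List ℕ} {u v : ℕ},
    w.length = n → IsWalk D u v w → ∃ w', IsPath D u v w' ∧ w' ⊆ w := by
  intro n
  induction n using Nat.strong_induction_on with
  | _ n ih =>
  intro w u v hn hw
  by_cases hu : u ∈ heads D w
  · obtain ⟨w', a, b, c⟩ := hw.tail_of_mem hu
    obtain ⟨w'', h1, h2⟩ := ih w'.length (by omega) rfl a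
    exact ⟨w'', h1, fun j hj => b (h2 hj)⟩
  · cases w with
    | nil => exact ⟨[], ⟨hw, by simp [heads]⟩, List.Subset.refl _⟩
    | cons i w =>
      obtain ⟨y, h1, h2⟩ := hw
      obtain ⟨w', ⟨a1, a2⟩, b⟩ := ih w.length (by simp at hn; omega) rfl h2
      have hy : (D.getD i (0, 0)).2 = y := by simp [List.getD, h1]
      refine ⟨i :: w', ⟨⟨y, h1, a1⟩, ?_⟩, fun j hj => by
        rcases List.mem_cons.1 hj with rfl | hj
        · exact List.mem_cons_self
        · exact List.mem_cons_of_mem _ (b hj)⟩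
      have e : heads D (i :: w') = y :: heads D w' := by simp only [heads, List.map_cons, hy]
      rw [e, List.nodup_cons]
      refine ⟨?_, a2⟩
      intro hc
      apply hu
      simp only [heads, List.map_cons, List.mem_cons, hy] at hc ⊢
      rcases hc with hc | hc
      · exact Or.inl hc
      · right
        rw [List.mem_map] at hc ⊢
        obtain ⟨j, hj, e⟩ := hc
        exact ⟨j, b hj, e⟩

/-- A walk leaving a set uses an arc leaving it. -/
theorem IsWalk.leave {D : List (ℕ × ℕ)} {S : Set ℕ} : ∀ {w : List ℕ} {u v : ℕ}, IsWalk D u v w →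
    u ∈ S → v ∉ S → ∃ i ∈ w, ∃ a, D[i]? = some a ∧ a.1 ∈ S ∧ a.2 ∉ S
  | [], u, v, h, hu, hv => absurd ((show u = v from h) ▸ hu) hv
  | i :: w, u, v, ⟨y, h1, h2⟩, hu, hv => by
    by_cases hy : y ∈ S
    · obtain ⟨j, hj, h⟩ := h2.leave hy hv
      exact ⟨j, List.mem_cons_of_mem _ hj, h⟩
    · exact ⟨i, List.mem_cons_self, (u, y), h1, hu, hy⟩

variable (D : List (ℕ × ℕ))

/-- `i` is an arc leaving `S` -/
def Lv (S : Set ℕ) (i : ℕ) : Prop := ∃ a, D[i]? = some a ∧ a.1 ∈ S ∧ a.2 ∉ S

open Classical in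
/-- the number of arcs in `J` leaving `S` -/
noncomputable def cnt (J : Finset ℕ) (S : Set ℕ) : ℕ := (J.filter (Lv D S)).card

theorem cnt_submod (J : Finset ℕ) (S T : Set ℕ) :
    cnt D J (S ∩ T) + cnt D J (S ∪ T) ≤ cnt D J S + cnt D J T := by
  classical
  unfold cnt
  simp only [card_filter]
  rw [← sum_add_distrib, ← sum_add_distrib]
  refine sum_le_sum fun i _ => ?_
  unfold Lv
  rcases h : D[i]? with _ | ⟨a, b⟩
  · simp
  · simp only [Option.some.injEq, exists_eq_left', Set.mem_inter_iff, Set.mem_union]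
    by_cases h1 : a ∈ S <;> by_cases h2 : b ∈ S <;> by_cases h3 : a ∈ T <;>
      by_cases h4 : b ∈ T <;> simp [h1, h2, h3, h4]

/-- Existence of a walk from the cut condition. -/
theorem exists_walk {J : Finset ℕ} {s t : ℕ} (h : ∀ S : Set ℕ, s ∈ S → t ∉ S → 1 ≤ cnt D J S) :
    ∃ w, IsWalk D s t w ∧ ∀ i ∈ w, i ∈ J := by
  classical
  by_contra hno
  let R : Set ℕ := {x | ∃ w, IsWalk D s x w ∧ ∀ i ∈ w, i ∈ J}
  have hs : s ∈ R := ⟨[], rfl, by simp⟩
  have := h R hs hno
  obtain ⟨i, hi⟩ := card_pos.1 (show 0 < (J.filter (Lv D R)).card from this)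
  rw [mem_filter] at hi
  obtain ⟨hiJ, ⟨a, b⟩, ha, ⟨w, hw, hwJ⟩, hb⟩ := hi
  refine hb ⟨w ++ [i], hw.snoc ha, fun j hj => ?_⟩
  rcases List.mem_append.1 hj with h | h
  · exact hwJ j h
  · rw [List.mem_singleton.1 h]; exact hiJ

open Classical in
/-- The greedy construction. -/
theorem menger_aux (s t : ℕ) : ∀ (n : ℕ) (J : Finset ℕ) (v : ℕ), J.card = n →
    (∀ S : Set ℕ, t ∉ S → (if s ∈ S then 1 else 0) + (if v ∈ S then 1 else 0) ≤ cnt D J S) →
    ∃ w w', IsWalk D v t w ∧ IsWalk D s t w' ∧ (∀ i ∈ w, i ∈ J) ∧ (∀ i ∈ w', i ∈ J) ∧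
      ∀ i ∈ w, i ∉ w' := by
  intro n
  induction n with
  | zero =>
    intro J v hJ h
    have hJ' : J = ∅ := card_eq_zero.1 hJ
    subst hJ'
    by_cases hv : v = t
    · by_cases hs : s = t
      · exact ⟨[], [], hv, hs, by simp, by simp, by simp⟩
      · have := h {s} (by simpa using fun h => hs h.symm)
        simp [cnt] at this
    · have := h {v} (by simpa using fun h => hv h.symm)
      simp [cnt] at this
  | succ n ih =>
    intro J v hJ h
    by_cases hv : v = t
    · subst hv
      obtain ⟨w', h1, h2⟩ := exists_walk D (J := J) (s := s) (t := v) (fun S a b => by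
        have := h S b
        simp only [a, b, if_true, if_false] at this
        omega)
      exact ⟨[], w', rfl, h1, by simp, h2, by simp⟩
    -- find a good arc
    by_contra hno
    have tight : ∀ i ∈ J, ∀ x, D[i]? = some (v, x) →
        ∃ S : Set ℕ, t ∉ S ∧ v ∉ S ∧ x ∈ S ∧ cnt D J S = if s ∈ S then 1 else 0 := by
      intro i hi x hx
      by_contra hc
      push Not at hc
      apply hno
      obtain ⟨w, w', a, b, c, d, e⟩ := ih (J.erase i) x (by rw [card_erase_of_mem hi]; omega) (by
        intro S hS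
        have h0 := h S hS
        have hcnt : cnt D (J.erase i) S = cnt D J S - if (v ∈ S ∧ x ∉ S) then 1 else 0 := by
          unfold cnt
          rw [filter_erase]
          split_ifs with hvx
          · rw [card_erase_of_mem]
            exact mem_filter.2 ⟨hi, ⟨(v, x), hx, hvx.1, hvx.2⟩⟩
          · rw [erase_eq_of_notMem]
            · simp
            · rw [mem_filter]
              rintro ⟨-, a, ha, h1, h2⟩
              rw [hx] at ha
              obtain rfl := Option.some.inj ha
              exact hvx ⟨h1, h2⟩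
        rw [hcnt]
        by_cases h1 : v ∈ S <;> by_cases h2 : x ∈ S <;> by_cases h3 : s ∈ S <;>
          simp only [h1, h2, h3, if_true, if_false, not_true, not_false_iff, and_true, true_and,
            false_and, and_false] at h0 ⊢ <;> try omega
        · have := hc S hS h1 h2
          simp only [h3, if_true] at this
          omega
        · have := hc S hS h1 h2
          simp only [h3, if_false] at this
          omega)
      refine ⟨i :: w, w', ⟨x, hx, a⟩, b, ?_, fun j hj => (mem_erase.1 (d j hj)).2, ?_⟩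
      · intro j hj
        rcases List.mem_cons.1 hj with rfl | hj
        · exact hi
        · exact (mem_erase.1 (c j hj)).2
      · intro j hj
        rcases List.mem_cons.1 hj with rfl | hj
        · intro hj'; exact (mem_erase.1 (d j hj')).1 rfl
        · exact e j hj
    -- union of tight sets
    have hun : ∀ A : Finset ℕ, A ⊆ J → ∃ U : Set ℕ, t ∉ U ∧ v ∉ U ∧
        (cnt D J U = if s ∈ U then 1 else 0) ∧ ∀ i ∈ A, ∀ x, D[i]? = some (v, x) → x ∈ U := by
      intro A
      induction A using Finset.induction_on with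
      | empty => intro _; exact ⟨∅, by simp, by simp, by simp [cnt, Lv], by simp⟩
      | insert i A hiA ihA =>
        intro hA
        obtain ⟨U, u1, u2, u3, u4⟩ := ihA ((subset_insert _ _).trans hA)
        by_cases hx : ∃ x, D[i]? = some (v, x)
        · obtain ⟨x, hx⟩ := hx
          obtain ⟨S, s1, s2, s3, s4⟩ := tight i (hA (mem_insert_self _ _)) x hx
          have hsub := cnt_submod D J S U
          have l1 := h (S ∩ U) (fun hc => s1 hc.1)
          have l2 := h (S ∪ U) (fun hc => hc.elim s1 u1)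
          refine ⟨S ∪ U, fun hc => hc.elim s1 u1, fun hc => hc.elim s2 u2, ?_, ?_⟩
          · by_cases h1 : s ∈ S <;> by_cases h2 : s ∈ U <;>
              simp only [h1, h2, s2, u2, if_true, if_false, Set.mem_union, Set.mem_inter_iff,
                or_true, true_or, and_true, true_and, false_and, and_false, or_false,
                false_or] at s4 u3 l1 l2 ⊢ <;> omega
          · intro j hj y hy
            rcases mem_insert.1 hj with rfl | hj
            · rw [hx] at hy
              obtain rfl : x = y := by simpa using hy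
              exact Or.inl s3
            · exact Or.inr (u4 j hj y hy)
        · refine ⟨U, u1, u2, u3, ?_⟩
          intro j hj y hy
          rcases mem_insert.1 hj with rfl | hj
          · exact absurd ⟨y, hy⟩ hx
          · exact u4 j hj y hy
    obtain ⟨U, u1, u2, u3, u4⟩ := hun J (Subset.refl _)
    have hle : cnt D J (insert v U) ≤ cnt D J U := by
      refine card_le_card ?_
      intro i hi
      rw [mem_filter] at hi ⊢
      obtain ⟨hiJ, ⟨a, b⟩, hab, ha, hb⟩ := hi
      refine ⟨hiJ, (a, b), hab, ?_, fun hc => hb (Set.mem_insert_of_mem _ hc)⟩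
      rcases ha with ha | ha
      · have ha' : a = v := ha
        subst ha'
        exact absurd (Set.mem_insert_of_mem _ (u4 i hiJ b hab)) hb
      · exact ha
    have h1 := h (insert v U) (by
      rintro (hc | hc)
      · exact hv hc.symm
      · exact u1 hc)
    have e1 : v ∈ insert v U := Set.mem_insert _ _
    rw [if_pos e1] at h1
    by_cases h2 : s ∈ U
    · have e2 : s ∈ insert v U := Set.mem_insert_of_mem _ h2
      rw [if_pos e2] at h1
      rw [if_pos h2] at u3
      omega
    · rw [if_neg h2] at u3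
      omega

/-- **Menger's theorem** for two arc-disjoint paths. -/
theorem menger_two {s t : ℕ}
    (h : ∀ S : Set ℕ, s ∈ S → t ∉ S → 2 ≤ cnt D (range D.length) S) :
    ∃ w w', IsPath D s t w ∧ IsPath D s t w' ∧ w.Disjoint w' := by
  classical
  obtain ⟨w, w', a, b, -, -, c⟩ := menger_aux D s t _ (range D.length) s rfl (fun S hS => by
    by_cases hs : s ∈ S
    · have := h S hs hS
      simp only [hs, if_true]
      omega
    · simp [hs])
  obtain ⟨v, v1, v2⟩ := a.exists_path _ rfl
  obtain ⟨v', v1', v2'⟩ := b.exists_path _ rfl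
  exact ⟨v, v', v1, v1', fun i hi hi' => c i (v2 hi) (v2' hi')⟩

theorem path_of_cuts {s t : ℕ}
    (h : ∀ S : Set ℕ, s ∈ S → t ∉ S → 1 ≤ cnt D (range D.length) S) : ∃ w, IsPath D s t w := by
  obtain ⟨w, a, -⟩ := exists_walk D h
  obtain ⟨v, v1, -⟩ := a.exists_path _ rfl
  exact ⟨v, v1⟩

theorem Lv.mem {S : Set ℕ} {i : ℕ} (h : Lv D S i) : i ∈ range D.length := by
  obtain ⟨a, ha, -⟩ := h
  rw [mem_range]
  by_contra hc
  rw [List.getElem?_eq_none (by omega)] at ha
  cases ha

theorem cuts_of_path {s t : ℕ} {w : List ℕ} (hw : IsPath D s t w) {S : Set ℕ} (hs : s ∈ S)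
    (ht : t ∉ S) : 1 ≤ cnt D (range D.length) S := by
  classical
  obtain ⟨i, -, h⟩ := hw.1.leave hs ht
  exact card_pos.2 ⟨i, mem_filter.2 ⟨Lv.mem D h, h⟩⟩

theorem cuts_of_paths {s t : ℕ} {w w' : List ℕ} (hw : IsPath D s t w) (hw' : IsPath D s t w')
    (hd : w.Disjoint w') {S : Set ℕ} (hs : s ∈ S) (ht : t ∉ S) :
    2 ≤ cnt D (range D.length) S := by
  classical
  obtain ⟨i, hi, h⟩ := hw.1.leave hs ht
  obtain ⟨j, hj, h'⟩ := hw'.1.leave hs ht
  have hij : i ≠ j := by rintro rfl; exact hd hi hj
  exact one_lt_card.2 ⟨i, mem_filter.2 ⟨Lv.mem D h, h⟩, j, mem_filter.2 ⟨Lv.mem D h', h'⟩, hij⟩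

end Pool.Agent.H654R4.MO
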