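import Mathlib

/-!
# Mixed networks, cuts and uncrossing

A *net* is a finite mixed multigraph with four terminals: an element `i` goes from `tl i` to
`hd i`; a free element is an undirected edge.
-/

namespace Pool.Agent.H654R4.MO

open Finset

/-- A mixed multigraph with terminals; the elements with `fr` are the undirected edges. -/
structure Net (V ι : Type*) where
  /-- tail -/
  tl : ι → V
  /-- head -/
  hd : ι → V
  /-- undirected -/
  fr : ι → Prop
  /-- source of the path -/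
  s1 : V
  /-- sink of the path -/
  t1 : V
  /-- source of the two paths -/
  s2 : V
  /-- sink of the two paths -/
  t2 : V

set_option linter.unusedSectionVars false

namespace Net

variable {V ι : Type*} [Fintype V] [DecidableEq V] [Fintype ι] [DecidableEq ι]

/-- The reversed net. -/
def rev (N : Net V ι) : Net V ι := ⟨N.hd, N.tl, N.fr, N.t1, N.s1, N.t2, N.s2⟩

/-- The element `i` can be used to leave `S`. -/
def out (N : Net V ι) (S : Finset V) (i : ι) : Prop :=
  (N.tl i ∈ S ∧ N.hd i ∉ S) ∨ (N.fr i ∧ N.hd i ∈ S ∧ N.tl i ∉ S)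

/-- Free elements between `S \ T` and `T \ S`. -/
def crs (N : Net V ι) (S T : Finset V) (i : ι) : Prop :=
  N.fr i ∧ ((N.hd i ∈ S ∧ N.hd i ∉ T ∧ N.tl i ∈ T ∧ N.tl i ∉ S) ∨
    (N.tl i ∈ S ∧ N.tl i ∉ T ∧ N.hd i ∈ T ∧ N.hd i ∉ S))

open Classical in
/-- The number of elements which can be used to leave `S`. -/
noncomputable def p (N : Net V ι) (S : Finset V) : ℕ := (univ.filter (N.out S)).card

variable (N : Net V ι)

omit [Fintype V] [DecidableEq V] [Fintype ι] [DecidableEq ι] in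
@[simp] theorem rev_s1 : N.rev.s1 = N.t1 := rfl
omit [Fintype V] [DecidableEq V] [Fintype ι] [DecidableEq ι] in
@[simp] theorem rev_t1 : N.rev.t1 = N.s1 := rfl
omit [Fintype V] [DecidableEq V] [Fintype ι] [DecidableEq ι] in
@[simp] theorem rev_s2 : N.rev.s2 = N.t2 := rfl
omit [Fintype V] [DecidableEq V] [Fintype ι] [DecidableEq ι] in
@[simp] theorem rev_t2 : N.rev.t2 = N.s2 := rfl
omit [Fintype V] [DecidableEq V] [Fintype ι] [DecidableEq ι] in
@[simp] theorem rev_tl : N.rev.tl = N.hd := rfl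
omit [Fintype V] [DecidableEq V] [Fintype ι] [DecidableEq ι] in
@[simp] theorem rev_hd : N.rev.hd = N.tl := rfl
omit [Fintype V] [DecidableEq V] [Fintype ι] [DecidableEq ι] in
@[simp] theorem rev_fr : N.rev.fr = N.fr := rfl

theorem rev_out (S : Finset V) (i : ι) : N.rev.out S i ↔ N.out Sᶜ i := by
  simp only [out, rev_tl, rev_hd, rev_fr, mem_compl]; tauto

theorem rev_p (S : Finset V) : N.rev.p S = N.p Sᶜ := by
  unfold p; congr 1; ext i; simp [rev_out]

theorem rev_rev : N.rev.rev = N := rfl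

theorem le_p {S : Finset V} (l : Finset ι) (h : ∀ i ∈ l, N.out S i) : l.card ≤ N.p S := by
  classical
  exact card_le_card fun i hi => by simpa using h i hi

theorem p_ge1 {S : Finset V} {i : ι} (h : N.out S i) : 1 ≤ N.p S := by
  simpa using N.le_p {i} (by simpa using h)

theorem p_ge2 {S : Finset V} {i j : ι} (h : N.out S i) (h' : N.out S j) (hij : i ≠ j) :
    2 ≤ N.p S := by
  have := N.le_p (S := S) {i, j} (by simp [h, h'])
  simpa [card_pair hij] using this

theorem p_ge3 {S : Finset V} {i j k : ι} (hi : N.out S i) (hj : N.out S j) (hk : N.out S k)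
    (hij : i ≠ j) (hik : i ≠ k) (hjk : j ≠ k) : 3 ≤ N.p S := by
  have := N.le_p (S := S) {i, j, k} (by simp [hi, hj, hk])
  simpa [card_insert_of_notMem, hij, hik, hjk] using this

theorem p_ge4 {S : Finset V} {i j k l : ι} (hi : N.out S i) (hj : N.out S j) (hk : N.out S k)
    (hl : N.out S l) (hij : i ≠ j) (hik : i ≠ k) (hil : i ≠ l) (hjk : j ≠ k) (hjl : j ≠ l)
    (hkl : k ≠ l) : 4 ≤ N.p S := by
  have := N.le_p (S := S) {i, j, k, l} (by simp [hi, hj, hk, hl])
  simpa [card_insert_of_notMem, hij, hik, hil, hjk, hjl, hkl] using this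

theorem p_ge5 {S : Finset V} {i j k l m : ι} (hi : N.out S i) (hj : N.out S j) (hk : N.out S k)
    (hl : N.out S l) (hm : N.out S m) (hij : i ≠ j) (hik : i ≠ k) (hil : i ≠ l) (him : i ≠ m)
    (hjk : j ≠ k) (hjl : j ≠ l) (hjm : j ≠ m) (hkl : k ≠ l) (hkm : k ≠ m) (hlm : l ≠ m) :
    5 ≤ N.p S := by
  have := N.le_p (S := S) {i, j, k, l, m} (by simp [hi, hj, hk, hl, hm])
  simpa [card_insert_of_notMem, hij, hik, hil, him, hjk, hjl, hjm, hkl, hkm, hlm] using this

open Classical in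
/-- Uncrossing. -/
theorem unc (S T : Finset V) :
    N.p (S ∩ T) + N.p (S ∪ T) + 2 * (univ.filter (N.crs S T)).card ≤ N.p S + N.p T := by
  unfold p
  simp only [card_filter]
  rw [mul_sum, ← sum_add_distrib, ← sum_add_distrib, ← sum_add_distrib]
  refine sum_le_sum fun i _ => ?_
  simp only [out, crs, mem_inter, mem_union]
  by_cases h1 : N.tl i ∈ S <;> by_cases h2 : N.hd i ∈ S <;> by_cases h3 : N.tl i ∈ T <;>
    by_cases h4 : N.hd i ∈ T <;> by_cases h5 : N.fr i <;> simp [h1, h2, h3, h4, h5]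

theorem unc0 (S T : Finset V) : N.p (S ∩ T) + N.p (S ∪ T) ≤ N.p S + N.p T := by
  have := N.unc S T
  omega

theorem unc1 {S T : Finset V} {i : ι} (h : N.crs S T i) :
    N.p (S ∩ T) + N.p (S ∪ T) + 2 ≤ N.p S + N.p T := by
  classical
  have := N.unc S T
  have h1 : 1 ≤ (univ.filter (N.crs S T)).card := by
    simpa using card_le_card (s := {i}) (t := univ.filter (N.crs S T)) (by simpa using h)
  omega

theorem unc2 {S T : Finset V} {i j : ι} (h : N.crs S T i) (h' : N.crs S T j) (hij : i ≠ j) :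
    N.p (S ∩ T) + N.p (S ∪ T) + 4 ≤ N.p S + N.p T := by
  classical
  have := N.unc S T
  have h1 : 2 ≤ (univ.filter (N.crs S T)).card := by
    have := card_le_card (s := {i, j}) (t := univ.filter (N.crs S T)) (by
      intro x hx; simp only [mem_insert, mem_singleton] at hx
      rcases hx with rfl | rfl <;> simpa)
    simpa [card_pair hij] using this
  omega

/-- Tight sets of the double demand. -/
def X3 (S : Finset V) : Prop :=
  N.s2 ∈ S ∧ N.t2 ∉ S ∧ N.p S = 3 ∧ ∃ i j, i ≠ j ∧ N.fr i ∧ N.fr j ∧ N.out S i ∧ N.out S j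

/-- Tight sets of the single demand. -/
def Z2 (S : Finset V) : Prop :=
  N.s1 ∈ S ∧ N.t1 ∉ S ∧ N.p S = 2 ∧ ∃ i j, i ≠ j ∧ N.fr i ∧ N.fr j ∧ N.out S i ∧ N.out S j

/-- Closure-consistent and irreducible nets, with the free elements directed downwards. -/
structure Irr : Prop where
  C1 : ∀ S, N.s2 ∈ S → N.t2 ∉ S → 2 ≤ N.p S
  C1f : ∀ S, N.s2 ∈ S → N.t2 ∉ S → ∀ i, N.fr i → N.out S i → 3 ≤ N.p S
  C2 : ∀ S, N.s1 ∈ S → N.t1 ∉ S → 1 ≤ N.p S
  C2f : ∀ S, N.s1 ∈ S → N.t1 ∉ S → ∀ i, N.fr i → N.out S i → 2 ≤ N.p S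
  NX : ∀ S, N.X3 S → ∀ i, N.fr i → N.tl i ∈ S → N.hd i ∈ S
  NZ : ∀ S, N.Z2 S → ∀ i, N.fr i → N.hd i ∈ S → N.tl i ∈ S
  IX : ∀ i, N.fr i → ∃ S, N.X3 S ∧ N.hd i ∈ S ∧ N.tl i ∉ S
  IZ : ∀ i, N.fr i → ∃ S, N.Z2 S ∧ N.tl i ∈ S ∧ N.hd i ∉ S

variable {N}

theorem rev_X3 {S : Finset V} : N.rev.X3 S ↔ N.X3 Sᶜ := by
  unfold X3
  simp only [rev_p, rev_out]
  constructor
  · rintro ⟨h1, h2, h3, h4⟩
    exact ⟨by simpa using h2, by simpa using h1, h3, h4⟩
  · rintro ⟨h1, h2, h3, h4⟩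
    refine ⟨?_, ?_, h3, h4⟩
    · show N.t2 ∈ S; simpa using h2
    · show N.s2 ∉ S; simpa using h1

theorem rev_Z2 {S : Finset V} : N.rev.Z2 S ↔ N.Z2 Sᶜ := by
  unfold Z2
  simp only [rev_p, rev_out]
  constructor
  · rintro ⟨h1, h2, h3, h4⟩
    exact ⟨by simpa using h2, by simpa using h1, h3, h4⟩
  · rintro ⟨h1, h2, h3, h4⟩
    refine ⟨?_, ?_, h3, h4⟩
    · show N.t1 ∈ S; simpa using h2
    · show N.s1 ∉ S; simpa using h1

theorem Irr.rev (H : N.Irr) : N.rev.Irr where
  C1 S h1 h2 := by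
    rw [rev_p]; exact H.C1 _ (by simpa using h2) (by simpa using h1)
  C1f S h1 h2 i h3 h4 := by
    rw [rev_p]; exact H.C1f _ (by simpa using h2) (by simpa using h1) i h3 (by rwa [← rev_out])
  C2 S h1 h2 := by
    rw [rev_p]; exact H.C2 _ (by simpa using h2) (by simpa using h1)
  C2f S h1 h2 i h3 h4 := by
    rw [rev_p]; exact H.C2f _ (by simpa using h2) (by simpa using h1) i h3 (by rwa [← rev_out])
  NX S hS i hi h := by
    have := H.NX _ (rev_X3.1 hS) i hi
    simp only [mem_compl] at this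
    by_contra h'
    exact this h' h
  NZ S hS i hi h := by
    have := H.NZ _ (rev_Z2.1 hS) i hi
    simp only [mem_compl] at this
    by_contra h'
    exact this h' h
  IX i hi := by
    obtain ⟨S, hS, h1, h2⟩ := H.IX i hi
    exact ⟨Sᶜ, rev_X3.2 (by simpa using hS), by simpa [Net.rev] using h2,
      by simpa [Net.rev] using h1⟩
  IZ i hi := by
    obtain ⟨S, hS, h1, h2⟩ := H.IZ i hi
    exact ⟨Sᶜ, rev_Z2.2 (by simpa using hS), by simpa [Net.rev] using h2,
      by simpa [Net.rev] using h1⟩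

end Net

end Pool.Agent.H654R4.MO
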