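import Pool.Agent.H654R4.MO.Good

/-!
# From cut conditions to orientations
-/

namespace Pool.Agent.H654R4.MO

open Finset

set_option linter.unusedSectionVars false

namespace Net

variable {V ι : Type*} [Fintype V] [DecidableEq V] [Fintype ι] [DecidableEq ι] {N M : Net V ι}
  {l : V → ℕ} {m : ℕ} {f : ℕ → ι}

/-- consistent nets -/
structure Cons (N : Net V ι) : Prop where
  C1 : ∀ S, N.s2 ∈ S → N.t2 ∉ S → 2 ≤ N.p S
  C1f : ∀ S, N.s2 ∈ S → N.t2 ∉ S → ∀ i, N.fr i → N.out S i → 3 ≤ N.p S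
  C2 : ∀ S, N.s1 ∈ S → N.t1 ∉ S → 1 ≤ N.p S
  C2f : ∀ S, N.s1 ∈ S → N.t1 ∉ S → ∀ i, N.fr i → N.out S i → 2 ≤ N.p S

/-- `M'` is obtained from `M` by reversing and fixing some free elements. -/
def Ref (M M' : Net V ι) : Prop :=
  M'.s1 = M.s1 ∧ M'.t1 = M.t1 ∧ M'.s2 = M.s2 ∧ M'.t2 = M.t2 ∧
    ∀ i, (M'.fr i → M.fr i) ∧ ((M'.tl i = M.tl i ∧ M'.hd i = M.hd i) ∨
      (M.fr i ∧ M'.tl i = M.hd i ∧ M'.hd i = M.tl i))

theorem Ref.refl (M : Net V ι) : Ref M M :=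
  ⟨rfl, rfl, rfl, rfl, fun _ => ⟨id, Or.inl ⟨rfl, rfl⟩⟩⟩

theorem Ref.trans {A B C : Net V ι} (h : Ref A B) (h' : Ref B C) : Ref A C := by
  obtain ⟨a1, a2, a3, a4, a5⟩ := h
  obtain ⟨b1, b2, b3, b4, b5⟩ := h'
  refine ⟨b1.trans a1, b2.trans a2, b3.trans a3, b4.trans a4, fun i => ⟨fun h => (a5 i).1
    ((b5 i).1 h), ?_⟩⟩
  rcases (a5 i).2 with ⟨c1, c2⟩ | ⟨c0, c1, c2⟩ <;> rcases (b5 i).2 with ⟨d1, d2⟩ | ⟨d0, d1, d2⟩
  · exact Or.inl ⟨d1.trans c1, d2.trans c2⟩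
  · exact Or.inr ⟨(a5 i).1 d0, d1.trans c2, d2.trans c1⟩
  · exact Or.inr ⟨c0, d1.trans c1, d2.trans c2⟩
  · exact Or.inl ⟨d1.trans c2, d2.trans c1⟩

/-- fix a free element in its present direction -/
def fixd (M : Net V ι) (i : ι) : Net V ι := { M with fr := fun j => M.fr j ∧ j ≠ i }

/-- reverse an element -/
def flip (M : Net V ι) (i : ι) : Net V ι :=
  { M with tl := Function.update M.tl i (M.hd i), hd := Function.update M.hd i (M.tl i) }

theorem ref_fixd (M : Net V ι) (i : ι) : Ref M (M.fixd i) :=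
  ⟨rfl, rfl, rfl, rfl, fun _ => ⟨fun h => h.1, Or.inl ⟨rfl, rfl⟩⟩⟩

theorem ref_flip {i : ι} (fi : M.fr i) : Ref M (M.flip i) := by
  refine ⟨rfl, rfl, rfl, rfl, fun j => ⟨fun h => h, ?_⟩⟩
  by_cases hj : j = i
  · subst hj; right; exact ⟨fi, by simp [flip], by simp [flip]⟩
  · left; exact ⟨by simp [flip, hj], by simp [flip, hj]⟩

theorem flip_out {i : ι} (fi : M.fr i) (S : Finset V) (j : ι) :
    (M.flip i).out S j ↔ M.out S j := by
  by_cases hj : j = i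
  · subst hj; simp only [flip, out, Function.update_self]; tauto
  · simp [flip, out, hj]

theorem p_congr {S : Finset V} (h : ∀ j, N.out S j ↔ M.out S j) : N.p S = M.p S := by
  unfold p; congr 1; ext j; simp [h]

theorem flip_p {i : ι} (fi : M.fr i) (S : Finset V) : (M.flip i).p S = M.p S :=
  p_congr (flip_out fi S)

theorem fixd_out {i : ι} (fi : M.fr i) (S : Finset V) (j : ι) :
    (M.fixd i).out S j ↔ M.out S j ∧ ¬ (j = i ∧ M.hd i ∈ S ∧ M.tl i ∉ S) := by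
  simp only [fixd, out]
  by_cases hj : j = i
  · subst hj; tauto
  · tauto

theorem fixd_p1 {i : ι} (fi : M.fr i) {S : Finset V} (h : ¬ (M.hd i ∈ S ∧ M.tl i ∉ S)) :
    (M.fixd i).p S = M.p S := p_congr fun j => by
  rw [fixd_out fi]
  exact ⟨fun h' => h'.1, fun h' => ⟨h', fun h'' => h h''.2⟩⟩

theorem fixd_p2 {i : ι} (fi : M.fr i) {S : Finset V} (h : M.hd i ∈ S ∧ M.tl i ∉ S) :
    (M.fixd i).p S + 1 = M.p S := by
  classical
  unfold p
  have : univ.filter ((M.fixd i).out S) = (univ.filter (M.out S)).erase i := by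
    ext j
    simp only [mem_filter, mem_univ, true_and, mem_erase, fixd_out fi]
    tauto
  rw [this]
  exact card_erase_add_one (by
    simp only [mem_filter, mem_univ, true_and]
    exact Or.inr ⟨fi, h.1, h.2⟩)

theorem Cons.flip (H : M.Cons) {i : ι} (fi : M.fr i) : (M.flip i).Cons where
  C1 S h1 h2 := by rw [flip_p fi]; exact H.C1 S h1 h2
  C1f S h1 h2 j fj oj := by rw [flip_p fi]; exact H.C1f S h1 h2 j fj ((flip_out fi S j).1 oj)
  C2 S h1 h2 := by rw [flip_p fi]; exact H.C2 S h1 h2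
  C2f S h1 h2 j fj oj := by rw [flip_p fi]; exact H.C2f S h1 h2 j fj ((flip_out fi S j).1 oj)

/-- Why a direction cannot be fixed. -/
theorem Cons.dart (H : M.Cons) {i : ι} (fi : M.fr i) (hn : ¬ (M.fixd i).Cons) :
    (∃ S, M.X3 S ∧ M.hd i ∈ S ∧ M.tl i ∉ S) ∨ (∃ S, M.Z2 S ∧ M.hd i ∈ S ∧ M.tl i ∉ S) := by
  by_contra hc
  push Not at hc
  obtain ⟨c1, c2⟩ := hc
  apply hn
  have oi : ∀ S, M.hd i ∈ S ∧ M.tl i ∉ S → M.out S i := fun S h => Or.inr ⟨fi, h.1, h.2⟩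
  refine ⟨fun S h1 h2 => ?_, fun S h1 h2 j fj oj => ?_, fun S h1 h2 => ?_,
    fun S h1 h2 j fj oj => ?_⟩
  · by_cases h : M.hd i ∈ S ∧ M.tl i ∉ S
    · have := H.C1f S h1 h2 i fi (oi S h); have := fixd_p2 fi h; omega
    · rw [fixd_p1 fi h]; exact H.C1 S h1 h2
  · rw [fixd_out fi] at oj
    by_cases h : M.hd i ∈ S ∧ M.tl i ∉ S
    · have a := H.C1f S h1 h2 i fi (oi S h)
      have b := fixd_p2 fi h
      by_contra hlt
      exact h.2 (c1 S ⟨h1, h2, by omega, i, j, fj.2.symm, fi, fj.1, oi S h, oj.1⟩ h.1)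
    · rw [fixd_p1 fi h]; exact H.C1f S h1 h2 j fj.1 oj.1
  · by_cases h : M.hd i ∈ S ∧ M.tl i ∉ S
    · have := H.C2f S h1 h2 i fi (oi S h); have := fixd_p2 fi h; omega
    · rw [fixd_p1 fi h]; exact H.C2 S h1 h2
  · rw [fixd_out fi] at oj
    by_cases h : M.hd i ∈ S ∧ M.tl i ∉ S
    · have a := H.C2f S h1 h2 i fi (oi S h)
      have b := fixd_p2 fi h
      by_contra hlt
      exact h.2 (c2 S ⟨h1, h2, by omega, i, j, fj.2.symm, fi, fj.1, oi S h, oj.1⟩ h.1)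
    · rw [fixd_p1 fi h]; exact H.C2f S h1 h2 j fj.1 oj.1

theorem crs_of {S T : Finset V} {j : ι} (fj : M.fr j) (oj : M.out S j) (h1 : ¬ M.out (S ∩ T) j)
    (h2 : ¬ M.out (S ∪ T) j) : M.crs S T j := by
  simp only [out, crs, mem_inter, mem_union] at *; tauto

theorem Cons.noX (H : M.Cons) {i : ι} (fi : M.fr i) {S T : Finset V} (hS : M.X3 S)
    (hT : M.X3 T) (h1 : M.hd i ∈ S) (h2 : M.tl i ∉ S) (h3 : M.tl i ∈ T) (h4 : M.hd i ∉ T) :
    False := by
  have ci : M.crs S T i := ⟨fi, Or.inl ⟨h1, h4, h3, h2⟩⟩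
  have hu := M.unc1 ci
  rw [hS.2.2.1, hT.2.2.1] at hu
  have a1 : M.s2 ∈ S ∩ T := mem_inter.2 ⟨hS.1, hT.1⟩
  have a2 : M.t2 ∉ S ∩ T := fun h => hS.2.1 (mem_inter.1 h).1
  have b1 : M.s2 ∈ S ∪ T := mem_union_left _ hS.1
  have b2 : M.t2 ∉ S ∪ T := fun h => (mem_union.1 h).elim hS.2.1 hT.2.1
  have c1 := H.C1 _ a1 a2
  have c2 := H.C1 _ b1 b2
  obtain ⟨j, hji, fj, oj⟩ := hS.other i
  have cj := crs_of (T := T) fj oj (fun h => by have := H.C1f _ a1 a2 j fj h; omega)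
    (fun h => by have := H.C1f _ b1 b2 j fj h; omega)
  have := M.unc2 ci cj hji.symm
  rw [hS.2.2.1, hT.2.2.1] at this
  omega

theorem Cons.noZ (H : M.Cons) {i : ι} (fi : M.fr i) {S T : Finset V} (hS : M.Z2 S)
    (hT : M.Z2 T) (h1 : M.hd i ∈ S) (h2 : M.tl i ∉ S) (h3 : M.tl i ∈ T) (h4 : M.hd i ∉ T) :
    False := by
  have ci : M.crs S T i := ⟨fi, Or.inl ⟨h1, h4, h3, h2⟩⟩
  have hu := M.unc1 ci
  rw [hS.2.2.1, hT.2.2.1] at hu
  have a1 : M.s1 ∈ S ∩ T := mem_inter.2 ⟨hS.1, hT.1⟩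
  have a2 : M.t1 ∉ S ∩ T := fun h => hS.2.1 (mem_inter.1 h).1
  have b1 : M.s1 ∈ S ∪ T := mem_union_left _ hS.1
  have b2 : M.t1 ∉ S ∪ T := fun h => (mem_union.1 h).elim hS.2.1 hT.2.1
  have c1 := H.C2 _ a1 a2
  have c2 := H.C2 _ b1 b2
  obtain ⟨j, hji, fj, oj⟩ := hS.other i
  have cj := crs_of (T := T) fj oj (fun h => by have := H.C2f _ a1 a2 j fj h; omega)
    (fun h => by have := H.C2f _ b1 b2 j fj h; omega)
  have := M.unc2 ci cj hji.symm
  rw [hS.2.2.1, hT.2.2.1] at this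
  omega

/-- Normalisation of an irreducible consistent net. -/
theorem Cons.norm (H : M.Cons)
    (hirr : ∀ i, M.fr i → ¬ (M.fixd i).Cons ∧ ¬ ((M.flip i).fixd i).Cons) :
    ∃ N, Ref M N ∧ N.fr = M.fr ∧ N.Irr := by
  classical
  let P : ι → Prop := fun i => M.fr i ∧ ∃ S, M.X3 S ∧ M.tl i ∈ S ∧ M.hd i ∉ S
  let N : Net V ι := { M with
    tl := fun i => if P i then M.hd i else M.tl i
    hd := fun i => if P i then M.tl i else M.hd i }
  have hout : ∀ S j, N.out S j ↔ M.out S j := by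
    intro S j
    by_cases h : P j
    · have := h.1
      simp only [N, out, h, if_true]; tauto
    · simp only [N, out, h, if_false]
  have hp : ∀ S, N.p S = M.p S := fun S => p_congr (hout S)
  have hX : ∀ S, N.X3 S ↔ M.X3 S := fun S => by simp only [X3, hp, hout]; rfl
  have hZ : ∀ S, N.Z2 S ↔ M.Z2 S := fun S => by simp only [Z2, hp, hout]; rfl
  -- the two families at a free element
  have two : ∀ i, M.fr i → (∃ S, M.X3 S ∧ N.hd i ∈ S ∧ N.tl i ∉ S) ∧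
      ∃ S, M.Z2 S ∧ N.tl i ∈ S ∧ N.hd i ∉ S := by
    intro i fi
    obtain ⟨h1, h2⟩ := hirr i fi
    have d1 := H.dart fi h1
    have d2 : (∃ S, M.X3 S ∧ M.tl i ∈ S ∧ M.hd i ∉ S) ∨
        (∃ S, M.Z2 S ∧ M.tl i ∈ S ∧ M.hd i ∉ S) := by
      have := (H.flip fi).dart (i := i) fi h2
      have eX : ∀ S, (M.flip i).X3 S ↔ M.X3 S := fun S => by
        simp only [X3, flip_p fi, flip_out fi]; rfl
      have eZ : ∀ S, (M.flip i).Z2 S ↔ M.Z2 S := fun S => by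
        simp only [Z2, flip_p fi, flip_out fi]; rfl
      rcases this with ⟨S, hS, a, b⟩ | ⟨S, hS, a, b⟩
      · exact Or.inl ⟨S, (eX S).1 hS, by simpa [Net.flip] using a, by simpa [Net.flip] using b⟩
      · exact Or.inr ⟨S, (eZ S).1 hS, by simpa [Net.flip] using a, by simpa [Net.flip] using b⟩
    by_cases hP : P i
    · have hN : N.tl i = M.hd i ∧ N.hd i = M.tl i := by simp [N, hP]
      obtain ⟨S, hS, s1, s2⟩ := hP.2
      rw [hN.1, hN.2]
      refine ⟨⟨S, hS, s1, s2⟩, ?_⟩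
      rcases d1 with ⟨T, hT, t1, t2⟩ | h
      · exact (H.noX fi hT hS t1 t2 s1 s2).elim
      · exact h
    · have hN : N.tl i = M.tl i ∧ N.hd i = M.hd i := by simp [N, hP]
      rw [hN.1, hN.2]
      rcases d2 with h | ⟨T, hT, t1, t2⟩
      · exact absurd ⟨fi, h⟩ hP
      · rcases d1 with h | ⟨S, hS, s1, s2⟩
        · exact ⟨h, T, hT, t1, t2⟩
        · exact (H.noZ fi hS hT s1 s2 t1 t2).elim
  have ends : ∀ i, (N.tl i = M.tl i ∧ N.hd i = M.hd i) ∨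
      (M.fr i ∧ N.tl i = M.hd i ∧ N.hd i = M.tl i) := by
    intro i
    by_cases hP : P i
    · right; exact ⟨hP.1, by simp [N, hP], by simp [N, hP]⟩
    · left; exact ⟨by simp [N, hP], by simp [N, hP]⟩
  refine ⟨N, ⟨rfl, rfl, rfl, rfl, fun i => ⟨fun h => h, ends i⟩⟩, rfl, ?_⟩
  refine ⟨fun S a b => by rw [hp]; exact H.C1 S a b,
    fun S a b i fi oi => by rw [hp]; exact H.C1f S a b i fi ((hout S i).1 oi),
    fun S a b => by rw [hp]; exact H.C2 S a b,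
    fun S a b i fi oi => by rw [hp]; exact H.C2f S a b i fi ((hout S i).1 oi), ?_, ?_, ?_, ?_⟩
  · intro S hS i fi h
    by_contra hc
    obtain ⟨T, hT, t1, t2⟩ := (two i fi).1
    rcases ends i with ⟨e1, e2⟩ | ⟨-, e1, e2⟩
    · rw [e1] at h t2; rw [e2] at hc t1
      exact H.noX fi hT ((hX S).1 hS) t1 t2 h hc
    · rw [e1] at h t2; rw [e2] at hc t1
      exact H.noX fi ((hX S).1 hS) hT h hc t1 t2
  · intro S hS i fi h
    by_contra hc
    obtain ⟨T, hT, t1, t2⟩ := (two i fi).2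
    rcases ends i with ⟨e1, e2⟩ | ⟨-, e1, e2⟩
    · rw [e2] at h t2; rw [e1] at hc t1
      exact H.noZ fi ((hZ S).1 hS) hT h hc t1 t2
    · rw [e2] at h t2; rw [e1] at hc t1
      exact H.noZ fi hT ((hZ S).1 hS) t1 t2 h hc
  · intro i fi
    obtain ⟨S, hS, h⟩ := (two i fi).1
    exact ⟨S, (hX S).2 hS, h⟩
  · intro i fi
    obtain ⟨S, hS, h⟩ := (two i fi).2
    exact ⟨S, (hZ S).2 hS, h⟩

/-- Fixing a good track downwards. -/
theorem Track.fix (F : N.Track l m f) (L : N.Lev l m) (H : N.Irr)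
    (hg : ∀ h e, On m f h → On m f e → l (N.tl e) ≤ l (N.hd h) → ¬ N.XP h e) :
    ∃ N' : Net V ι, Ref N N' ∧ (∀ S : Finset V, N.s1 ∈ S → N.t1 ∉ S → ∃ i, ¬ N'.fr i ∧ N'.tl i ∈ S ∧ N'.hd i ∉ S) ∧
      ∀ S, N.s2 ∈ S → N.t2 ∉ S → 2 ≤ N'.p S := by
  classical
  let N' : Net V ι := { N with fr := fun i => N.fr i ∧ ¬ On m f i }
  refine ⟨N', ⟨rfl, rfl, rfl, rfl, fun i => ⟨fun h => h.1, Or.inl ⟨rfl, rfl⟩⟩⟩, ?_, ?_⟩
  · intro S h1 h2
    rcases F.LPt L H h1 h2 with ⟨g, fg, a, b⟩ | ⟨k, k1, km, a, b⟩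
    · exact ⟨g, fun h => fg h.1, a, b⟩
    · exact ⟨f k, fun h => h.2 ⟨k, k1, km, rfl⟩, a, b⟩
  · intro S h1 h2
    by_contra hlt
    let E : Finset ι := univ.filter (fun i => On m f i ∧ N.hd i ∈ S ∧ N.tl i ∉ S)
    have memE : ∀ i, i ∈ E ↔ On m f i ∧ N.hd i ∈ S ∧ N.tl i ∉ S := fun i => by simp [E]
    have hsum : N.p S = N'.p S + E.card := by
      unfold p
      rw [← card_union_of_disjoint]
      · congr 1
        ext i
        simp only [mem_filter, mem_univ, true_and, mem_union, memE, out, N']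
        constructor
        · rintro (h | ⟨a, b, c⟩)
          · exact Or.inl (Or.inl h)
          · by_cases ho : On m f i
            · exact Or.inr ⟨ho, b, c⟩
            · exact Or.inl (Or.inr ⟨⟨a, ho⟩, b, c⟩)
        · rintro ((h | ⟨a, b, c⟩) | ⟨a, b, c⟩)
          · exact Or.inl h
          · exact Or.inr ⟨a.1, b, c⟩
          · exact Or.inr ⟨F.on_fr a, b, c⟩
      · rw [disjoint_left]
        intro i hi hE
        obtain ⟨a, b, c⟩ := (memE i).1 hE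
        simp only [mem_filter, mem_univ, true_and, out, N'] at hi
        tauto
    have outE : ∀ i, i ∈ E → N.out S i := fun i hi => by
      obtain ⟨a, b, c⟩ := (memE i).1 hi
      exact Or.inr ⟨F.on_fr a, b, c⟩
    -- leaving between two elements of the track
    have LP : ∀ x y, x ∈ E → y ∈ E → l (N.tl y) ≤ l (N.hd x) →
        ∃ g, N'.out S g ∧ l (N.tl y) ≤ l (N.hd g) ∧ l (N.hd g) ≤ l (N.hd x) := by
      intro x y hx hy hle
      obtain ⟨⟨i, i1, im, rfl⟩, x1, x2⟩ := (memE x).1 hx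
      obtain ⟨⟨j, j1, jm, rfl⟩, y1, y2⟩ := (memE y).1 hy
      rcases F.LP L H S j1 jm y2 _ i i1 im rfl hle x1 with
        ⟨g, g1, g2, g3, g4, g5, g6⟩ | ⟨k, k1, km, a, b, c, d⟩
      · exact ⟨g, Or.inl ⟨g2, g3⟩, by omega, by omega⟩
      · exact ⟨f k, Or.inl ⟨a, b⟩, c, by have := L.lt H (F.cr k k1 km).1; omega⟩
    have ord : ∀ x y, x ∈ E → y ∈ E → x ≠ y → l (N.tl y) ≤ l (N.hd x) ∨ l (N.tl x) ≤ l (N.hd y) := by
      intro x y hx hy hxy
      obtain ⟨⟨i, i1, im, rfl⟩, -⟩ := (memE x).1 hx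
      obtain ⟨⟨j, j1, jm, rfl⟩, -⟩ := (memE y).1 hy
      rcases Nat.lt_trichotomy i j with h | h | h
      · exact Or.inr (F.order L H i1 h jm hxy.symm)
      · subst h; exact absurd rfl hxy
      · exact Or.inl (F.order L H j1 h im hxy)
    have flt : ∀ x, x ∈ E → l (N.hd x) < l (N.tl x) := fun x hx =>
      L.lt H (F.on_fr ((memE x).1 hx).1)
    have c1 := H.C1 S h1 h2
    have hE1 : 1 ≤ E.card := by omega
    obtain ⟨x0, hx0⟩ := card_pos.1 hE1
    have c3 := H.C1f S h1 h2 x0 (F.on_fr ((memE x0).1 hx0).1) (outE x0 hx0)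
    have hE2 : 1 < E.card := by omega
    obtain ⟨x, hx, y, hy, hxy⟩ := one_lt_card.1 hE2
    have two : 1 ≤ N'.p S := by
      rcases ord x y hx hy hxy with h | h
      · obtain ⟨g, hg', -⟩ := LP x y hx hy h; exact N'.p_ge1 hg'
      · obtain ⟨g, hg', -⟩ := LP y x hy hx h; exact N'.p_ge1 hg'
    by_cases hE3 : E.card = 2
    · have hX : N.X3 S := ⟨h1, h2, by omega, x, y, hxy, F.on_fr ((memE x).1 hx).1,
        F.on_fr ((memE y).1 hy).1, outE x hx, outE y hy⟩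
      rcases ord x y hx hy hxy with h | h
      · exact hg x y ((memE x).1 hx).1 ((memE y).1 hy).1 h ⟨S, hX, outE x hx, outE y hy⟩
      · exact hg y x ((memE y).1 hy).1 ((memE x).1 hx).1 h ⟨S, hX, outE y hy, outE x hx⟩
    · obtain ⟨a, b, c, ha, hb, hc, hab, hac, hbc⟩ := two_lt_card_iff.1 (show 2 < E.card by omega)
      have fin : ∀ a b c, a ∈ E → b ∈ E → c ∈ E → l (N.tl b) ≤ l (N.hd a) →
          l (N.tl c) ≤ l (N.hd b) → False := by
        intro a b c ha hb hc h h'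
        obtain ⟨g, g1, g2, g3⟩ := LP a b ha hb h
        obtain ⟨g', g1', g2', g3'⟩ := LP b c hb hc h'
        have := flt b hb
        have := N'.p_ge2 g1 g1' (by rintro rfl; omega)
        omega
      have fa := flt a ha
      have fb := flt b hb
      have fc := flt c hc
      rcases ord a b ha hb hab with h | h <;> rcases ord b c hb hc hbc with h' | h' <;>
        rcases ord a c ha hc hac with h'' | h''
      · exact fin a b c ha hb hc h h'
      · exact fin a b c ha hb hc h h'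
      · exact fin a c b ha hc hb h'' h'
      · exact fin c a b hc ha hb h'' h
      · exact fin b a c hb ha hc h h''
      · exact fin b c a hb hc ha h' h''
      · exact fin c b a hc hb ha h' h
      · exact fin c b a hc hb ha h' h

/-- number of free elements -/
noncomputable def nf (M : Net V ι) : ℕ := by
  classical exact (univ.filter M.fr).card

theorem nf_fixd {i : ι} (fi : M.fr i) : (M.fixd i).nf < M.nf := by
  classical
  unfold nf
  refine card_lt_card ?_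
  rw [ssubset_iff_of_subset]
  · exact ⟨i, by simp [fi], by simp [fixd]⟩
  · intro j hj
    simp only [fixd, mem_filter, mem_univ, true_and] at hj ⊢
    exact hj.1

theorem nf_flip {i : ι} : (M.flip i).nf = M.nf := rfl

/-- Completing an orientation for the double demand. -/
theorem complete : ∀ n (M : Net V ι), M.nf = n →
    (∀ S, M.s2 ∈ S → M.t2 ∉ S → 2 ≤ M.p S) →
    ∃ M', Ref M M' ∧ (∀ i, ¬ M'.fr i) ∧
      (∀ i, ¬ M.fr i → M'.tl i = M.tl i ∧ M'.hd i = M.hd i) ∧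
      ∀ S, M.s2 ∈ S → M.t2 ∉ S → 2 ≤ M'.p S := by
  intro n
  induction n using Nat.strong_induction_on with
  | _ n ih =>
  intro M hn hM
  by_cases hf : ∃ i, M.fr i
  · obtain ⟨i, fi⟩ := hf
    have step : ∀ M1 : Net V ι, Ref M M1 → M1.nf < n →
        (∀ j, ¬ M.fr j → ¬ M1.fr j ∧ M1.tl j = M.tl j ∧ M1.hd j = M.hd j) →
        (∀ S, M1.s2 ∈ S → M1.t2 ∉ S → 2 ≤ M1.p S) →
        ∃ M', Ref M M' ∧ (∀ i, ¬ M'.fr i) ∧
          (∀ i, ¬ M.fr i → M'.tl i = M.tl i ∧ M'.hd i = M.hd i) ∧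
          ∀ S, M.s2 ∈ S → M.t2 ∉ S → 2 ≤ M'.p S := by
      intro M1 hr hlt hu hM1
      obtain ⟨M', a, b, c, d⟩ := ih _ hlt M1 rfl hM1
      refine ⟨M', hr.trans a, b, fun j hj => ?_, fun S h1 h2 => d S ?_ ?_⟩
      · obtain ⟨u1, u2, u3⟩ := hu j hj
        obtain ⟨v1, v2⟩ := c j u1
        exact ⟨v1.trans u2, v2.trans u3⟩
      · rw [hr.2.2.1]; exact h1
      · rw [hr.2.2.2.1]; exact h2
    by_cases h1 : ∀ S, M.s2 ∈ S → M.t2 ∉ S → 2 ≤ (M.fixd i).p S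
    · exact step (M.fixd i) (ref_fixd M i) (hn ▸ nf_fixd fi)
        (fun j hj => ⟨fun h => hj h.1, rfl, rfl⟩) h1
    by_cases h2 : ∀ S, M.s2 ∈ S → M.t2 ∉ S → 2 ≤ ((M.flip i).fixd i).p S
    · refine step ((M.flip i).fixd i) ((ref_flip fi).trans (ref_fixd _ i))
        (hn ▸ nf_fixd (M := M.flip i) (i := i) fi) (fun j hj => ?_) h2
      have hji : j ≠ i := by rintro rfl; exact hj fi
      exact ⟨fun h => hj h.1, by simp [flip, fixd, hji], by simp [flip, fixd, hji]⟩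
    · exfalso
      push Not at h1 h2
      obtain ⟨S, s1, s2, s3⟩ := h1
      obtain ⟨T, t1, t2, t3⟩ := h2
      have hS : M.hd i ∈ S ∧ M.tl i ∉ S := by
        by_contra hc
        rw [fixd_p1 fi hc] at s3
        have := hM S s1 s2; omega
      have hT' : (M.flip i).hd i ∈ T ∧ (M.flip i).tl i ∉ T := by
        by_contra hc
        rw [fixd_p1 (M := M.flip i) fi hc, flip_p fi] at t3
        have := hM T t1 t2; omega
      have e1 := fixd_p2 fi hS
      have e2 := fixd_p2 (M := M.flip i) fi hT'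
      rw [flip_p fi] at e2
      have hT : M.tl i ∈ T ∧ M.hd i ∉ T := by simpa [flip] using hT'
      have := M.unc1 (S := S) (T := T) (i := i) ⟨fi, Or.inl ⟨hS.1, hT.2, hT.1, hS.2⟩⟩
      have := hM (S ∩ T) (mem_inter.2 ⟨s1, t1⟩) (fun h => s2 (mem_inter.1 h).1)
      have := hM (S ∪ T) (mem_union_left _ s1) (fun h => (mem_union.1 h).elim s2 t2)
      omega
  · push Not at hf
    exact ⟨M, Ref.refl M, hf, fun i _ => ⟨rfl, rfl⟩, hM⟩

/-- **Main combinatorial theorem.** A consistent net has an orientation with both demands. -/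
theorem Cons.orient : ∀ n (M : Net V ι), M.nf = n → M.Cons →
    ∃ M', Ref M M' ∧ (∀ i, ¬ M'.fr i) ∧ (∀ S, M.s1 ∈ S → M.t1 ∉ S → 1 ≤ M'.p S) ∧
      ∀ S, M.s2 ∈ S → M.t2 ∉ S → 2 ≤ M'.p S := by
  intro n
  induction n using Nat.strong_induction_on with
  | _ n ih =>
  intro M hn H
  by_cases hf : ∃ i, M.fr i
  swap
  · push Not at hf
    exact ⟨M, Ref.refl M, hf, H.C2, H.C1⟩
  have step : ∀ M1 : Net V ι, Ref M M1 → M1.nf < n → M1.Cons →
      ∃ M', Ref M M' ∧ (∀ i, ¬ M'.fr i) ∧ (∀ S, M.s1 ∈ S → M.t1 ∉ S → 1 ≤ M'.p S) ∧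
        ∀ S, M.s2 ∈ S → M.t2 ∉ S → 2 ≤ M'.p S := by
    intro M1 hr hlt hM1
    obtain ⟨M', a, b, c, d⟩ := ih _ hlt M1 rfl hM1
    refine ⟨M', hr.trans a, b, fun S h1 h2 => c S ?_ ?_, fun S h1 h2 => d S ?_ ?_⟩
    · rw [hr.1]; exact h1
    · rw [hr.2.1]; exact h2
    · rw [hr.2.2.1]; exact h1
    · rw [hr.2.2.2.1]; exact h2
  by_cases hirr : ∀ i, M.fr i → ¬ (M.fixd i).Cons ∧ ¬ ((M.flip i).fixd i).Cons
  · obtain ⟨N, hr, hfr, HN⟩ := H.norm hirr
    obtain ⟨x, fx⟩ := hf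
    obtain ⟨l, m, L⟩ := HN.exists_lev (x := x) (by rw [hfr]; exact fx)
    obtain ⟨f, F, hg⟩ := L.exists_good HN
    obtain ⟨N', hr', hP, hQ⟩ := F.fix L HN hg
    obtain ⟨M', a, b, c, d⟩ := complete _ N' rfl (fun S h1 h2 => hQ S (by
      rw [← hr'.2.2.1]; exact h1) (by rw [← hr'.2.2.2.1]; exact h2))
    refine ⟨M', (hr.trans hr').trans a, b, fun S h1 h2 => ?_, fun S h1 h2 => d S ?_ ?_⟩
    · obtain ⟨i, fi, i1, i2⟩ := hP S (by rw [hr.1]; exact h1) (by rw [hr.2.1]; exact h2)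
      obtain ⟨e1, e2⟩ := c i fi
      exact M'.p_ge1 (i := i) (Or.inl ⟨by rw [e1]; exact i1, by rw [e2]; exact i2⟩)
    · rw [hr'.2.2.1, hr.2.2.1]; exact h1
    · rw [hr'.2.2.2.1, hr.2.2.2.1]; exact h2
  · push Not at hirr
    obtain ⟨i, fi, hi⟩ := hirr
    by_cases h1 : (M.fixd i).Cons
    · exact step _ (ref_fixd M i) (hn ▸ nf_fixd fi) h1
    · exact step _ ((ref_flip fi).trans (ref_fixd _ i)) (hn ▸ nf_fixd (M := M.flip i) (i := i) fi)
        (hi h1)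

end Net

end Pool.Agent.H654R4.MO
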