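import Pool.Agent.H654R4.MO.Alg
import Pool.Agent.H654R4.MO.Orient

/-!
# Soundness of the unit closure
-/

namespace Pool.Agent.H654R4.MO

open Finset

/-- the tail of an element -/
def src (x : Elt) : ℕ := if x.2 = some true then x.1.2 else x.1.1

/-- the head of an element -/
def tgt (x : Elt) : ℕ := if x.2 = some true then x.1.1 else x.1.2

theorem el_iff (x : Elt) (S : Set ℕ) : (∃ a ∈ el x, a.1 ∈ S ∧ a.2 ∉ S) ↔
    (src x ∈ S ∧ tgt x ∉ S) ∨ (x.2 = none ∧ tgt x ∈ S ∧ src x ∉ S) := by
  obtain ⟨⟨a, b⟩, o⟩ := x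
  unfold el src tgt
  rcases o with _ | _ | _ <;> simp

/-- A bound for the names occurring in a state. -/
def bd (T : (ℕ × ℕ) × (ℕ × ℕ)) (L : St) : ℕ :=
  T.1.1 + T.1.2 + T.2.1 + T.2.2 + (L.map (fun x => x.1.1 + x.1.2)).sum

theorem le_bd {T : (ℕ × ℕ) × (ℕ × ℕ)} {L : St} {x : Elt} (hx : x ∈ L) :
    src x ≤ bd T L ∧ tgt x ≤ bd T L := by
  have h : x.1.1 + x.1.2 ≤ (L.map (fun x => x.1.1 + x.1.2)).sum :=
    List.single_le_sum (by simp) _ (List.mem_map.2 ⟨x, hx, rfl⟩)
  unfold src tgt bd
  split_ifs <;> constructor <;> omega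

variable (T : (ℕ × ℕ) × (ℕ × ℕ)) (L : St)

/-- vertices -/
abbrev VV : Type := Fin (bd T L + 1)

/-- the vertex with a given name -/
def nm (n : ℕ) : VV T L := Fin.ofNat _ n

theorem nm_val {n : ℕ} (h : n ≤ bd T L) : (nm T L n).val = n := by
  unfold nm
  exact Nat.mod_eq_of_lt (by omega)

/-- The net of a state. -/
def net : Net (VV T L) (Fin L.length) where
  tl i := nm T L (src (L.get i))
  hd i := nm T L (tgt (L.get i))
  fr i := (L.get i).2 = none
  s1 := nm T L T.1.1
  t1 := nm T L T.1.2
  s2 := nm T L T.2.1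
  t2 := nm T L T.2.2

variable {T L}

/-- the set of names -/
def up' (S : Finset (VV T L)) : Set ℕ := {n | nm T L n ∈ S}

theorem net_out {S : Finset (VV T L)} {i : Fin L.length} :
    (net T L).out S i ↔ Lx L (up' S) i := by
  unfold Net.out Lx
  have e : L[(i : ℕ)]? = some (L.get i) := List.getElem?_eq_getElem i.2
  constructor
  · intro h
    exact ⟨L.get i, e, (el_iff _ _).2 h⟩
  · rintro ⟨x, hx, h⟩
    rw [e] at hx
    obtain rfl := Option.some.inj hx
    exact (el_iff _ _).1 h

/-- In a stable state, both orientations of an undirected element are possible. -/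
theorem ok_upd {T : (ℕ × ℕ) × (ℕ × ℕ)} {L : St} (h : step T L = L) {i : ℕ} {e : ℕ × ℕ}
    (hi : L[i]? = some (e, none)) (b : Bool) : CC T (upd L i b) := by
  have h1 := getElem?_step (T := T) (L := L) (j := i)
  rw [h, hi, Option.map_some, if_pos rfl] at h1
  have h2 : fs T L i = none := by
    have := congrArg (fun o : Option Elt => o.elim none (fun x => x.2)) h1
    exact this.symm
  unfold fs at h2
  split_ifs at h2 with h3 h4
  cases b
  · exact ok_iff.1 h4
  · exact ok_iff.1 h3

/-- A set left by an undirected element is left by other elements too. -/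
theorem exists_dir {L : St} {S : Set ℕ} {i : ℕ} {e : ℕ × ℕ} (hi : L[i]? = some (e, none))
    (h : Lx L S i) : ∃ b, ∀ j, Lx (upd L i b) S j → j ≠ i := by
  obtain ⟨x, hx, a, ha, h1, h2⟩ := h
  rw [hi] at hx
  obtain rfl := Option.some.inj hx
  simp only [el, Option.elim_none, List.mem_cons, List.not_mem_nil, or_false] at ha
  have key : ∀ b : Bool, (upd L i b)[i]? = some (e, some b) := by
    intro b
    rw [getElem?_upd, hi]
    simp
  rcases ha with rfl | rfl
  · refine ⟨true, ?_⟩
    rintro j ⟨y, hy, c, hc, c1, c2⟩ rfl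
    rw [key] at hy
    obtain rfl := Option.some.inj hy
    simp only [el, Option.elim_some, if_true, List.mem_cons, List.not_mem_nil, or_false] at hc
    subst hc
    exact c2 h1
  · refine ⟨false, ?_⟩
    rintro j ⟨y, hy, c, hc, c1, c2⟩ rfl
    rw [key] at hy
    obtain rfl := Option.some.inj hy
    simp only [el, Option.elim_some, Bool.false_eq_true, if_false, List.mem_cons,
      List.not_mem_nil, or_false] at hc
    subst hc
    exact h2 c1

theorem fr_get {i : Fin L.length} (h : (net T L).fr i) :
    L[(i : ℕ)]? = some ((L.get i).1, none) := by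
  have e : L[(i : ℕ)]? = some (L.get i) := List.getElem?_eq_getElem i.2
  rw [e]
  have h' : (L.get i).2 = none := h
  rw [← h']

/-- The net of a stable state which satisfies the cut conditions is consistent. -/
theorem net_cons (hst : step T L = L) (hc : CC T L) : (net T L).Cons where
  C1 S hs ht := by
    obtain ⟨i, j, hij, hi, hj⟩ := hc.2 (up' S) hs ht
    exact (net T L).p_ge2 (i := ⟨i, hi.lt⟩) (j := ⟨j, hj.lt⟩) (net_out.2 hi) (net_out.2 hj)
      (by simpa using hij)
  C2 S hs ht := by
    obtain ⟨i, hi⟩ := hc.1 (up' S) hs ht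
    exact (net T L).p_ge1 (i := ⟨i, hi.lt⟩) (net_out.2 hi)
  C1f S hs ht i fi oi := by
    have hi := fr_get fi
    have ho := net_out.1 oi
    obtain ⟨b, hb⟩ := exists_dir hi ho
    obtain ⟨j, k, hjk, hj, hk⟩ := (ok_upd hst hi b).2 (up' S) hs ht
    have hj' := hj.mono (ext_upd L i b)
    have hk' := hk.mono (ext_upd L i b)
    have d1 := hb j hj
    have d2 := hb k hk
    refine (net T L).p_ge3 (i := i) (j := ⟨j, hj'.lt⟩) (k := ⟨k, hk'.lt⟩) oi (net_out.2 hj')
      (net_out.2 hk') ?_ ?_ (by simpa using hjk)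
    · intro h; exact d1 (by rw [h])
    · intro h; exact d2 (by rw [h])
  C2f S hs ht i fi oi := by
    have hi := fr_get fi
    have ho := net_out.1 oi
    obtain ⟨b, hb⟩ := exists_dir hi ho
    obtain ⟨j, hj⟩ := (ok_upd hst hi b).1 (up' S) hs ht
    have hj' := hj.mono (ext_upd L i b)
    have d1 := hb j hj
    refine (net T L).p_ge2 (i := i) (j := ⟨j, hj'.lt⟩) oi (net_out.2 hj') ?_
    intro h; exact d1 (by rw [h])

open Classical in
/-- **Soundness.** A stable state satisfying the cut conditions extends to an orientation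
satisfying them. -/
theorem exists_full (hst : step T L = L) (hc : CC T L) : ∃ F, Ext L F ∧ Full F ∧ CC T F := by
  obtain ⟨M, ⟨-, -, -, -, hr⟩, hfr, h1, h2⟩ := (net_cons hst hc).orient _ _ rfl
  let g : ℕ → Bool := fun i => if h : i < L.length then
    !decide (M.tl ⟨i, h⟩ = (net T L).tl ⟨i, h⟩ ∧ M.hd ⟨i, h⟩ = (net T L).hd ⟨i, h⟩) else false
  let F : St := L.zipIdx.map (fun p => if p.1.2 = none then (p.1.1, some (g p.2)) else p.1)
  have hF : ∀ j : ℕ, F[j]? = (L[j]?).map (fun x => if x.2 = none then (x.1, some (g j)) else x) := by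
    intro j
    simp only [F]
    rw [List.getElem?_map, List.getElem?_zipIdx]
    cases L[j]? <;> simp
  have hlen : L.length = F.length := by simp [F]
  have hE : Ext L F := by
    refine ext_iff.2 ⟨hlen, fun j x y hx hy => ?_⟩
    rw [hF, hx, Option.map_some] at hy
    obtain rfl := Option.some.inj hy
    split_ifs with h
    · exact ⟨rfl, Or.inl h⟩
    · exact ⟨rfl, Or.inr rfl⟩
  have hFull : Full F := by
    intro j y hy
    rw [hF] at hy
    cases hx : L[j]? with
    | none => rw [hx] at hy; simp at hy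
    | some x =>
      rw [hx, Option.map_some] at hy
      obtain rfl := Option.some.inj hy
      split_ifs with h
      · simp
      · exact h
  -- transfer of the leaving elements
  have key : ∀ (S : Set ℕ) (i : Fin L.length),
      M.out (univ.filter (fun v : VV T L => v.val ∈ S)) i → Lx F S i := by
    intro S i hi
    have hi' : M.tl i ∈ univ.filter (fun v : VV T L => v.val ∈ S) ∧
        M.hd i ∉ univ.filter (fun v : VV T L => v.val ∈ S) := by
      rcases hi with hi | ⟨hi, -⟩
      · exact hi
      · exact absurd hi (hfr i)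
    simp only [mem_filter, mem_univ, true_and] at hi'
    have e : L[(i : ℕ)]? = some (L.get i) := List.getElem?_eq_getElem i.2
    have hmem : L.get i ∈ L := List.get_mem _ _
    have b1 := (le_bd (T := T) hmem).1
    have b2 := (le_bd (T := T) hmem).2
    have n1 : ((net T L).tl i).val = src (L.get i) := nm_val T L b1
    have n2 : ((net T L).hd i).val = tgt (L.get i) := nm_val T L b2
    have hgi : g i = !decide (M.tl i = (net T L).tl i ∧ M.hd i = (net T L).hd i) := by
      simp only [g]
      rw [dif_pos i.2]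
    refine ⟨if (L.get i).2 = none then ((L.get i).1, some (g i)) else L.get i, ?_, ?_⟩
    · rw [hF, e, Option.map_some]
    · rw [el_iff]
      left
      by_cases hn : (L.get i).2 = none
      · rw [if_pos hn]
        by_cases hs : M.tl i = (net T L).tl i ∧ M.hd i = (net T L).hd i
        · rw [hgi, decide_eq_true hs]
          rw [hs.1, hs.2, n1, n2] at hi'
          simp only [src, tgt, hn, reduceCtorEq, if_false, Bool.not_true, Option.some.injEq,
            Bool.false_eq_true] at hi' ⊢
          exact hi'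
        · rw [hgi, decide_eq_false hs]
          rcases (hr i).2 with h | ⟨-, h3, h4⟩
          · exact absurd h hs
          · rw [h3, h4, n1, n2] at hi'
            simp only [src, tgt, hn, reduceCtorEq, if_false, Bool.not_false, if_true] at hi' ⊢
            exact hi'
      · rw [if_neg hn]
        rcases (hr i).2 with h | ⟨h0, -, -⟩
        · rw [h.1, h.2, n1, n2] at hi'
          exact hi'
        · exact absurd h0 hn
  have k1 : ∀ {n : ℕ} {S : Set ℕ}, n ≤ bd T L →
      (nm T L n ∈ univ.filter (fun v : VV T L => v.val ∈ S) ↔ n ∈ S) := by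
    intro n S hn
    rw [mem_filter, nm_val T L hn]
    simp
  have q1 : T.1.1 ≤ bd T L := by unfold bd; omega
  have q2 : T.1.2 ≤ bd T L := by unfold bd; omega
  have q3 : T.2.1 ≤ bd T L := by unfold bd; omega
  have q4 : T.2.2 ≤ bd T L := by unfold bd; omega
  refine ⟨F, hE, hFull, fun S hs ht => ?_, fun S hs ht => ?_⟩
  · have := h1 (univ.filter (fun v : VV T L => v.val ∈ S)) ((k1 q1).2 hs)
      (fun h => ht ((k1 q2).1 h))
    obtain ⟨i, hi⟩ := card_pos.1 (show 0 < (univ.filter (M.out _)).card from this)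
    exact ⟨i, key S i (by simpa using hi)⟩
  · have := h2 (univ.filter (fun v : VV T L => v.val ∈ S)) ((k1 q3).2 hs)
      (fun h => ht ((k1 q4).1 h))
    obtain ⟨i, hi, j, hj, hij⟩ := one_lt_card.1 (show 1 < (univ.filter (M.out _)).card from this)
    exact ⟨i, j, fun h => hij (Fin.ext h), key S i (by simpa using hi), key S j (by simpa using hj)⟩

/-- **The decision procedure is correct.** -/
theorem dec_iff {T : (ℕ × ℕ) × (ℕ × ℕ)} {L : St} :
    Dec T L = true ↔ ∃ F, Ext L F ∧ Full F ∧ CC T F := by
  constructor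
  · intro h
    obtain ⟨F, h1, h2, h3⟩ := exists_full (step_stable T L) (ok_iff.1 h)
    exact ⟨F, (ext_iter T L _).trans h1, h2, h3⟩
  · rintro ⟨F, h1, h2, h3⟩
    exact dec_of_ext h1 h2 h3

end Pool.Agent.H654R4.MO
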