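import Pool.Agent.NPC.Dec
import Pool.Agent.H671R2.PolyAuto
import Pool.Agent.H654R4.MO.Conv

/-!
# The algorithm runs in polynomial time
-/

namespace Pool.Agent.H654R4.MO

open Pool.Agent.NPC

theorem poly_el : NPC.Poly (fun x : Elt => el x) := by
  unfold el
  fun_prop

theorem poly_grow : NPC.Poly (fun x : List (ℕ × ℕ) × List ℕ => grow x.1 x.2) := by
  unfold grow
  refine NPC.Poly.optElim (o := fun x : List (ℕ × ℕ) × List ℕ =>
    (x.1.filter (fun a => decide (a.1 ∈ x.2) && !decide (a.2 ∈ x.2))).head?)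
    (g := fun x => x.2) (h := fun x a => a.2 :: x.2) ?_ ?_ ?_
  · fun_prop
  · fun_prop
  · fun_prop

theorem sz_grow (D : List (ℕ × ℕ)) (R : List ℕ) : sz (grow D R) ≤ sz R + (sz D + 1) := by
  rcases grow_cases (D := D) R with h | ⟨a, ha, -, -, h⟩
  · rw [h.1]; omega
  · rw [h, sz_list_cons]
    have h1 := sz_le_of_mem ha
    have h2 : sz a = sz a.1 + sz a.2 + 1 := sz_pair _ _
    omega

theorem sz_iter_grow (D : List (ℕ × ℕ)) (R : List ℕ) (k : ℕ) :
    sz ((grow D)^[k] R) ≤ sz R + k * (sz D + 1) := by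
  induction k with
  | zero => simp
  | succ k ih =>
    rw [Function.iterate_succ_apply']
    have := sz_grow D ((grow D)^[k] R)
    rw [Nat.succ_mul]
    omega

attribute [local irreducible] grow in
theorem poly_reachB : NPC.Poly (fun x : List (ℕ × ℕ) × ℕ × ℕ => reachB x.1 x.2.1 x.2.2) := by
  have h : NPC.Poly (fun x : List (ℕ × ℕ) × ℕ × ℕ => (grow x.1)^[x.1.length] [x.2.1]) := by
    refine NPC.Poly.iterLen (l := fun x : List (ℕ × ℕ) × ℕ × ℕ => x.1) (s := fun x => [x.2.1])
      (F := fun x R => grow x.1 R) (by fun_prop) (by fun_prop)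
      (poly_grow.comp (f := fun p : (List (ℕ × ℕ) × ℕ × ℕ) × List ℕ => (p.1.1, p.2))
        (by fun_prop))
      (Polynomial.X + 2 + Polynomial.X * (Polynomial.X + 1)) ?_
    rintro ⟨D, s, t⟩ k hk
    have h1 := sz_iter_grow D [s] k
    have h2 : k ≤ sz ((D, s, t) : List (ℕ × ℕ) × ℕ × ℕ) := by
      have := length_lt_sz D
      simp only [sz_pair]
      simp only at hk
      omega
    have h3 : sz [s] ≤ sz ((D, s, t) : List (ℕ × ℕ) × ℕ × ℕ) + 2 := by
      simp only [sz_pair, sz_list_cons, sz_list_nil]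
      omega
    have h4 : sz D + 1 ≤ sz ((D, s, t) : List (ℕ × ℕ) × ℕ × ℕ) + 1 := by
      simp only [sz_pair]
      omega
    have h5 := Nat.mul_le_mul h2 h4
    simp only [Polynomial.eval_add, Polynomial.eval_mul, Polynomial.eval_X,
      Polynomial.eval_one, Polynomial.eval_ofNat]
    exact h1.trans (Nat.add_le_add h3 h5)
  unfold reachB
  exact NPC.Poly.dec_mem (by fun_prop) h

attribute [local irreducible] el in
theorem poly_arx : NPC.Poly (fun x : St × ℕ => arx x.1 x.2) := by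
  unfold arx
  refine NPC.Poly.flatMap (F := fun (x : St × ℕ) (p : Elt × ℕ) => if p.2 = x.2 then [] else el p.1)
    (by fun_prop) (NPC.Poly.ite (by fun_prop) (NPC.Poly.const _)
      (poly_el.comp (f := fun p : (St × ℕ) × (Elt × ℕ) => p.2.1) (by fun_prop)))

attribute [local irreducible] arx reachB in
theorem poly_ok : NPC.Poly (fun x : ((ℕ × ℕ) × (ℕ × ℕ)) × St => ok x.1 x.2) := by
  unfold ok
  refine NPC.Poly.and ?_ ?_
  · exact poly_reachB.comp (f := fun x : ((ℕ × ℕ) × (ℕ × ℕ)) × St =>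
      (arx x.2 x.2.length, x.1.1.1, x.1.1.2)) (NPC.Poly.pair (poly_arx.comp
        (f := fun x : ((ℕ × ℕ) × (ℕ × ℕ)) × St => (x.2, x.2.length)) (by fun_prop)) (by fun_prop))
  · refine NPC.Poly.all (p := fun (x : ((ℕ × ℕ) × (ℕ × ℕ)) × St) j =>
      reachB (arx x.2 j) x.1.2.1 x.1.2.2) ?_ ?_
    · exact ((UPoly.length (NPC.Poly.snd NPC.Poly.id)).add (UPoly.const 1)).range
    · exact poly_reachB.comp (f := fun x : (((ℕ × ℕ) × (ℕ × ℕ)) × St) × ℕ =>
        (arx x.1.2 x.2, x.1.1.2.1, x.1.1.2.2)) (NPC.Poly.pair (poly_arx.comp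
        (f := fun x : (((ℕ × ℕ) × (ℕ × ℕ)) × St) × ℕ => (x.1.2, x.2)) (by fun_prop))
          (by fun_prop))

theorem poly_upd : NPC.Poly (fun x : St × ℕ × Bool => upd x.1 x.2.1 x.2.2) := by
  unfold upd
  fun_prop

attribute [local irreducible] ok upd in
theorem poly_fs : NPC.Poly (fun x : (((ℕ × ℕ) × (ℕ × ℕ)) × St) × ℕ => fs x.1.1 x.1.2 x.2) := by
  unfold fs
  have h1 : ∀ b : Bool, NPC.Poly (fun x : (((ℕ × ℕ) × (ℕ × ℕ)) × St) × ℕ =>
      ok x.1.1 (upd x.1.2 x.2 b)) := fun b =>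
    poly_ok.comp (f := fun x : (((ℕ × ℕ) × (ℕ × ℕ)) × St) × ℕ => (x.1.1, upd x.1.2 x.2 b))
      (NPC.Poly.pair (by fun_prop) (poly_upd.comp
        (f := fun x : (((ℕ × ℕ) × (ℕ × ℕ)) × St) × ℕ => (x.1.2, x.2, b)) (by fun_prop)))
  exact NPC.Poly.ite (NPC.Poly.decide_bool (h1 true)) (NPC.Poly.ite (NPC.Poly.decide_bool (h1 false))
    (NPC.Poly.const _) (NPC.Poly.const _)) (NPC.Poly.const _)

attribute [local irreducible] fs in
theorem poly_step : NPC.Poly (fun x : ((ℕ × ℕ) × (ℕ × ℕ)) × St => step x.1 x.2) := by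
  unfold step
  refine NPC.Poly.map (F := fun (x : ((ℕ × ℕ) × (ℕ × ℕ)) × St) (p : Elt × ℕ) =>
    if p.1.2 = none then (p.1.1, fs x.1 x.2 p.2) else p.1) (by fun_prop)
    (NPC.Poly.ite (by fun_prop) (NPC.Poly.pair (by fun_prop) (poly_fs.comp
      (f := fun p : (((ℕ × ℕ) × (ℕ × ℕ)) × St) × (Elt × ℕ) => (p.1, p.2.2)) (by fun_prop)))
      (by fun_prop))

theorem Ext.sz_le {L M : St} (h : Ext L M) : sz M ≤ sz L + 4 * L.length := by
  unfold Ext at h
  induction h with
  | nil => simp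
  | @cons x y l l' h1 _ ih =>
    obtain ⟨e, o⟩ := x
    obtain ⟨e', o'⟩ := y
    simp only at h1
    obtain ⟨rfl, h2⟩ := h1
    have h3 : sz o' ≤ sz o + 4 := by
      rcases h2 with rfl | rfl
      · cases o' with
        | none => omega
        | some b =>
          have := sz_bool_le b
          rw [sz_some, sz_none]
          omega
      · omega
    simp only [sz_list_cons, sz_pair, List.length_cons]
    omega

theorem Ext.sz_le' {L M : St} (h : Ext L M) : sz M ≤ 5 * sz L := by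
  have h1 := h.sz_le
  have h2 := length_lt_sz L
  omega

attribute [local irreducible] step ok in
theorem poly_Dec : NPC.Poly (fun x : ((ℕ × ℕ) × (ℕ × ℕ)) × St => Dec x.1 x.2) := by
  unfold Dec
  have h : NPC.Poly (fun x : ((ℕ × ℕ) × (ℕ × ℕ)) × St => (step x.1)^[x.2.length] x.2) := by
    refine NPC.Poly.iterLen (l := fun x : ((ℕ × ℕ) × (ℕ × ℕ)) × St => x.2) (s := fun x => x.2)
      (F := fun x M => step x.1 M) (by fun_prop) (by fun_prop)
      (poly_step.comp (f := fun p : (((ℕ × ℕ) × (ℕ × ℕ)) × St) × St => (p.1.1, p.2))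
        (by fun_prop)) (5 * Polynomial.X) ?_
    rintro ⟨T, L⟩ k _
    have h1 := (ext_iter T L k).sz_le'
    simp only [Polynomial.eval_mul, Polynomial.eval_X, Polynomial.eval_ofNat, sz_pair]
    change sz ((step T)^[k] L) ≤ _
    omega
  exact poly_ok.comp (NPC.Poly.pair (by fun_prop) h)

attribute [local irreducible] Dec upd in
theorem poly_srch : NPC.Poly (fun x : (((ℕ × ℕ) × (ℕ × ℕ)) × St) × ℕ => srch x.1.1 x.1.2 x.2) := by
  unfold srch
  have h1 : ∀ b : Bool, NPC.Poly (fun x : (((ℕ × ℕ) × (ℕ × ℕ)) × St) × ℕ => upd x.1.2 x.2 b) :=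
    fun b => poly_upd.comp
      (f := fun x : (((ℕ × ℕ) × (ℕ × ℕ)) × St) × ℕ => (x.1.2, x.2, b)) (by fun_prop)
  exact NPC.Poly.ite (NPC.Poly.decide_bool (poly_Dec.comp (f := fun x : (((ℕ × ℕ) × (ℕ × ℕ)) × St) × ℕ =>
    (x.1.1, upd x.1.2 x.2 false)) (NPC.Poly.pair (by fun_prop) (h1 false)))) (h1 false) (h1 true)

attribute [local irreducible] srch in
theorem poly_sr : NPC.Poly (fun x : ((ℕ × ℕ) × (ℕ × ℕ)) × St => sr x.1 x.2) := by
  unfold sr
  refine NPC.Poly.foldl (l := fun x : ((ℕ × ℕ) × (ℕ × ℕ)) × St => List.range x.2.length)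
    (s := fun x => x.2) (F := fun x M i => srch x.1 M i)
    (UPoly.length (NPC.Poly.snd NPC.Poly.id)).range (by fun_prop)
    (poly_srch.comp (f := fun p : (((ℕ × ℕ) × (ℕ × ℕ)) × St) × (St × ℕ) =>
      ((p.1.1, p.2.1), p.2.2)) (by fun_prop)) (5 * Polynomial.X) ?_
  rintro ⟨T, L⟩ k hk
  rw [List.length_range] at hk
  rw [List.take_range, Nat.min_eq_left hk]
  have h1 := (foldl_srch (T := T) (L := L) k).1.sz_le'
  simp only [Polynomial.eval_mul, Polynomial.eval_X, Polynomial.eval_ofNat, sz_pair]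
  have h2 : sz ((List.range k).foldl (srch T) L) ≤ 5 * (sz T + sz L + 1) := by omega
  exact h2

theorem poly_init : NPC.Poly (fun I : Inst => init I) := by
  unfold init
  fun_prop

theorem poly_outp : NPC.Poly (fun x : Inst × St => outp x.1 x.2) := by
  unfold outp
  fun_prop

attribute [local irreducible] Dec sr init outp in
theorem poly_solve : NPC.Poly (fun I : Inst => solve I) := by
  unfold solve
  have h1 : NPC.Poly (fun I : Inst => (I.2, init I)) := NPC.Poly.pair (by fun_prop) poly_init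
  exact NPC.Poly.ite (NPC.Poly.decide_bool (poly_Dec.comp h1)) (NPC.Poly.some (poly_outp.comp
    (f := fun I : Inst => (I, sr I.2 (init I))) (NPC.Poly.pair NPC.Poly.id (poly_sr.comp h1))))
    (NPC.Poly.const _)

attribute [local irreducible] Dec init in
theorem poly_dec_init : NPC.Poly (fun I : Inst => Dec I.2 (init I)) :=
  poly_Dec.comp (f := fun I : Inst => (I.2, init I)) (NPC.Poly.pair (by fun_prop) poly_init)

attribute [local irreducible] Dec init Good in
/-- The decision problem is in `P`. -/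
theorem inPP_good : InPP (fun I : Inst => ∃ o, Good I o) := 
  inPP_of poly_dec_init fun I => (dec_good I).symm

attribute [local irreducible] solve Good in
/-- The search problem is solvable in polynomial time. -/
theorem search_good : ∃ G : List Bool → List Bool, PolyTime G ∧ ∀ I : Inst,
    (∃ o, G (bits I) = bits (some o) ∧ Good I o) ∨
      (G (bits I) = bits (none : Option (List Bool)) ∧ ∀ o, ¬ Good I o) := by
  refine ⟨fun x => bits (((unbits Inst x).map solve).getD none), polyTime_bits ?_, fun I => ?_⟩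
  · exact NPC.Poly.optGetD (NPC.Poly.optMap_fp (h := fun _ I => solve I) poly_unbits
      (poly_solve.comp (NPC.Poly.snd NPC.Poly.id))) (NPC.Poly.const none)
  · simp only [unbits_bits, Option.map_some, Option.getD_some]
    rcases solve_spec I with ⟨o, h1, h2⟩ | ⟨h1, h2⟩
    · exact Or.inl ⟨o, by rw [h1], h2⟩
    · exact Or.inr ⟨by rw [h1], h2⟩

end Pool.Agent.H654R4.MO
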