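import Pool.Agent.H654R4.MO.Lev

/-!
# Tracks: paths which cross every cut between levels once
-/

namespace Pool.Agent.H654R4.MO

open Finset

set_option linter.unusedSectionVars false

namespace Net

variable {V ι : Type*} [Fintype V] [DecidableEq V] [Fintype ι] [DecidableEq ι] {N : Net V ι}
  {l : V → ℕ} {m : ℕ}

/-- A track: for each cut one of the two free elements crossing it. -/
structure Track (N : Net V ι) (l : V → ℕ) (m : ℕ) (f : ℕ → ι) : Prop where
  cr : ∀ i, 1 ≤ i → i ≤ m → N.cr l (f i) i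
  dn : ∀ i, 1 ≤ i → i < m → N.cr l (f (i + 1)) i → f i = f (i + 1)
  up : ∀ i, 1 ≤ i → i < m → N.cr l (f i) (i + 1) → f (i + 1) = f i

theorem cr_mid {x : ι} {i j k : ℕ} (hi : N.cr l x i) (hk : N.cr l x k) (h1 : i ≤ j)
    (h2 : j ≤ k) : N.cr l x j := ⟨hi.1, by have := hi.2.1; omega, by have := hk.2.2; omega⟩

namespace Track

variable {f : ℕ → ι}

theorem eq_up (F : N.Track l m f) (L : N.Lev l m) {i : ℕ} (h1 : 1 ≤ i) (hi : i ≤ m) :
    ∀ k, N.cr l (f i) (i + k) → f (i + k) = f i := by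
  intro k
  induction k with
  | zero => intro _; rfl
  | succ k ih =>
    intro h
    have h' : N.cr l (f i) (i + k) := cr_mid (F.cr i h1 hi) h (by omega) (by omega)
    have e := ih h'
    have hm := L.cr_le h
    rw [← add_assoc] at h ⊢
    rw [F.up (i + k) (by omega) (by omega) (by rw [e]; exact h), e]

theorem eq_dn (F : N.Track l m f) (_L : N.Lev l m) {i : ℕ} (hi : i ≤ m) :
    ∀ k j, j + k = i → N.cr l (f i) j → f j = f i := by
  intro k
  induction k with
  | zero => intro j hj _; rw [← hj]; rfl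
  | succ k ih =>
    intro j hj h
    have h1 := Lev.cr_pos h
    have h' : N.cr l (f i) (j + 1) := cr_mid h (F.cr i (by omega) hi) (by omega) (by omega)
    have e := ih (j + 1) (by omega) h'
    rw [F.dn j h1 (by omega) (by rw [e]; exact h), e]

theorem eq (F : N.Track l m f) (L : N.Lev l m) {i j : ℕ} (h1 : 1 ≤ i) (hi : i ≤ m)
    (h : N.cr l (f i) j) : f j = f i := by
  rcases Nat.le_total i j with hij | hij
  · obtain ⟨k, rfl⟩ := Nat.exists_eq_add_of_le hij
    exact F.eq_up L h1 hi k h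
  · exact F.eq_dn L hi (i - j) j (by omega) h

/-- the elements of a track are ordered -/
theorem order (F : N.Track l m f) (L : N.Lev l m) (H : N.Irr) {i j : ℕ} (h1 : 1 ≤ j) (hij : j < i)
    (hi : i ≤ m) (hne : f i ≠ f j) : l (N.tl (f j)) ≤ l (N.hd (f i)) := by
  by_contra hc
  push Not at hc
  have ci := F.cr i (by omega) hi
  have cj := F.cr j h1 (by omega)
  have li := L.lt H ci.1
  have lj := L.lt H cj.1
  have a1 := ci.2.1
  have a2 := ci.2.2
  have b1 := cj.2.1
  have b2 := cj.2.2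
  set k := max j (l (N.hd (f i)) + 1) with hk
  have k1 : N.cr l (f j) k := ⟨cj.1, by omega, by omega⟩
  have k2 : N.cr l (f i) k := ⟨ci.1, by omega, by omega⟩
  have e1 := F.eq L h1 (by omega) k1
  have e2 := F.eq L (by omega) hi k2
  exact hne (e2.symm.trans e1)

/-- the element after `f i` starts at the level where `f i` ends -/
theorem next (F : N.Track l m f) (L : N.Lev l m) (H : N.Irr) {i : ℕ} (h1 : 1 ≤ i) (hi : i ≤ m)
    (h0 : 1 ≤ l (N.hd (f i))) : l (N.tl (f (l (N.hd (f i))))) = l (N.hd (f i)) ∧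
      f (l (N.hd (f i))) ≠ f i := by
  set k := l (N.hd (f i)) with hk
  have ci := F.cr i h1 hi
  have hlt := L.lt H ci.1
  have hkm : k < m := by have := L.le (N.tl (f i)); omega
  have ck := F.cr k h0 (by omega)
  have hne : f k ≠ f i := fun hc => by
    rw [hc] at ck
    have := ck.2.1
    omega
  refine ⟨?_, hne⟩
  by_contra hc
  have c2 : N.cr l (f k) (k + 1) := ⟨ck.1, by have := ck.2.1; omega, by have := ck.2.2; omega⟩
  have e := F.up k h0 hkm c2
  have c3 : N.cr l (f i) (k + 1) := ⟨ci.1, by omega, by omega⟩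
  have e2 := F.eq L h1 hi c3
  exact hne (e.symm.trans e2)

/-- Leaving a set between two elements of a track. -/
theorem LP (F : N.Track l m f) (L : N.Lev l m) (H : N.Irr) (S : Finset V) {j : ℕ}
    (j1 : 1 ≤ j) (jm : j ≤ m) (hS : N.tl (f j) ∉ S) :
    ∀ n i, 1 ≤ i → i ≤ m → l (N.hd (f i)) = n → l (N.tl (f j)) ≤ l (N.hd (f i)) →
      N.hd (f i) ∈ S →
      (∃ g, ¬ N.fr g ∧ N.tl g ∈ S ∧ N.hd g ∉ S ∧ l (N.tl g) = l (N.hd g) ∧
        l (N.tl (f j)) ≤ l (N.tl g) ∧ l (N.tl g) ≤ l (N.hd (f i))) ∨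
      (∃ k, 1 ≤ k ∧ k ≤ m ∧ N.tl (f k) ∈ S ∧ N.hd (f k) ∉ S ∧ l (N.tl (f j)) ≤ l (N.hd (f k)) ∧
        l (N.tl (f k)) ≤ l (N.hd (f i))) := by
  intro n
  induction n using Nat.strong_induction_on with
  | _ n ih =>
  intro i i1 im hn hle hiS
  have cj := F.cr j j1 jm
  have hj2 := cj.2.2
  have h0 : 1 ≤ l (N.hd (f i)) := by omega
  obtain ⟨e1, e2⟩ := F.next L H i1 im h0
  have ci := F.cr i i1 im
  set k := l (N.hd (f i)) with hk
  have hkm : k ≤ m := L.le _
  have ck := F.cr k h0 hkm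
  by_cases hz : N.tl (f k) ∈ S
  · have hkj : f k ≠ f j := fun hc => hS (hc ▸ hz)
    have hjk : j < k := by
      rcases Nat.lt_or_ge j k with h | h
      · exact h
      · have : j = k := by omega
        rw [this] at hkj; exact absurd rfl hkj
    have ho := F.order L H j1 hjk hkm hkj
    by_cases hz' : N.hd (f k) ∈ S
    · have hlt := L.lt H ck.1
      rcases ih (l (N.hd (f k))) (by omega) k h0 hkm rfl ho hz' with
        ⟨g, g1, g2, g3, g4, g5, g6⟩ | ⟨q, q1, q2, q3, q4, q5, q6⟩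
      · exact Or.inl ⟨g, g1, g2, g3, g4, g5, by omega⟩
      · exact Or.inr ⟨q, q1, q2, q3, q4, q5, by omega⟩
    · exact Or.inr ⟨k, h0, hkm, hz, hz', ho, by omega⟩
  · obtain ⟨g, g1, g2, g3, g4, g5⟩ := L.T H (i := k) (S := S) (Or.inr ⟨f i, ci.1, rfl, hiS⟩)
      (Or.inr ⟨f k, ck.1, e1, hz⟩)
    exact Or.inl ⟨g, g1, g2, g3, by omega, by omega, by omega⟩

/-- Leaving a nice set. -/
theorem LPn (F : N.Track l m f) (L : N.Lev l m) (H : N.Irr) {S : Finset V} (nS : N.nice S)
    {i j : ℕ} (i1 : 1 ≤ i) (im : i ≤ m) (j1 : 1 ≤ j) (jm : j ≤ m)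
    (hle : l (N.tl (f j)) ≤ l (N.hd (f i))) (hi : N.hd (f i) ∈ S) (hj : N.tl (f j) ∉ S) :
    ∃ g, ¬ N.fr g ∧ N.tl g ∈ S ∧ N.hd g ∉ S ∧ l (N.tl g) = l (N.hd g) ∧
        l (N.tl (f j)) ≤ l (N.tl g) ∧ l (N.tl g) ≤ l (N.hd (f i)) := by
  rcases F.LP L H S j1 jm hj _ i i1 im rfl hle hi with h | ⟨k, k1, km, a, b, -⟩
  · exact h
  · exact absurd (nS _ (F.cr k k1 km).1 a) b

/-- The whole track leaves every set separating the terminals. -/
theorem LPt (F : N.Track l m f) (L : N.Lev l m) (H : N.Irr) {S : Finset V} (h1 : N.s1 ∈ S)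
    (h2 : N.t1 ∉ S) :
    (∃ g, ¬ N.fr g ∧ N.tl g ∈ S ∧ N.hd g ∉ S) ∨
      ∃ k, 1 ≤ k ∧ k ≤ m ∧ N.tl (f k) ∈ S ∧ N.hd (f k) ∉ S := by
  have bot : ∀ n i, 1 ≤ i → i ≤ m → l (N.hd (f i)) = n → N.hd (f i) ∈ S →
      (∃ g, ¬ N.fr g ∧ N.tl g ∈ S ∧ N.hd g ∉ S) ∨
      ∃ k, 1 ≤ k ∧ k ≤ m ∧ N.tl (f k) ∈ S ∧ N.hd (f k) ∉ S := by
    intro n
    induction n using Nat.strong_induction_on with
    | _ n ih =>
    intro i i1 im hn hiS
    have ci := F.cr i i1 im
    by_cases h0 : l (N.hd (f i)) = 0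
    · obtain ⟨g, g1, g2, g3, -⟩ := L.T H (i := 0) (S := S) (Or.inr ⟨f i, ci.1, h0, hiS⟩)
        (Or.inl ⟨rfl, h2⟩)
      exact Or.inl ⟨g, g1, g2, g3⟩
    · obtain ⟨e1, e2⟩ := F.next L H i1 im (by omega)
      set k := l (N.hd (f i)) with hk
      have hkm : k ≤ m := L.le _
      have ck := F.cr k (by omega) hkm
      by_cases hz : N.tl (f k) ∈ S
      · by_cases hz' : N.hd (f k) ∈ S
        · exact ih (l (N.hd (f k))) (by have := L.lt H ck.1; omega) k (by omega) hkm rfl hz'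
        · exact Or.inr ⟨k, by omega, hkm, hz, hz'⟩
      · obtain ⟨g, g1, g2, g3, -⟩ := L.T H (i := k) (S := S) (Or.inr ⟨f i, ci.1, rfl, hiS⟩)
          (Or.inr ⟨f k, ck.1, e1, hz⟩)
        exact Or.inl ⟨g, g1, g2, g3⟩
  have cm := F.cr m L.pos le_rfl
  have em : l (N.tl (f m)) = m := le_antisymm (L.le _) cm.2.2
  by_cases hz : N.tl (f m) ∈ S
  · by_cases hz' : N.hd (f m) ∈ S
    · exact bot _ m L.pos le_rfl rfl hz'
    · exact Or.inr ⟨m, L.pos, le_rfl, hz, hz'⟩
  · obtain ⟨g, g1, g2, g3, -⟩ := L.T H (i := m) (S := S) (Or.inl ⟨rfl, h1⟩)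
      (Or.inr ⟨f m, cm.1, em, hz⟩)
    exact Or.inl ⟨g, g1, g2, g3⟩

end Track

/-- Existence of a track. -/
theorem Lev.exists_track (L : N.Lev l m) (H : N.Irr) : ∃ f, N.Track l m f := by
  have main : ∀ n, n < m → ∃ f : ℕ → ι, (∀ i, m - n ≤ i → i ≤ m → N.cr l (f i) i) ∧
      (∀ i, m - n ≤ i → i < m → N.cr l (f (i + 1)) i → f i = f (i + 1)) ∧
      (∀ i, m - n ≤ i → i < m → N.cr l (f i) (i + 1) → f (i + 1) = f i) := by
    intro n
    induction n with
    | zero =>
      intro _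
      obtain ⟨x, hx⟩ : ∃ x, N.cr l x m := by
        obtain ⟨-, -, -, i, -, -, -, -, oi, -⟩ := L.z2 m L.pos le_rfl
        exact ⟨i, L.cr_of_out H L.pos le_rfl oi⟩
      refine ⟨fun _ => x, fun i h1 h2 => ?_, fun i h1 h2 => by omega, fun i h1 h2 => by omega⟩
      have : i = m := by omega
      rw [this]; exact hx
    | succ n ih =>
      intro hn
      obtain ⟨f, a, b, c⟩ := ih (by omega)
      set j := m - (n + 1) with hj
      have hj1 : m - n = j + 1 := by omega
      rw [hj1] at a b c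
      -- choose the value at `j`
      obtain ⟨z, hz, hz1, hz2⟩ : ∃ z, N.cr l z j ∧ (N.cr l (f (j + 1)) j → z = f (j + 1)) ∧
          (N.cr l z (j + 1) → f (j + 1) = z) := by
        by_cases hc : N.cr l (f (j + 1)) j
        · exact ⟨f (j + 1), hc, fun _ => rfl, fun _ => rfl⟩
        · obtain ⟨x, -, hx⟩ := L.exists_cr H (i := j) (by omega) (by omega) (f (j + 1))
          obtain ⟨y, hyx, hy⟩ := L.exists_cr H (i := j) (by omega) (by omega) x
          have ca := a (j + 1) le_rfl (by omega)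
          by_cases hx' : N.cr l x (j + 1)
          · by_cases hy' : N.cr l y (j + 1)
            · rcases L.third hy' hx' ca hyx with h | h
              · exact absurd (h ▸ hy) hc
              · exact absurd (h ▸ hx) hc
            · exact ⟨y, hy, fun h => absurd h hc, fun h => absurd h hy'⟩
          · exact ⟨x, hx, fun h => absurd h hc, fun h => absurd h hx'⟩
      have hne : j ≠ j + 1 := by omega
      refine ⟨Function.update f j z, ?_, ?_, ?_⟩
      · intro i h1 h2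
        by_cases hi : i = j
        · subst hi; simpa using hz
        · rw [Function.update_of_ne hi]; exact a i (by omega) h2
      · intro i h1 h2 h3
        rw [Function.update_of_ne (show i + 1 ≠ j by omega)] at h3 ⊢
        by_cases hi : i = j
        · subst hi; simpa using hz1 h3
        · rw [Function.update_of_ne hi]; exact b i (by omega) h2 h3
      · intro i h1 h2 h3
        rw [Function.update_of_ne (show i + 1 ≠ j by omega)]
        by_cases hi : i = j
        · subst hi; rw [Function.update_self] at h3 ⊢; exact hz2 h3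
        · rw [Function.update_of_ne hi] at h3 ⊢; exact c i (by omega) h2 h3
  obtain ⟨f, a, b, c⟩ := main (m - 1) (by have := L.pos; omega)
  have hm : m - (m - 1) = 1 := by have := L.pos; omega
  rw [hm] at a b c
  exact ⟨f, a, b, c⟩

/-- The complementary track. -/
theorem Track.compl {f : ℕ → ι} (F : N.Track l m f) (L : N.Lev l m) (H : N.Irr) :
    ∃ f', N.Track l m f' ∧ ∀ i, 1 ≤ i → i ≤ m → f' i ≠ f i := by
  classical
  have hex : ∀ i, ∃ y, 1 ≤ i → i ≤ m → y ≠ f i ∧ N.cr l y i := by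
    intro i
    by_cases h : 1 ≤ i ∧ i ≤ m
    · obtain ⟨y, h1, h2⟩ := L.exists_cr H h.1 h.2 (f i)
      exact ⟨y, fun _ _ => ⟨h1, h2⟩⟩
    · exact ⟨f i, fun a b => absurd ⟨a, b⟩ h⟩
  choose f' hf' using hex
  refine ⟨f', ⟨fun i h1 h2 => (hf' i h1 h2).2, ?_, ?_⟩, fun i h1 h2 => (hf' i h1 h2).1⟩
  · intro i h1 h2 h3
    by_contra hc
    have a := hf' i h1 (by omega)
    have b := hf' (i + 1) (by omega) (by omega)
    rcases L.third a.2 (F.cr i h1 (by omega)) h3 a.1 with h | h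
    · exact hc h.symm
    · exact b.1 (h.trans (F.up i h1 h2 (h ▸ b.2)).symm)
  · intro i h1 h2 h3
    by_contra hc
    have a := hf' i h1 (by omega)
    have b := hf' (i + 1) (by omega) (by omega)
    rcases L.third b.2 (F.cr (i + 1) (by omega) (by omega)) h3 b.1 with h | h
    · exact hc h.symm
    · exact a.1 (h.trans (F.dn i h1 h2 (h ▸ a.2)).symm)

end Net

end Pool.Agent.H654R4.MO
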